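import Pool.Agent.Work.MP_82fd4a_nt.Y.NumT

/-! The computations. -/

set_option autoImplicit false

namespace Pool.Agent.Work.MP_82fd4a_nt.Y

theorem chk_T0 : chk T0 0 [] = 0 := by decide +kernel

theorem go_T0 : go T0 12 [] 1 10 120 (sal 1) * 10000 ≤ 78 * 2 ^ 57 := by decide +kernel

end Pool.Agent.Work.MP_82fd4a_nt.Y
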