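import Pool.Agent.Work.MP_82fd4a_nt.Y.NumB
import Pool.Agent.Work.MP_82fd4a_nt.Y.NumK

/-! The table has the required properties. -/

set_option autoImplicit false
open Finset

namespace Pool.Agent.Work.MP_82fd4a_nt.Y

open BS

theorem rng_eq (lo n : ℕ) (f : ℕ → ℕ) : rng lo n f = ∑ a ∈ Ico lo (lo + n), f a := by
  induction n with
  | zero => simp [rng]
  | succ n ih =>
    have e : rng lo (n + 1) f = rng lo n f + fz (lo + n) f := rfl
    rw [e, ih, fz_eq, ← add_assoc, sum_Ico_succ_top (Nat.le_add_right lo n)]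

theorem go_succ (T : Tr) (f : ℕ) (pre : List ℕ) (k a0 R M : ℕ) : go T (f + 1) pre k a0 R M =
    (fz (il a0 (R - k) (R - k) a0) fun lo => rng lo (mn R 110 + 1 - lo) (leaf T pre k M R)) +
    (rng a0 (R / 2 + 1 - a0) fun a => fz (sal (ext (um M) a)) fun M' =>
      iz (Nat.land (um M') mask0) (fl (snoc pre a) fun l => fz (R - a) fun R' =>
        fz (k + 1) fun k' => go T f l k' a R' M') 0) := rfl

theorem fiber_le {g : List ℕ → ℝ} {F : Finset (List ℕ)} {I : Finset ℕ} (key : List ℕ → ℕ)
    (v : ℕ → ℕ) (h1 : ∀ c ∈ F, key c ∈ I)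
    (h2 : ∀ a, ∑ c ∈ F with key c = a, g c ≤ v a) : ∑ c ∈ F, g c ≤ (∑ a ∈ I, v a : ℕ) := by
  rw [← sum_fiberwise_of_maps_to h1, Nat.cast_sum]
  exact sum_le_sum fun a _ => h2 a

theorem go_spec {T : Tr} (hT : chk T 0 [] = 0) (f : ℕ) {pre : List ℕ} {a0 R M : ℕ}
    (hM : Inv (um M) pre) (hR : pre.sum + R = 120) {F : Finset (List ℕ)}
    (hF : ∀ c ∈ F, Alive (120 - c.sum) c ∧ ∃ a t, c = pre ++ a :: t ∧ t.length < f ∧ a0 ≤ a) :
    ∑ c ∈ F, G (cfT T) c ≤ go T f pre (pre.length + 1) a0 R M := by
  induction f generalizing pre a0 R M F with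
  | zero =>
    rw [sum_eq_zero fun c hc => by obtain ⟨-, a, t, -, h, -⟩ := hF c hc; omega]
    exact Nat.cast_nonneg _
  | succ f ih =>
    have hkey : ∀ a t, (pre ++ a :: t).getD pre.length 0 = a := fun a t => by simp
    rw [go_succ, fz_eq, il_eq, mn_eq, rng_eq, rng_eq, Nat.cast_add,
      ← sum_filter_add_sum_filter_not F fun c => c.length = pre.length + 1]
    refine add_le_add (fiber_le (fun c => c.getD pre.length 0) _ (fun c hc => ?_) fun a => ?_)
      (fiber_le (fun c => c.getD pre.length 0) _ (fun c hc => ?_) fun a => ?_)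
    · obtain ⟨h1, h2⟩ := mem_filter.1 hc
      obtain ⟨h3, a, t, rfl, -, h4⟩ := hF c h1
      obtain rfl : t = [] := by simpa using h2
      have h5 := (h3.2.1 a (by simp)).2
      obtain ⟨-, -, h6, h7, -⟩ := h3
      simp only [List.sum_append, List.sum_singleton, List.length_append,
        List.length_singleton] at h6 h7
      rw [hkey, mem_Ico]
      split_ifs <;> omega
    · have h1 : ∀ c ∈ (F.filter fun c => c.length = pre.length + 1).filter
          fun c => c.getD pre.length 0 = a, c = pre ++ [a] := fun c hc => by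
        obtain ⟨h1, h2⟩ := mem_filter.1 hc
        obtain ⟨h1, h3⟩ := mem_filter.1 h1
        obtain ⟨-, b, t, rfl, -⟩ := hF c h1
        obtain rfl : t = [] := by simpa using h3
        rw [hkey] at h2
        rw [h2]
      rcases subset_singleton_iff.1 fun c hc => mem_singleton.2 (h1 c hc) with h2 | h2
      · rw [h2, sum_empty]
        exact Nat.cast_nonneg _
      · have h3 := h2.ge (mem_singleton_self _)
        rw [h2, sum_singleton]
        exact leaf_spec hT hM hR (hF _ (mem_filter.1 (mem_filter.1 h3).1).1).1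
    · obtain ⟨h1, h2⟩ := mem_filter.1 hc
      obtain ⟨h3, a, t, rfl, -, h4⟩ := hF c h1
      obtain _ | ⟨b, t⟩ := t
      · simp at h2
      have h5 : a ≤ b := by
        have h6 := (List.pairwise_append.1 h3.1).2.1
        exact (List.pairwise_cons.1 h6).1 b List.mem_cons_self
      have h6 := h3.2.2.1
      simp only [List.sum_append, List.sum_cons] at h6
      rw [hkey, mem_Ico]
      omega
    · have h1 : ∀ c ∈ (F.filter fun c => ¬ c.length = pre.length + 1).filter
          fun c => c.getD pre.length 0 = a, Alive (120 - c.sum) c ∧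
            ∃ b t, c = (pre ++ [a]) ++ b :: t ∧ t.length < f ∧ a ≤ b := fun c hc => by
        obtain ⟨h1, h2⟩ := mem_filter.1 hc
        obtain ⟨h1, h3⟩ := mem_filter.1 h1
        obtain ⟨h4, b, t, rfl, h5, -⟩ := hF c h1
        obtain _ | ⟨d, t⟩ := t
        · simp at h3
        rw [hkey] at h2
        subst h2
        have h6 := (List.pairwise_append.1 h4.1).2.1
        exact ⟨h4, d, t, by simp, by simpa using h5,
          (List.pairwise_cons.1 h6).1 d List.mem_cons_self⟩
      generalize (F.filter fun c => ¬ c.length = pre.length + 1).filter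
        (fun c => c.getD pre.length 0 = a) = F' at h1
      rcases F'.eq_empty_or_nonempty with rfl | ⟨c, hc⟩
      · exact Nat.cast_nonneg _
      obtain ⟨h2, b, t, h3, -⟩ := h1 c hc
      have h4 : Inv (um (sal (ext (um M) a))) (pre ++ [a]) := by
        rw [um_sal]
        exact hM.ext a
      have h5 := alive_mask0 (h3 ▸ h4.append (b :: t)) h2
      have h6 := h2.2.2.1
      rw [h3] at h6
      simp only [List.sum_append, List.sum_cons, List.sum_nil] at h6
      rw [fz_eq, iz_eq, if_pos h5, fl_eq, fz_eq, fz_eq, snoc_eq]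
      have h7 := ih (a0 := a) (R := R - a) h4
        (by rw [List.sum_append, List.sum_singleton]; omega) h1
      rwa [List.length_append] at h7

theorem all_le {F : Finset (List ℕ)} (hF : ∀ c ∈ F, Alive (120 - c.sum) c) :
    ∑ c ∈ F, G (cfT T0) c ≤ 78 / 10000 * 2 ^ 57 := by
  have h1 := go_spec chk_T0 12 (pre := []) (a0 := 10) (R := 120) (M := sal 1)
    (by rw [um_sal]; exact inv_one) rfl (F := F) fun c hc => ⟨hF c hc, ?_⟩
  · have h2 : ((go T0 12 [] 1 10 120 (sal 1) * 10000 : ℕ) : ℝ) ≤ (78 * 2 ^ 57 : ℕ) :=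
      Nat.cast_le.2 go_T0
    rw [List.length_nil, zero_add] at h1
    push_cast at h2
    linarith
  · have h2 := hF c hc
    have h3 := h2.len
    have h4 := h2.2.2.1
    have h5 := h2.2.2.2.1
    obtain _ | ⟨a, t⟩ := c
    · simp at h5
    · exact ⟨a, t, rfl, by rw [List.length_cons] at h3; omega, (h2.2.1 a List.mem_cons_self).1⟩

theorem neg_T0 {c : List ℕ} (h : Alive (120 - c.sum) c) : PhiC (cfT T0) c ≤ 0 := by
  have h1 := all_le (F := {c}) fun d hd => by rwa [mem_singleton.1 hd]
  by_contra h2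
  rw [sum_singleton, G, if_neg h2] at h1
  norm_num at h1

theorem tab_T0 : Tab (cfT T0) where
  nil := cfT_nil T0
  bd := cfT_bd chk_T0
  adm := fun _ => cfT_adm chk_T0
  neg := fun _ _ _ hc => neg_T0 (mem_Boxes.1 hc).2
  loss := by
    generalize Icc 2 12 = I
    have h1 := all_le (F := I.biUnion Boxes) fun c hc => by
      obtain ⟨k, -, hk⟩ := mem_biUnion.1 hc
      exact (mem_Boxes.1 hk).2
    rw [sum_biUnion fun k _ k' _ hk => disjoint_left.2 fun c h2 h3 =>
      hk ((mem_Boxes.1 h2).1.symm.trans (mem_Boxes.1 h3).1)] at h1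
    refine le_of_mul_le_mul_right (le_trans (le_of_eq ?_) h1) (by positivity)
    simp only [sum_mul]
    refine sum_congr rfl fun k _ => sum_congr rfl fun c hc => ?_
    have h2 := neg_T0 (mem_Boxes.1 hc).2
    rw [G, if_pos h2, max_eq_right (neg_nonneg.2 h2)]

end Pool.Agent.Work.MP_82fd4a_nt.Y
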