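import Pool.Agent.Work.MP_82fd4a_nt.Y.NumA
import Pool.Agent.Work.MP_82fd4a_nt.NumS6
import Pool.Agent.Work.MP_82fd4a_nt.LossT

/-! The cost of a box. -/

set_option autoImplicit false

namespace Pool.Agent.Work.MP_82fd4a_nt.Y

open BS

/-- all the bits of `M` come from subsums of `l` -/
def Inv (M : ℕ) (l : List ℕ) : Prop :=
  ∀ n, M.testBit n = true → ∃ p ∈ splits l, n = 128 * p.1.length + p.1.sum

theorem splits_append {l t : List ℕ} {p q : List ℕ × List ℕ} (hp : p ∈ splits l)
    (hq : q ∈ splits t) : (p.1 ++ q.1, p.2 ++ q.2) ∈ splits (l ++ t) := by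
  induction l generalizing p with
  | nil =>
    obtain rfl : p = ([], []) := by simpa [splits] using hp
    exact hq
  | cons a l ih =>
    rw [List.cons_append, mem_splits_cons]
    rcases mem_splits_cons.1 hp with ⟨u, hu, rfl⟩ | ⟨u, hu, rfl⟩
    · exact Or.inl ⟨_, ih hu, rfl⟩
    · exact Or.inr ⟨_, ih hu, rfl⟩

theorem Inv.append {M : ℕ} {l : List ℕ} (h : Inv M l) (t : List ℕ) : Inv M (l ++ t) := by
  intro n hn
  obtain ⟨p, hp, rfl⟩ := h n hn
  exact ⟨_, splits_append hp (nil_mem_splits t), by simp⟩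

theorem Inv.ext {M : ℕ} {l : List ℕ} (h : Inv M l) (a : ℕ) : Inv (ext M a) (l ++ [a]) := by
  intro n hn
  have e : (Y.ext M a).testBit n = (M.testBit n || (M <<< (128 + a)).testBit n) := tb_lor _ _ _
  rw [e, Bool.or_eq_true, Nat.testBit_shiftLeft, Bool.and_eq_true, decide_eq_true_eq] at hn
  rcases hn with hn | ⟨h1, hn⟩
  · exact h.append _ n hn
  · obtain ⟨p, hp, h2⟩ := h _ hn
    refine ⟨_, splits_append hp (q := ([a], [])) (by simp [splits]), ?_⟩
    simp only [List.length_append, List.length_singleton, List.sum_append, List.sum_singleton]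
    omega

theorem inv_one : Inv 1 [] := by
  intro n hn
  refine ⟨([], []), by simp [splits], ?_⟩
  simpa [Nat.testBit_one_eq_true_iff_self_eq_zero] using hn

theorem wins_bit {p w : ℕ → ℕ} {n : ℕ} (h : (wins p w).testBit n = true) :
    ∃ j i, j < 7 ∧ i < w j ∧ n = 128 * j + p j + i := by
  have key : ∀ m : ℕ, (Nat.rec (motive := fun _ => ℕ) 0 (fun j ih => Nat.lor ih
      (Nat.shiftLeft (Nat.sub (Nat.pow 2 (w j)) 1) (Nat.add (Nat.mul 128 j) (p j)))) m).testBit n =
      true → ∃ j i, j < m ∧ i < w j ∧ n = 128 * j + p j + i := by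
    intro m
    induction m with
    | zero => simp
    | succ m ih =>
      intro h
      rw [tb_lor, Bool.or_eq_true] at h
      rcases h with h | h
      · obtain ⟨j, i, h1, h2⟩ := ih h
        exact ⟨j, i, by omega, h2⟩
      · have h1 : ((2 ^ w m - 1) <<< (128 * m + p m)).testBit n = true := h
        rw [Nat.testBit_shiftLeft, Bool.and_eq_true, decide_eq_true_eq,
          Nat.testBit_two_pow_sub_one, decide_eq_true_eq] at h1
        exact ⟨m, n - (128 * m + p m), by omega, h1.2, by omega⟩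
  exact key 7 h

theorem mn_eq (a b : ℕ) : mn a b = min a b := by
  unfold mn
  rw [il_eq]
  split_ifs <;> omega

theorem land_ne {a b : ℕ} (h : Nat.land a b ≠ 0) : ∃ n, a.testBit n = true ∧ b.testBit n = true := by
  obtain ⟨n, hn⟩ := Nat.exists_testBit_of_ne_zero h
  rw [tb_land, Bool.and_eq_true] at hn
  exact ⟨n, hn⟩

theorem Alive.len {r : ℕ} {c : List ℕ} (h : Alive r c) : 10 * c.length ≤ c.sum := by
  have := List.card_nsmul_le_sum c 10 fun a ha => (h.2.1 a ha).1
  rw [smul_eq_mul] at this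
  omega

theorem alive_mask {M r : ℕ} {c : List ℕ} (hM : Inv M c) (h : Alive r c) :
    Nat.land M (mask c.length r) = 0 := by
  by_contra h0
  obtain ⟨n, h1, h2⟩ := land_ne h0
  obtain ⟨p, hp, rfl⟩ := hM n h1
  obtain ⟨j, i, h3, h4, h5⟩ := wins_bit h2
  simp only [mn_eq, Nat.add_eq, Nat.sub_eq] at h4 h5
  have h6 := splits_length hp
  have h7 := splits_sum hp
  have h8 := h.len
  obtain ⟨-, -, h9, h10, h11⟩ := h
  have h12 := h11 p hp
  unfold Lo at h12
  omega

theorem alive_mask0 {M r : ℕ} {c : List ℕ} (hM : Inv M c) (h : Alive r c) :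
    Nat.land M mask0 = 0 := by
  by_contra h0
  obtain ⟨n, h1, h2⟩ := land_ne h0
  obtain ⟨p, hp, rfl⟩ := hM n h1
  obtain ⟨j, i, h3, h4, h5⟩ := wins_bit h2
  simp only [Nat.sub_eq] at h4 h5
  have h7 := splits_sum hp
  obtain ⟨-, -, h9, h10, h11⟩ := h
  have h12 := h11 p hp
  unfold Lo at h12
  omega

theorem vt_spec {r : ℕ} {c : List ℕ} (h : Alive r c) {p : List ℕ × List ℕ} (hp : p ∈ splits c)
    (hs : p.1.sum ≤ 54) :
    Vm r c * 2 ^ 23 ≤ vt c.length r p.1.length (55 - p.1.sum) * 256 ^ (c.length - 1) := by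
  have h6 := splits_length hp
  have h7 := splits_sum hp
  have h8 := h.len
  obtain ⟨-, -, h9, h10, -⟩ := h
  have h1 := Vm_le (r := r) hp (by unfold Lo; omega)
  have h2 : p.2 ≠ [] := by
    intro h3
    rw [h3, List.sum_nil] at h7
    omega
  have h3 := List.length_pos_of_ne_nil h2
  rw [← ct_eq (by omega)] at h1
  have e : vt c.length r p.1.length (55 - p.1.sum) = ct p.1.length (c.length - 1 - p.1.length) r
    (55 - p.1.sum) * 8388608 / 256 ^ (c.length - 1) + 1 := rfl
  rw [e]
  have h4 := Nat.lt_div_mul_add (a := ct p.1.length (c.length - 1 - p.1.length) r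
    (55 - p.1.sum) * 8388608) (b := 256 ^ (c.length - 1)) (by positivity)
  rw [add_mul, one_mul]
  omega

theorem vb_spec {M r : ℕ} {c : List ℕ} (hM : Inv (um M) c) (h : Alive r c) :
    Vm r c * 2 ^ 23 ≤ vb c.length r M * 256 ^ (c.length - 1) := by
  have key : ∀ (P : ℕ → Prop) (V0 : ℕ) (F : ℕ → ℕ → ℕ), P V0 → (∀ i V, P V → P (F i V)) →
      ∀ m : ℕ, P (Nat.rec V0 F m) := fun P V0 F h0 h1 m => by
    induction m with
    | zero => exact h0
    | succ m ih => exact h1 _ _ ih
  unfold vb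
  rw [fz_eq]
  have h0 := vt_spec h (nil_mem_splits c) (by simp)
  simp only [List.length_nil, List.sum_nil, Nat.sub_zero] at h0
  refine key (fun V => Vm r c * 2 ^ 23 ≤ V * 256 ^ (c.length - 1)) _ (vs c.length r M) h0
    (fun i V hV => ?_) 4
  simp only [vs, fz_eq, iz_eq, il_eq, mn_eq]
  split_ifs with h1 h2
  · exact hV
  · exact hV
  · have h3 := Nat.testBit_log2 h1
    have h4 : ∀ W n : ℕ, (Nat.mod (Nat.shiftRight (um M) W) 16).testBit n = true →
        n < 4 ∧ (um M).testBit (W + n) = true := fun W n hn => by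
      have h5 : ((um M >>> W) % 2 ^ 4).testBit n = true := hn
      rw [Nat.testBit_mod_two_pow, Nat.testBit_shiftRight] at h5
      simpa using h5
    obtain ⟨h5, h6⟩ := h4 _ _ h3
    obtain ⟨p, hp, h7⟩ := hM _ h6
    have h8 := splits_sum hp
    have h9 := h.2.2.1
    simp only [Nat.add_eq, Nat.mul_eq, Nat.sub_eq] at h7 h5 ⊢
    generalize Nat.log2 _ = b at h7 h5 ⊢
    have h10 := vt_spec h hp (by omega)
    rw [show p.1.length = i + 2 by omega, show 55 - p.1.sum = 4 - b by omega] at h10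
    rcases le_total V (vt c.length r (i + 2) (4 - b)) with h11 | h11
    · rwa [min_eq_left h11]
    · rwa [min_eq_right h11]

theorem um_sal (X : ℕ) : um (sal X) = X := by
  refine Nat.eq_of_testBit_eq fun n => ?_
  have e : um (sal X) = (X <<< 64 ||| X % 1000000007) >>> 64 := rfl
  have h : X % 1000000007 < 2 ^ (64 + n) :=
    (Nat.mod_lt X (by norm_num)).trans_le
      (le_trans (by norm_num) (Nat.pow_le_pow_right (by norm_num) (Nat.le_add_right 64 n)))
  rw [e, Nat.testBit_shiftRight, Nat.testBit_or, Nat.testBit_shiftLeft, Nat.testBit_lt_two_pow h]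
  simp

theorem pd_eq (r : ℕ) (l : List ℕ) : pd r l l.length = pend r l := by
  induction l with
  | nil => simp [pend]; rfl
  | cons a t ih =>
    have e : pd r (a :: t) (a :: t).length = il (t.length + 1) r (a + 1) a * fz t.length (pd r t) :=
      rfl
    rw [e, il_eq, fz_eq, ih, s6_pend_cons]

theorem cnt_eq (a : ℕ) (l : List ℕ) : cnt a l = l.count a + 1 := by
  induction l with
  | nil => rfl
  | cons b t ih =>
    have e : cnt a (b :: t) = Bool.rec (motive := fun _ => ℕ) (cnt a t) (cnt a t + 1) (Nat.beq b a) :=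
      rfl
    rw [e, ih, List.count_cons]
    cases h : Nat.beq b a with
    | false => simp [Nat.ne_of_beq_eq_false h]
    | true => simp [Nat.eq_of_beq_eq_true h]

theorem mfn_eq (l : List ℕ) : mfn l = mf l := by
  induction l with
  | nil => rfl
  | cons a t ih =>
    have e : mfn (a :: t) = cnt a t * mfn t := rfl
    rw [e, ih, cnt_eq, mf]

theorem mf_pos (c : List ℕ) : 0 < mf c := by
  induction c with
  | nil => exact Nat.one_pos
  | cons a c ih => exact Nat.mul_pos (Nat.succ_pos _) ih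

open Classical in
/-- the loss of a box, or a large number -/
noncomputable def G (cf : List ℕ → ℝ) (c : List ℕ) : ℝ :=
  if PhiC cf c ≤ 0 then -PhiC cf c * vol (120 - c.sum) c * 2 ^ 57 else 2 ^ 60

theorem vol_nonneg (r : ℕ) (c : List ℕ) : 0 ≤ vol r c := by
  unfold vol
  positivity

theorem G_nonneg (cf : List ℕ → ℝ) (c : List ℕ) : 0 ≤ G cf c := by
  unfold G
  split_ifs with h
  · exact mul_nonneg (mul_nonneg (neg_nonneg.2 h) (vol_nonneg _ _)) (by positivity)
  · positivity

theorem leaf_spec {T : Tr} (hT : chk T 0 [] = 0) {pre : List ℕ} {M R a : ℕ} (hM : Inv (um M) pre)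
    (hR : pre.sum + R = 120) (h : Alive (120 - (pre ++ [a]).sum) (pre ++ [a])) :
    G (cfT T) (pre ++ [a]) ≤ leaf T pre (pre.length + 1) M R a := by
  have hr : R - a = 120 - (pre ++ [a]).sum := by
    rw [List.sum_append, List.sum_singleton]
    omega
  have hk : pre.length + 1 = (pre ++ [a]).length := by simp
  have h1 := alive_mask (hM.append [a]) h
  have h2 := vb_spec (M := sal (ext (um M) a)) (by rw [um_sal]; exact hM.ext a) h
  have h3 := h.len
  have h4 := h.2.2.1
  have h5 := PhiC_cfT hT h.1 (by omega)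
  have h6 := pend_pos (120 - (pre ++ [a]).sum) fun x hx => le_trans (by norm_num) (h.2.1 x hx).1
  have h7 := mf_pos (pre ++ [a])
  unfold leaf G vol
  simp only [fz_eq, iz_eq, il_eq, fl_eq, snoc_eq, Nat.sub_eq, hr, hk, h1, if_true, pd_eq, mfn_eq,
    Nat.add_eq, Nat.mul_eq, h5, dec]
  generalize pre ++ [a] = c at *
  generalize 120 - c.sum = r at *
  generalize vb c.length r _ = V at *
  have e1 : ∀ w : ℕ, Nat.mod w 1099511627776 = w % 2 ^ 40 := fun w => rfl
  have e2 : ∀ w : ℕ, Nat.div w 1099511627776 = w / 2 ^ 40 := fun w => rfl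
  rw [e1, e2]
  generalize (16384 + ph c T 0) % 2 ^ 40 = A
  generalize (16384 + ph c T 0) / 2 ^ 40 = N
  by_cases h8 : A ≤ N
  · have h9 : (A : ℝ) ≤ N := by exact_mod_cast h8
    rw [if_pos h8, if_pos (by linarith)]
    have h10 := Nat.lt_div_mul_add (a := (N - A) * V * 1048576) (Nat.mul_pos h6 h7)
    have e3 : Nat.succ (Nat.div ((N - A) * V * 1048576) (pend r c * mf c)) =
      (N - A) * V * 1048576 / (pend r c * mf c) + 1 := rfl
    rw [e3]
    generalize (N - A) * V * 1048576 / (pend r c * mf c) = q at h10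
    have h11 : ((N : ℝ) - A) * V * 1048576 ≤ (q + 1) * (pend r c * mf c) := by
      rw [← Nat.cast_sub h8]
      exact_mod_cast (by rw [add_mul, one_mul]; exact h10.le)
    have h12 : (Vm r c : ℝ) * 2 ^ 23 ≤ V * 256 ^ (c.length - 1) := by exact_mod_cast h2
    have h13 : (0 : ℝ) < pend r c := by exact_mod_cast h6
    have h14 : (0 : ℝ) < mf c := by exact_mod_cast h7
    rw [← mul_div_assoc, div_mul_eq_mul_div, div_le_iff₀ (by positivity)]
    push_cast
    calc -(((A : ℝ) - N) / 16384) * Vm r c * 2 ^ 57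
        = ((N : ℝ) - A) * 1048576 * (Vm r c * 2 ^ 23) := by ring
      _ ≤ ((N : ℝ) - A) * 1048576 * (V * 256 ^ (c.length - 1)) := by gcongr
      _ = ((N : ℝ) - A) * V * 1048576 * 256 ^ (c.length - 1) := by ring
      _ ≤ ((q : ℝ) + 1) * (pend r c * mf c) * 256 ^ (c.length - 1) := by gcongr
      _ = _ := by ring
  · have h9 : (N : ℝ) < A := by exact_mod_cast not_le.1 h8
    rw [if_neg h8, if_neg (by linarith)]
    norm_num

end Pool.Agent.Work.MP_82fd4a_nt.Y
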