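import Pool.Agent.Work.MP_82fd4a_nt.NDefs
import Pool.Agent.Work.MP_82fd4a_nt.Z.Defs

/-! Third decomposition: weights given by a table on the cells. -/

set_option autoImplicit false
open Finset

namespace Pool.Agent.Work.MP_82fd4a_nt.Y

/-- all the products lie between `x ^ (1 / 30)` and `x ^ (9 / 40)` -/
def Sized3 (x K J : ℕ) (Λ : ℝ) (S : Finset ℕ) : Prop := ∀ s ∈ S, ∀ π ∈ tup K J Λ,
  (x : ℝ) ^ (1 / 30 : ℝ) ≤ ((s * ∏ i, π i : ℕ) : ℝ) ∧ ((s * ∏ i, π i : ℕ) : ℝ) ≤ (x : ℝ) ^ (9 / 40 : ℝ)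

/-- lists of cells that are admissible for the type I estimate -/
def Adm (D : List ℕ) : Prop := ∃ p ∈ splits D, p.1.sum + p.1.length ≤ 16 ∧ p.2.sum ≤ 54

/-- the same condition on the fine scale -/
def AdmF (F : ℕ) (D : List ℕ) : Prop := ∃ p ∈ splits D,
  (p.1.map (· / F)).sum + p.1.length ≤ 16 ∧ (p.2.map (· / F)).sum ≤ 54

/-- the large parts, sorted -/
noncomputable def bigL (F : ℕ) (t : Multiset ℕ) : List ℕ := (t.filter (10 * F ≤ ·)).sort (· ≤ ·)

open Classical in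
/-- the short part of an admissible set -/
noncomputable def sel1 (F : ℕ) (t : Multiset ℕ) : Multiset ℕ :=
  if h : AdmF F (bigL F t) then (h.choose.1 : List ℕ) else 0

/-- the weights on the types -/
noncomputable def lam1 (cf : List ℕ → ℝ) (F y : ℕ) (t : Multiset ℕ) : ℝ :=
  if (t - sel1 F t).sum < y then
    cf ((bigL F t).map (· / F)) * (-1) ^ (t.filter (· < 10 * F)).card else 0

/-- the weights on the pairs of types -/
noncomputable def lam2 (cf : List ℕ → ℝ) (F y : ℕ) (t t' : Multiset ℕ) : ℝ :=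
  if t = sel1 F (t + t') then lam1 cf F y (t + t') / ((t + t').powerset.count t : ℝ) else 0

/-- the value of the sieve on squarefree numbers of a given type -/
noncomputable def PhiN (cf : List ℕ → ℝ) (F y : ℕ) (τ : Multiset ℕ) : ℝ :=
  (τ.powerset.map (lam1 cf F y)).sum

/-- the value of the sieve on a box -/
noncomputable def PhiC (cf : List ℕ → ℝ) (c : List ℕ) : ℝ := ((splits c).map fun p => cf p.1).sum

/-- the types on which there is a loss -/
def BadT (F y δ : ℕ) (τ : Multiset ℕ) : Prop := ¬ Good y (65 * F) τ ∧ 2 ≤ τ.card ∧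
  (∀ a ∈ τ, 10 * F ≤ a) ∧ 120 * F ≤ τ.sum + δ ∧ τ.sum ≤ 120 * F + δ

open Classical in
/-- the loss -/
noncomputable def LossF (cf : List ℕ → ℝ) (b : ℝ) (F y δ : ℕ) (n : ℕ) : ℝ :=
  if Squarefree n ∧ BadT F y δ (ty b n) then
    max 0 (-PhiC cf (((ty b n).sort (· ≤ ·)).map (· / F))) else 0

/-- the sum is certainly below the upper end of the bilinear range -/
def Lo (r : ℕ) (s : List ℕ) : Prop := s.sum + min s.length r ≤ 65

/-- the boxes that can contain a type without a subsum in the bilinear range -/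
def Alive (r : ℕ) (c : List ℕ) : Prop :=
  c.Pairwise (· ≤ ·) ∧ (∀ a ∈ c, 10 ≤ a ∧ a ≤ 110) ∧ c.sum + r = 120 ∧ r ≤ c.length ∧
    ∀ p ∈ splits c, Lo r p.1 → p.1.sum ≤ 54 ∧ ¬ Lo r p.2

/-- the best of the bounds for the volume -/
noncomputable def Vm (r : ℕ) (c : List ℕ) : ℕ := sInf {v | ∃ p ∈ splits c, Lo r p.1 ∧
  v = cT p.1.length (c.length - 1 - p.1.length) r (55 - p.1.sum)}

/-- normalised volume of a box -/
noncomputable def vol (r : ℕ) (c : List ℕ) : ℝ :=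
  Vm r c / (256 ^ (c.length - 1) * pend r c * mf c)

open Classical in
/-- the boxes with `k` coordinates -/
noncomputable def Boxes (k : ℕ) : Finset (List ℕ) :=
  ((Fintype.piFinset fun _ : Fin k => Icc 10 110).image List.ofFn).filter
    fun c => Alive (120 - c.sum) c

open Classical in
/-- the weight restricted to the bad types with `k` parts -/
noncomputable def badSum (x : ℕ) (b : ℝ) (F y δ m k : ℕ) (φ : List ℕ → ℝ) : ℝ :=
  ∑ n ∈ Icc 1 (2 * x), if Squarefree n ∧ BadT F y δ (ty b n) ∧ (ty b n).card = k then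
    φ (((ty b n).sort (· ≤ ·)).map (· / F)) * gk x (Real.log x ^ 2) (m * n) else 0

/-- a sorted type without a subsum in the bilinear range -/
structure Hyp (F y δ : ℕ) (l : List ℕ) : Prop where
  δF : δ < F
  y0 : 0 < y
  yδ : y + 2 * δ ≤ 55 * F
  sorted : l.Pairwise (· ≤ ·)
  big : ∀ a ∈ l, 10 * F ≤ a
  two : 2 ≤ l.length
  bad : ∀ s : List ℕ, s.Subperm l → s.sum < y ∨ 65 * F < s.sum
  lo : 120 * F ≤ l.sum + δ
  hi : l.sum ≤ 120 * F + δ

/-- what is required of the table -/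
structure Tab (cf : List ℕ → ℝ) : Prop where
  nil : cf [] = 1
  bd : ∀ D, |cf D| ≤ 2 ^ 40
  adm : ∀ D, D.Pairwise (· ≤ ·) → cf D ≠ 0 → Adm D
  neg : ∀ k, 2 ≤ k → ∀ c ∈ Boxes k, PhiC cf c ≤ 0
  loss : ∑ k ∈ Icc 2 12, ∑ c ∈ Boxes k, max 0 (-PhiC cf c) * vol (120 - c.sum) c ≤ 78 / 10000

lemma mem_Boxes {k : ℕ} {c : List ℕ} : c ∈ Boxes k ↔ c.length = k ∧ Alive (120 - c.sum) c := by
  classical
  unfold Boxes
  rw [mem_filter, mem_image]
  constructor
  · rintro ⟨⟨f, -, rfl⟩, h⟩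
    exact ⟨List.length_ofFn, h⟩
  · rintro ⟨rfl, h⟩
    refine ⟨⟨c.get, Fintype.mem_piFinset.2 fun i => mem_Icc.2 (h.2.1 _ (List.get_mem c i)),
      List.ofFn_get c⟩, h⟩

lemma Vm_spec (r : ℕ) (c : List ℕ) : ∃ p ∈ splits c, Lo r p.1 ∧
    Vm r c = cT p.1.length (c.length - 1 - p.1.length) r (55 - p.1.sum) :=
  Nat.sInf_mem (s := {v | ∃ p ∈ splits c, Lo r p.1 ∧
    v = cT p.1.length (c.length - 1 - p.1.length) r (55 - p.1.sum)})
    ⟨_, ([], c), nil_mem_splits c, by simp [Lo], rfl⟩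

lemma Vm_le {r : ℕ} {c : List ℕ} {p : List ℕ × List ℕ} (hp : p ∈ splits c) (h : Lo r p.1) :
    Vm r c ≤ cT p.1.length (c.length - 1 - p.1.length) r (55 - p.1.sum) :=
  Nat.sInf_le ⟨p, hp, h, rfl⟩

lemma admF_iff (F : ℕ) (D : List ℕ) : AdmF F D ↔ Adm (D.map (· / F)) := by
  unfold AdmF Adm
  rw [splits_map]
  constructor
  · rintro ⟨p, hp, h⟩
    exact ⟨_, List.mem_map.2 ⟨p, hp, rfl⟩, by simpa using h⟩
  · rintro ⟨p, hp, h⟩
    obtain ⟨q, hq, rfl⟩ := List.mem_map.1 hp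
    exact ⟨q, hq, by simpa using h⟩

end Pool.Agent.Work.MP_82fd4a_nt.Y
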