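import Pool.Agent.Work.MP_82fd4a_nt.Y.Defs
import Pool.Agent.Work.MP_82fd4a_nt.RuleM
import Pool.Agent.Work.MP_82fd4a_nt.RuleMap

/-! The weights given by the table, and the pointwise inequalities. -/

set_option autoImplicit false
open Filter Topology Finset

namespace Pool.Agent.Work.MP_82fd4a_nt.Y

variable {cf : List ℕ → ℝ}

lemma yRule_sel1 {F : ℕ} {t : Multiset ℕ} (h : AdmF F (bigL F t)) :
    ∃ p ∈ splits (bigL F t), (p.1.map (· / F)).sum + p.1.length ≤ 16 ∧
      (p.2.map (· / F)).sum ≤ 54 ∧ sel1 F t = p.1 :=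
  ⟨h.choose, h.choose_spec.1, h.choose_spec.2.1, h.choose_spec.2.2, dif_pos h⟩

lemma yRule_adm (hT : Tab cf) {F : ℕ} {t : Multiset ℕ} (h : cf ((bigL F t).map (· / F)) ≠ 0) :
    AdmF F (bigL F t) :=
  (admF_iff F _).2 (hT.adm _ ((Multiset.pairwise_sort _ (· ≤ ·)).map _
    fun _ _ hab => Nat.div_le_div_right hab) h)

lemma yRule_sel1_le (F : ℕ) (t : Multiset ℕ) : sel1 F t ≤ t := by
  by_cases h : AdmF F (bigL F t)
  · obtain ⟨p, hp, -, -, e⟩ := yRule_sel1 h
    have h1 := rm_split hp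
    rw [bigL, Multiset.sort_eq] at h1
    rw [e]
    exact (Multiset.le_add_right _ _).trans (h1.le.trans (Multiset.filter_le _ _))
  · rw [sel1, dif_neg h]; exact Multiset.zero_le _

lemma yRule_count (F : ℕ) (t : Multiset ℕ) : (t.powerset.count (sel1 F t) : ℝ) ≠ 0 := by
  have := Multiset.count_pos.2 (Multiset.mem_powerset.2 (yRule_sel1_le F t))
  exact_mod_cast this.ne'

lemma yRule_lam2 (cf : List ℕ → ℝ) (F y : ℕ) (b : ℝ) {d d₁ : ℕ} (h : d₁ ∈ d.divisors) :
    lam2 cf F y (ty b d₁) (ty b (d / d₁)) = if ty b d₁ = sel1 F (ty b d) then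
      lam1 cf F y (ty b d) / ((ty b d).powerset.count (sel1 F (ty b d)) : ℝ) else 0 := by
  obtain ⟨⟨k, rfl⟩, h0⟩ := Nat.mem_divisors.1 h
  have h1 := left_ne_zero_of_mul h0
  rw [Nat.mul_div_cancel_left _ (Nat.pos_of_ne_zero h1), lam2,
    ← ty_mul b h1 (right_ne_zero_of_mul h0)]
  split_ifs with e
  · rw [← e]
  · rfl

lemma yRule_abs_lam1 (hT : Tab cf) (F y : ℕ) (t : Multiset ℕ) : |lam1 cf F y t| ≤ 2 ^ 40 := by
  unfold lam1
  split_ifs
  · rw [abs_mul, abs_pow, abs_neg, abs_one, one_pow, mul_one]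
    exact hT.bd _
  · simp

lemma yRule_Phi2 (cf : List ℕ → ℝ) (F y : ℕ) (b : ℝ) {n : ℕ} (hn : Squarefree n) :
    Phi2 b (lam2 cf F y) n = PhiN cf F y (ty b n) := by
  rw [Phi2, PhiN, ← typ_sum_divisors b hn]
  refine sum_congr rfl fun d hd => ?_
  rw [sum_congr rfl fun d₁ h => yRule_lam2 cf F y b h,
    typ_sum_divisors b (hn.squarefree_of_dvd (Nat.dvd_of_mem_divisors hd)) fun t =>
      if t = sel1 F (ty b d) then
        lam1 cf F y (ty b d) / ((ty b d).powerset.count (sel1 F (ty b d)) : ℝ) else 0,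
    rm_sum_ite, mul_div_cancel₀ _ (yRule_count F _)]

lemma yRule_small (cf : List ℕ → ℝ) {F y e : ℕ} {σ : Multiset ℕ}
    (h : ¬ Good y (65 * F) (e ::ₘ σ)) (he : e < 10 * F) (hy : y ≤ 55 * F) :
    PhiN cf F y (e ::ₘ σ) = 0 := by
  unfold PhiN
  rw [Multiset.powerset_cons, Multiset.map_add, Multiset.sum_add, Multiset.map_map,
    ← Multiset.sum_map_add]
  refine Multiset.sum_eq_zero fun x hx => ?_
  rw [Multiset.mem_map] at hx
  obtain ⟨t, ht, rfl⟩ := hx
  have hb : bigL F (e ::ₘ t) = bigL F t := by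
    rw [bigL, bigL, Multiset.filter_cons_of_neg _ (by omega)]
  have hs : sel1 F (e ::ₘ t) = sel1 F t := by
    unfold sel1
    generalize bigL F (e ::ₘ t) = l at hb
    subst hb
    rfl
  have hd := Multiset.cons_sub_of_le e (yRule_sel1_le F t)
  have h1 := typ_not_good h (e ::ₘ (t - sel1 F t)) (Multiset.mem_powerset.2
    (Multiset.cons_le_cons e (tsub_le_self.trans (Multiset.mem_powerset.1 ht))))
  simp only [Function.comp, lam1, hb, hs, hd, Multiset.sum_cons,
    Multiset.filter_cons_of_pos (p := (· < 10 * F)) t he, Multiset.card_cons] at h1 ⊢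
  by_cases h2 : (t - sel1 F t).sum < y
  · rw [if_pos h2, if_pos (by omega)]; ring
  · rw [if_neg h2, if_neg (by omega)]; ring

lemma yRule_lam1_big (hT : Tab cf) {F y : ℕ} (hF : 0 < F) {τ t : Multiset ℕ}
    (hG : ¬ Good y (65 * F) τ) (ht : t ≤ τ) (h4 : ∀ a ∈ t, 10 * F ≤ a) :
    lam1 cf F y t = cf ((t.sort (· ≤ ·)).map (· / F)) := by
  have hb : bigL F t = t.sort (· ≤ ·) := by rw [bigL, Multiset.filter_eq_self.2 h4]
  have h0 : t.filter (· < 10 * F) = 0 :=
    Multiset.filter_eq_nil.2 fun a ha => not_lt.2 (h4 a ha)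
  rw [lam1, h0, Multiset.card_zero, pow_zero, mul_one, ← hb]
  by_cases h : cf ((bigL F t).map (· / F)) = 0
  · rw [h]; simp
  obtain ⟨p, hp, -, h2, e⟩ := yRule_sel1 (yRule_adm hT h)
  have h1 := rm_split hp
  rw [hb, Multiset.sort_eq] at h1
  have h3 : t - sel1 F t = p.2 := by rw [e, ← h1, add_tsub_cancel_left]
  have h5 : (p.2 : Multiset ℕ) ≤ t := h1 ▸ Multiset.le_add_left _ _
  have h6 := List.card_nsmul_le_sum (p.2.map (· / F)) 10 fun c hc => by
    obtain ⟨a, ha, rfl⟩ := List.mem_map.1 hc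
    exact (Nat.le_div_iff_mul_le hF).2 (h4 a (Multiset.mem_of_le h5 ha))
  rw [List.length_map, smul_eq_mul] at h6
  have h7 := (rmap_hi hF p.2).trans (Nat.mul_le_mul_right F
    (show (p.2.map (· / F)).sum + p.2.length ≤ 65 by omega))
  have h8 := typ_not_good hG p.2 (Multiset.mem_powerset.2 (h5.trans ht))
  rw [Multiset.sum_coe] at h8
  rw [if_pos (by rw [h3, Multiset.sum_coe]; omega)]

lemma yRule_big (hT : Tab cf) {F y : ℕ} (hF : 0 < F) {τ : Multiset ℕ} (hG : ¬ Good y (65 * F) τ)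
    (h4 : ∀ a ∈ τ, 10 * F ≤ a) : PhiN cf F y τ = PhiC cf ((τ.sort (· ≤ ·)).map (· / F)) := by
  have h1 : PhiN cf F y τ = (τ.powerset.map fun t => cf ((t.sort (· ≤ ·)).map (· / F))).sum :=
    congrArg _ (Multiset.map_congr rfl fun t ht => yRule_lam1_big hT hF hG
      (Multiset.mem_powerset.1 ht) fun a ha =>
        h4 a (Multiset.mem_of_le (Multiset.mem_powerset.1 ht) ha))
  have hl := Multiset.pairwise_sort τ (· ≤ ·)
  rw [h1]
  conv_lhs => rw [← Multiset.sort_eq τ (· ≤ ·), rm_powerset]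
  rw [Multiset.map_coe, Multiset.sum_coe, List.map_map, PhiC, splits_map, List.map_map]
  refine congrArg _ (List.map_congr_left fun p hp => ?_)
  simp only [Function.comp, Multiset.coe_sort]
  rw [List.mergeSort_eq_self _ (hl.sublist (splits_sublist hp).1)]

theorem abs_lam2_le (hT : Tab cf) (F y : ℕ) (t t' : Multiset ℕ) : |lam2 cf F y t t'| ≤ 2 ^ 40 := by
  unfold lam2
  split_ifs
  · rw [abs_div, Nat.abs_cast]
    rcases Nat.eq_zero_or_pos ((t + t').powerset.count t) with h | h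
    · rw [h]; simp
    · exact (div_le_self (abs_nonneg _) (by exact_mod_cast h)).trans (yRule_abs_lam1 hT _ _ _)
  · simp

theorem sum_lam2_le (hT : Tab cf) (F y : ℕ) (b : ℝ) (d : ℕ) :
    ∑ d₁ ∈ d.divisors, |lam2 cf F y (ty b d₁) (ty b (d / d₁))| ≤ 2 ^ 40 := by
  have h := rm_sum_divisors b d (G := fun t => if t = sel1 F (ty b d) then
    |lam1 cf F y (ty b d)| / ((ty b d).powerset.count (sel1 F (ty b d)) : ℝ) else 0) fun t => by
      split_ifs
      · positivity
      · exact le_rfl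
  rw [rm_sum_ite, mul_div_cancel₀ _ (yRule_count F _)] at h
  refine le_trans (le_of_eq (sum_congr rfl fun d₁ h => ?_)) (h.trans (yRule_abs_lam1 hT _ _ _))
  rw [yRule_lam2 cf F y b h]
  split_ifs
  · rw [abs_div, Nat.abs_cast]
  · exact abs_zero

theorem lam2_supp (hT : Tab cf) {F y : ℕ} (hF : 0 < F) {t t' : Multiset ℕ}
    (h : lam2 cf F y t t' ≠ 0) : t.sum + t.card ≤ 16 * F ∧ t'.sum < y := by
  unfold lam2 at h
  split_ifs at h with e
  swap
  · exact absurd rfl h
  have h1 : lam1 cf F y (t + t') ≠ 0 := fun e' => h (by rw [e', zero_div])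
  unfold lam1 at h1
  split_ifs at h1 with h2
  swap
  · exact absurd rfl h1
  rw [← e, add_tsub_cancel_left] at h2
  obtain ⟨p, -, h3, -, e'⟩ := yRule_sel1 (yRule_adm hT (left_ne_zero_of_mul h1))
  refine ⟨?_, h2⟩
  rw [e, e', Multiset.sum_coe, Multiset.coe_card]
  exact (rm_cells hF _).trans (Nat.mul_le_mul_right _ h3)

theorem abs_PhiN_le (hT : Tab cf) (F y : ℕ) (τ : Multiset ℕ) :
    |PhiN cf F y τ / 2 ^ 40| ≤ 2 ^ τ.card := by
  rw [abs_div, abs_of_pos (by positivity : (0 : ℝ) < 2 ^ 40), div_le_iff₀ (by positivity)]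
  unfold PhiN
  refine (Multiset.abs_sum_le_sum_abs).trans ?_
  have h := Multiset.sum_le_card_nsmul ((τ.powerset.map (lam1 cf F y)).map abs) (2 ^ 40) (by
    intro x hx
    simp only [Multiset.map_map, Multiset.mem_map, Function.comp] at hx
    obtain ⟨t, -, rfl⟩ := hx
    exact yRule_abs_lam1 hT F y t)
  rwa [Multiset.card_map, Multiset.card_map, Multiset.card_powerset, nsmul_eq_mul, Nat.cast_pow,
    Nat.cast_ofNat] at h

theorem lossF_nonneg (cf : List ℕ → ℝ) (b : ℝ) (F y δ n : ℕ) : 0 ≤ LossF cf b F y δ n := by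
  unfold LossF
  split_ifs
  · exact le_max_left _ _
  · exact le_rfl

theorem hyp_of_bad {F y δ : ℕ} {τ : Multiset ℕ} (hδ : δ < F) (hy : 0 < y)
    (hyδ : y + 2 * δ ≤ 55 * F) (h : BadT F y δ τ) : Hyp F y δ (τ.sort (· ≤ ·)) := by
  obtain ⟨h, h3, h4, h1, h2⟩ := h
  refine ⟨hδ, hy, hyδ, Multiset.pairwise_sort _ _, fun a ha => h4 a ((Multiset.mem_sort _).1 ha),
    by rwa [Multiset.length_sort], fun s hs => ?_, by rwa [rm_sort_sum], by rwa [rm_sort_sum]⟩
  have h3 := Multiset.coe_le.2 hs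
  rw [Multiset.sort_eq] at h3
  exact typ_not_good h s (Multiset.mem_powerset.2 h3)

theorem bad_card {F y δ : ℕ} {τ : Multiset ℕ} (hδ : δ < F) (h : BadT F y δ τ) :
    τ.card ∈ Icc 2 12 := by
  obtain ⟨-, h3, h4, -, h2⟩ := h
  refine mem_Icc.2 ⟨h3, not_lt.1 fun h0 => ?_⟩
  have h5 := Multiset.card_nsmul_le_sum h4
  have h6 := Nat.mul_le_mul_right (10 * F) (show 13 ≤ τ.card from h0)
  rw [smul_eq_mul] at h5
  omega

lemma yRule_cells {F y δ : ℕ} {l : List ℕ} (H : Hyp F y δ l) : (l.map (· / F)).sum ≤ 120 := by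
  by_contra h
  have h1 := Nat.mul_le_mul_right F (show 121 ≤ (l.map (· / F)).sum by omega)
  have h2 := rmap_lo F l
  have h3 := H.hi
  have h4 := H.δF
  omega

theorem box_L {F y δ : ℕ} {l : List ℕ} (H : Hyp F y δ l) {s : List ℕ} (hs : s.Subperm l)
    (h : Lo (120 - (l.map (· / F)).sum) (s.map (· / F))) : s.sum < y := by
  have hF : 0 < F := lt_of_le_of_lt (Nat.zero_le _) H.δF
  rw [Lo, List.length_map] at h
  obtain ⟨t, ht, e1, -, e3⟩ := rmap_compl hs F
  have c1 := yRule_cells H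
  have h3 := H.hi
  have h4 := H.δF
  have h5 := H.yδ
  rcases H.bad s hs with h1 | h1
  · exact h1
  · exfalso
    rcases le_total s.length (120 - (l.map (· / F)).sum) with h2 | h2
    · rw [min_eq_left h2] at h
      have h6 := (rmap_hi hF s).trans (Nat.mul_le_mul_right F h)
      omega
    · rw [min_eq_right h2] at h
      have h6 := Nat.mul_le_mul_right F (show 55 ≤ (t.map (· / F)).sum by omega)
      have h7 := rmap_lo F t
      rcases H.bad t ht with h8 | h8 <;> omega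

theorem alive_of_hyp {F y δ : ℕ} {l : List ℕ} (H : Hyp F y δ l) :
    Alive (120 - (l.map (· / F)).sum) (l.map (· / F)) := by
  have hF : 0 < F := lt_of_le_of_lt (Nat.zero_le _) H.δF
  have c1 := yRule_cells H
  have h3 := H.lo
  have h4 := H.δF
  have h5 := H.yδ
  refine ⟨H.sorted.map _ fun a b hab => Nat.div_le_div_right hab, ?_, by omega, ?_, ?_⟩
  · intro c hc
    obtain ⟨a, ha, rfl⟩ := List.mem_map.1 hc
    refine ⟨(Nat.le_div_iff_mul_le hF).2 (H.big a ha), Nat.lt_succ_iff.1 ?_⟩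
    have e := List.perm_cons_erase ha
    have e1 := e.sum_eq
    have e2 := e.length_eq
    have e3 := H.two
    have e4 := H.hi
    have e5 := List.card_nsmul_le_sum (l.erase a) (10 * F) fun c hc =>
      H.big c (List.mem_of_mem_erase hc)
    rw [List.sum_cons] at e1
    rw [List.length_cons] at e2
    have e6 := Nat.mul_le_mul_right (10 * F) (show 1 ≤ (l.erase a).length by omega)
    rw [smul_eq_mul] at e5
    exact (Nat.div_lt_iff_lt_mul hF).2 (by omega)
  · rw [List.length_map]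
    by_contra h0
    have h6 := (rmap_hi hF l).trans (Nat.mul_le_mul_right F
      (show (l.map (· / F)).sum + l.length ≤ 119 by omega))
    omega
  · intro p hp h1
    rw [splits_map] at hp
    obtain ⟨q, hq, rfl⟩ := List.mem_map.1 hp
    have h6 := box_L H (splits_sublist hq).1.subperm h1
    refine ⟨not_lt.1 fun h0 => ?_, fun h2 => ?_⟩
    · have h7 := Nat.mul_le_mul_right F (show 55 ≤ (q.1.map (· / F)).sum from h0)
      have h8 := rmap_lo F q.1
      omega
    have h7 := box_L H (splits_sublist hq).2.subperm h2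
    have h8 := splits_sum hq
    omega

/-- the two pointwise inequalities -/
theorem point3 (hT : Tab cf) (b : ℝ) {F y δ n : ℕ} (hn : Squarefree n) (hδ : δ < F) (hy : 0 < y)
    (hyδ : y + 2 * δ ≤ 55 * F) (h1 : 120 * F ≤ (ty b n).sum + δ)
    (h2 : (ty b n).sum ≤ 120 * F + δ) :
    Phi2 b (lam2 cf F y) n - 2 ^ 40 * Gd2 b y (65 * F) (fun τ => PhiN cf F y τ / 2 ^ 40) n
      ≤ (if n.Prime then 1 else 0) ∧
    (if n.Prime then 1 else 0) - LossF cf b F y δ n ≤
      Phi2 b (lam2 cf F y) n - 2 ^ 40 * Gd2 b y (65 * F) (fun τ => PhiN cf F y τ / 2 ^ 40) n := by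
  have hF : 0 < F := lt_of_le_of_lt (Nat.zero_le _) hδ
  have hL := lossF_nonneg cf b F y δ n
  rw [yRule_Phi2 cf F y b hn]
  by_cases hp : n.Prime
  · rw [if_pos hp]
    have ht := typ_prime b hp
    generalize ⌊Real.log n / b⌋₊ = a at ht
    rw [ht, Multiset.sum_singleton] at h1
    have hG : ¬ Good y (65 * F) (ty b n) := by
      rintro ⟨t, h3, h5, h6⟩
      rw [ht, Multiset.le_singleton] at h3
      rcases h3 with rfl | rfl
      · simp at h5; omega
      · simp at h6; omega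
    have h3 : 119 ≤ a / F := (Nat.le_div_iff_mul_le hF).2 (by omega)
    have h4 : cf [a / F] = 0 := by
      by_contra h
      obtain ⟨p, hp, h5, h6⟩ := hT.adm _ (List.pairwise_singleton _ _) h
      simp only [splits, List.map_cons, List.map_nil, List.cons_append, List.nil_append,
        List.mem_cons, List.not_mem_nil, or_false] at hp
      rcases hp with rfl | rfl <;> simp at h5 h6 <;> omega
    rw [Gd2, if_neg hG, yRule_big hT hF hG (by rw [ht]; simp; omega), ht, Multiset.sort_singleton]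
    constructor <;> simp [PhiC, splits, h4, hT.nil, hL]
  rw [if_neg hp]
  by_cases hG : Good y (65 * F) (ty b n)
  · rw [rm_Gd2 b _ hn hG, mul_div_cancel₀ _ (by positivity), sub_self]
    exact ⟨le_rfl, by linarith⟩
  rw [Gd2, if_neg hG, mul_zero, sub_zero]
  by_cases hs : ∃ e ∈ ty b n, e < 10 * F
  · obtain ⟨e, he, he'⟩ := hs
    obtain ⟨σ, hσ⟩ := Multiset.exists_cons_of_mem he
    rw [hσ] at hG ⊢
    rw [yRule_small cf hG he' (by omega)]
    exact ⟨le_rfl, by linarith⟩
  push Not at hs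
  have hk : 2 ≤ (ty b n).card := by
    by_contra hk
    rcases (by omega : (ty b n).card = 0 ∨ (ty b n).card = 1) with h0 | h0
    · rw [Multiset.card_eq_zero.1 h0, Multiset.sum_zero] at h1
      omega
    · rw [typ_card, ← ArithmeticFunction.cardFactors_apply,
        ArithmeticFunction.cardFactors_eq_one_iff_prime] at h0
      exact hp h0
  have hB : BadT F y δ (ty b n) := ⟨hG, hk, hs, h1, h2⟩
  rw [yRule_big hT hF hG hs, LossF, if_pos ⟨hn, hB⟩]
  refine ⟨hT.neg _ hk _ (mem_Boxes.2 ⟨by rw [List.length_map, Multiset.length_sort],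
    alive_of_hyp (hyp_of_bad hδ hy hyδ hB)⟩), ?_⟩
  linarith [le_max_right 0 (-PhiC cf (((ty b n).sort (· ≤ ·)).map (· / F)))]

end Pool.Agent.Work.MP_82fd4a_nt.Y
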