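import Pool.Agent.Work.MP_82fd4a_nt.Z.Geom
import Pool.Agent.Work.MP_82fd4a_nt.Y.Rule

/-! The choice of the thresholds, and the pointwise inequalities of the third decomposition. -/

set_option autoImplicit false
open Filter Topology Finset

namespace Pool.Agent.Work.MP_82fd4a_nt.Y

open Pool.Agent.Work.MP_82fd4a_nt.Z

/-- the numerical data -/
structure Num3 (x Y K J k B y δ : ℕ) (η μ Λ b : ℝ) : Prop where
  x1 : 1 ≤ x
  Y1 : 1 ≤ Y
  l1 : Real.log x / 2 - μ * Real.log x / 10 ≤ Real.log Y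
  l2 : Real.log Y ≤ Real.log x / 2
  K1 : 1 ≤ K
  B1 : 1 ≤ B
  η0 : 0 < η
  η1 : η ≤ 1 / 100
  μ1 : μ ≤ 1 / 100
  kη : 2 ≤ k * η
  big : 1000 ≤ μ * Real.log x
  b0 : 0 < b
  kb : (k + 1) * b ≤ Λ / 100
  K2 : 2 * (K * Λ) + 3 * Λ ≤ μ * Real.log x / 10
  K3 : 2 * (K * Λ) + 3 * Λ ≤ Real.log x / 30000
  J1 : J * (Λ / 2) ≤ Real.log x / 13 + μ * Real.log x / 2
  J2 : Real.log x / 13 + μ * Real.log x / 2 ≤ J * (Λ / 2) + Λ / 2
  u : 30720 * (B * b) = Real.log x - K * Λ - J * (Λ / 2)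
  y1 : Real.log Y - J * (Λ / 2) ≤ y * b
  y2 : y * b ≤ Real.log Y - J * (Λ / 2) + b
  δ1 : K * Λ + Λ / 4 + 1 + k * b ≤ δ * b
  δ2 : δ * b ≤ K * Λ + Λ / 4 + 1 + k * b + b

namespace Num3

variable {x Y K J k B y δ : ℕ} {cf : List ℕ → ℝ} {η μ Λ b : ℝ} (H : Num3 x Y K J k B y δ η μ Λ b)
include H

lemma x0 : (0 : ℝ) < x := by exact_mod_cast H.x1

lemma L0 : 0 ≤ Real.log x := Real.log_nonneg (by exact_mod_cast H.x1)

lemma kb0 : 0 ≤ (k : ℝ) * b := mul_nonneg (Nat.cast_nonneg k) H.b0.le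

lemma kb1 : (k : ℝ) * b + b ≤ Λ / 100 := by linarith [H.kb]

lemma Λ0 : 0 < Λ := by linarith [H.kb0, H.kb1, H.b0]

lemma ΛK : Λ ≤ K * Λ := le_mul_of_one_le_left H.Λ0.le (by exact_mod_cast H.K1)

lemma μL : μ * Real.log x ≤ Real.log x / 100 := by
  linarith [mul_le_mul_of_nonneg_right H.μ1 H.L0]

lemma F0 : 0 < 256 * B := by have := H.B1; omega

lemma y0 : 0 < y := nat_lt_of_mul H.b0 (by
  push_cast
  linarith [H.y1, H.l1, H.J1, H.μL, H.big])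

lemma δB : δ ≤ B := nat_le_of_mul H.b0 (by
  linarith [H.δ2, H.kb1, H.K3, H.u, H.J1, H.μL, H.big, H.Λ0])

lemma δF : δ < 256 * B := by have := H.B1; have := H.δB; omega

lemma yδ : y + 2 * δ ≤ 55 * (256 * B) := nat_le_of_mul H.b0 (by
  push_cast
  linarith [H.δ2, H.y2, H.kb1, H.K2, H.u, H.J2, H.big, H.Λ0, H.kb0, H.b0, H.ΛK,
    H.l2])

lemma y55 : y ≤ 55 * (256 * B) := by have := H.yδ; omega

lemma u1 : Real.log x / 140 ≤ 256 * B * b := by linarith [H.u, H.J1, H.μL, H.K3, H.L0, H.Λ0]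

lemma u2 : 256 * B * b ≤ Real.log x / 120 := by linarith [H.u, H.J2, H.ΛK, H.L0, H.Λ0, H.big]

lemma card_le {n : ℕ} (hn : n ∈ Icc 1 (2 * x)) (h : Rough ((x : ℝ) ^ η) n) :
    (ty b n).card ≤ k := by
  obtain ⟨h1, h2⟩ := mem_Icc.1 hn
  have x1 : (1 : ℝ) ≤ x := by exact_mod_cast H.x1
  have h3 := card_ty_le b (Real.one_le_rpow x1 H.η0.le) (by omega) h
  rw [Real.log_rpow H.x0] at h3
  have h4 : Real.log n ≤ Real.log (2 * x) :=
    Real.log_le_log (by exact_mod_cast h1) (by exact_mod_cast h2)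
  rw [Real.log_mul (by norm_num) H.x0.ne'] at h4
  have hL : 1 ≤ Real.log x := by linarith [H.big, H.μL]
  refine nat_le_of_mul (b := η * Real.log x) (mul_pos H.η0 (by linarith)) ?_
  have h5 := mul_le_mul_of_nonneg_right H.kη H.L0
  linarith [log_two_le]

lemma log_le {n : ℕ} (h : (ty b n).card ≤ k) : Real.log n ≤ (ty b n).sum * b + k * b := by
  have h1 := log_le_ty H.b0 n
  have h2 : ((ty b n).card : ℝ) * b ≤ k * b :=
    mul_le_mul_of_nonneg_right (by exact_mod_cast h) H.b0.le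
  linarith

lemma cover {n : ℕ} (hn : n ∈ Icc 1 (2 * x)) (h : Rough ((x : ℝ) ^ η) n) :
    ty b n ∈ (k • (range (71680 * B)).val).powerset.toFinset := by
  rw [Multiset.mem_toFinset, Multiset.mem_powerset]
  refine ty_le H.b0 (H.card_le hn h) ?_
  have c4 : Real.log n ≤ Real.log (2 * x) :=
    Real.log_le_log (by exact_mod_cast (mem_Icc.1 hn).1) (by exact_mod_cast (mem_Icc.1 hn).2)
  rw [Real.log_mul (by norm_num) H.x0.ne'] at c4
  push_cast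
  linarith [log_two_le, H.u1, H.big, H.μL]

lemma log_m {s : ℕ} (hs : 1 ≤ s ∧ Real.log s ≤ Λ / 8) {π : Ix K J → ℕ} (hπ : π ∈ tup K J Λ) :
    K * Λ + J * (Λ / 2) ≤ Real.log ((s * ∏ i, π i : ℕ) : ℝ) ∧
      Real.log ((s * ∏ i, π i : ℕ) : ℝ) ≤ 2 * (K * Λ) + J * (Λ / 2) + Λ / 4 := by
  have h1 := log_prod_tup H.K1 H.Λ0.le hπ
  have h2 : (0 : ℝ) < s := by exact_mod_cast hs.1
  have h3 : (0 : ℝ) < ((∏ i, π i : ℕ) : ℝ) := by exact_mod_cast prod_pos_of_mem_tup hπ _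
  rw [Nat.cast_mul, Real.log_mul h2.ne' h3.ne']
  have h4 := Real.log_natCast_nonneg s
  constructor <;> linarith [h1.1, h1.2, hs.2, H.Λ0]

lemma sized {S : Finset ℕ} (hS : ∀ s ∈ S, 1 ≤ s ∧ Real.log s ≤ Λ / 8) : Sized3 x K J Λ S := by
  intro s hs π hπ
  have h1 := H.log_m (hS s hs) hπ
  have h2 : (0 : ℝ) < ((s * ∏ i, π i : ℕ) : ℝ) := by
    exact_mod_cast Nat.mul_pos (hS s hs).1 (prod_pos_of_mem_tup hπ _)
  exact ⟨rpow_le_of_log H.x0 h2 (by linarith [h1.1, H.J2, H.ΛK, H.Λ0, H.big, H.L0]),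
    le_rpow_of_log H.x0 h2 (by linarith [h1.2, H.J1, H.K2, H.μL, H.Λ0, H.L0])⟩

lemma level (hT : Tab cf) (d₁ : ℕ) (_ : d₁ ∈ Icc 1 (2 * x)) (d₂ : ℕ) (hd : d₂ ∈ Icc 1 (2 * x))
    (_ : Rough ((x : ℝ) ^ η) d₁) (h : Rough ((x : ℝ) ^ η) d₂)
    (h1 : lam2 cf (256 * B) y (ty b d₁) (ty b d₂) ≠ 0) :
    Real.log d₁ + 2 * K * Λ + 2 * Λ ≤ (1 / 8 - 1 / 600) * Real.log x ∧
      Real.log d₂ + J * (Λ / 2) ≤ Real.log x / 2 + Λ / 8 := by
  obtain ⟨a1, a2⟩ := lam2_supp hT H.F0 h1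
  have h2 := H.log_le (H.card_le hd h)
  have h3 : (((ty b d₂).sum : ℝ) + 1) * b ≤ y * b :=
    mul_le_mul_of_nonneg_right (by exact_mod_cast a2) H.b0.le
  have h4 := log_le_ty H.b0 d₁
  have h5 : (((ty b d₁).sum : ℝ) + (ty b d₁).card) * b ≤ 16 * (256 * B) * b :=
    mul_le_mul_of_nonneg_right (by exact_mod_cast a1) H.b0.le
  constructor
  · linarith [H.u, H.J2, H.K2, H.K3, H.Λ0, H.ΛK, H.big]
  · linarith [H.y2, H.kb1, H.Λ0, H.b0, H.l2]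

lemma log_n {s : ℕ} (hs : 1 ≤ s ∧ Real.log s ≤ Λ / 8) {π : Ix K J → ℕ} (hπ : π ∈ tup K J Λ)
    {n : ℕ} (h1 : x < 2 * (s * (∏ i, π i) * n)) :
    30720 * (B * b) - K * Λ - Λ / 4 - 1 ≤ Real.log n := by
  have h2 := (H.log_m hs hπ).2
  have m0 : (0 : ℝ) < ((s * ∏ i, π i : ℕ) : ℝ) := by
    exact_mod_cast Nat.mul_pos hs.1 (prod_pos_of_mem_tup hπ _)
  have n0 : (0 : ℝ) < n := by
    rcases Nat.eq_zero_or_pos n with rfl | h
    · simp at h1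
    · exact_mod_cast h
  have h3 : (x : ℝ) ≤ 2 * (((s * ∏ i, π i : ℕ) : ℝ) * n) := by exact_mod_cast h1.le
  have h4 := Real.log_le_log H.x0 h3
  rw [Real.log_mul (by norm_num) (by positivity), Real.log_mul m0.ne' n0.ne'] at h4
  linarith [log_two_le, H.u]

lemma log_n' {s : ℕ} (hs : 1 ≤ s ∧ Real.log s ≤ Λ / 8) {π : Ix K J → ℕ} (hπ : π ∈ tup K J Λ)
    {n : ℕ} (hn : 1 ≤ n) (h1 : s * (∏ i, π i) * n ≤ 2 * x) :
    Real.log n ≤ 30720 * (B * b) + 1 := by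
  have h2 := (H.log_m hs hπ).1
  have m0 : (0 : ℝ) < ((s * ∏ i, π i : ℕ) : ℝ) := by
    exact_mod_cast Nat.mul_pos hs.1 (prod_pos_of_mem_tup hπ _)
  have n0 : (0 : ℝ) < n := by exact_mod_cast hn
  have h3 : ((s * ∏ i, π i : ℕ) : ℝ) * n ≤ 2 * x := by exact_mod_cast h1
  have h4 := Real.log_le_log (by positivity) h3
  rw [Real.log_mul m0.ne' n0.ne', Real.log_mul (by norm_num) H.x0.ne'] at h4
  linarith [log_two_le, H.u]

lemma low {t : ℝ} (h : 30720 * (B * b) - K * Λ - Λ / 4 - 1 ≤ t) :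
    (12 / 13 - μ) * Real.log x < t := by linarith [H.u, H.J1, H.K2, H.Λ0, H.big]

/-- the two pointwise inequalities -/
lemma point (hT : Tab cf) {n : ℕ} (hn : n ∈ Icc 1 (2 * x))
    (h1 : 30720 * (B * b) - K * Λ - Λ / 4 - 1 ≤ Real.log n)
    (h2 : Real.log n ≤ 30720 * (B * b) + 1) :
    rf ((x : ℝ) ^ η) n * Phi2 b (lam2 cf (256 * B) y) n + (-2 ^ 40) * (rf ((x : ℝ) ^ η) n *
        Gd2 b y (65 * (256 * B)) (fun τ => PhiN cf (256 * B) y τ / 2 ^ 40) n) ≤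
      (if n.Prime then 1 else 0)
        + 2 ^ 41 * 4 ^ k * (if Squarefree n then 0 else rf ((x : ℝ) ^ η) n) ∧
    ((if n.Prime then 1 else 0) - LossF cf b (256 * B) y δ n) ≤
      (rf ((x : ℝ) ^ η) n * Phi2 b (lam2 cf (256 * B) y) n + (-2 ^ 40) * (rf ((x : ℝ) ^ η) n *
        Gd2 b y (65 * (256 * B)) (fun τ => PhiN cf (256 * B) y τ / 2 ^ 40) n))
        + 2 ^ 41 * 4 ^ k * (if Squarefree n then 0 else rf ((x : ℝ) ^ η) n) := by
  have n0 : (0 : ℝ) < n := by exact_mod_cast (mem_Icc.1 hn).1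
  have t0 := lossF_nonneg cf b (256 * B) y δ n
  by_cases hr : Rough ((x : ℝ) ^ η) n
  swap
  · have hp : ¬ n.Prime := fun hp => hr fun q hq hqn => by
      rw [(Nat.prime_dvd_prime_iff_eq hq hp).1 hqn]
      refine rpow_lt_of_log H.x0 n0 ?_
      linarith [mul_le_mul_of_nonneg_right H.η1 H.L0, H.low h1, H.μL, H.L0]
    simp only [rf, if_neg hr, if_neg hp, ite_self]
    constructor <;> linarith
  have hc := H.card_le hn hr
  simp only [rf, if_pos hr, one_mul]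
  by_cases hq : Squarefree n
  swap
  · have hp : ¬ n.Prime := fun hp => hq hp.prime.squarefree
    have a0 : (2 : ℝ) ^ (ty b n).card ≤ 4 ^ k := (pow_le_pow_right₀ (by norm_num) hc).trans
      (pow_le_pow_left₀ (by norm_num) (by norm_num : (2 : ℝ) ≤ 4) k)
    have a1 := abs_le.1 ((abs_Phi2_le (sum_lam2_le hT (256 * B) y b) n).trans
      (mul_le_mul_of_nonneg_left a0 (by positivity)))
    have a2 := abs_le.1 ((abs_Gd2_le b y (65 * (256 * B)) (abs_PhiN_le hT (256 * B) y) n).trans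
      (pow_le_pow_right₀ (by norm_num) hc))
    simp only [if_neg hq, if_neg hp]
    constructor <;> linarith [a1.1, a1.2, a2.1, a2.2]
  simp only [if_pos hq]
  have s1 := ty_sum_le H.b0 n
  have s2 := H.log_le hc
  obtain ⟨c1, c2⟩ := point3 hT b hq H.δF H.y0 H.yδ
    (nat_le_of_mul H.b0 (by rw [Nat.cast_add]; push_cast [-Nat.cast_multiset_sum]; linarith [H.δ1]))
    (nat_le_of_mul H.b0 (by
      rw [Nat.cast_add]; push_cast [-Nat.cast_multiset_sum]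
      linarith [H.δ1, H.kb0, H.Λ0, H.ΛK]))
  constructor <;> linarith

lemma sel_bounds {τ : Multiset ℕ} (h : Good y (65 * (256 * B)) τ) :
    Real.log Y - J * (Λ / 2) ≤ (sel y (65 * (256 * B)) τ).sum * b ∧
      (sel y (65 * (256 * B)) τ).sum * b ≤ Real.log Y - 11 * Λ / 8 := by
  obtain ⟨_, h1, h2⟩ := sel_spec h
  have h3 : ((sel y (65 * (256 * B)) τ).sum : ℝ) * b ≤ 65 * (256 * B) * b :=
    mul_le_mul_of_nonneg_right (by exact_mod_cast h2) H.b0.le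
  exact ⟨H.y1.trans (mul_le_mul_of_nonneg_right (by exact_mod_cast h1) H.b0.le),
    by linarith [H.u, H.J2, H.K2, H.ΛK, H.Λ0, H.big, H.l1]⟩

lemma types {τ : Multiset ℕ} (h : Good y (65 * (256 * B)) τ) (h1 : 4 * Real.log x / 5 ≤ τ.sum * b) :
    jy Y y (65 * (256 * B)) Λ b τ ≤ J ∧
      Dt x ((x : ℝ) ^ η) b (sel y (65 * (256 * B)) τ) ⊆ D0 x ((x : ℝ) ^ η) ∧
      Dt x ((x : ℝ) ^ η) b (τ - sel y (65 * (256 * B)) τ) ⊆ D0 x ((x : ℝ) ^ η) := by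
  obtain ⟨a1, a2⟩ := H.sel_bounds h
  have l1 := H.l1
  have l2 := H.l2
  have hΛ := H.Λ0
  have key : ∀ t : Multiset ℕ, 3 / 10 * Real.log x ≤ t.sum * b →
      Dt x ((x : ℝ) ^ η) b t ⊆ D0 x ((x : ℝ) ^ η) := by
    intro t ht d hd
    obtain ⟨d1, d2, d3⟩ := mem_filter.1 hd
    refine mem_filter.2 ⟨d1, d2, rpow_le_of_log H.x0 (by exact_mod_cast (mem_Icc.1 d1).1) ?_⟩
    have := ty_sum_le H.b0 d
    rw [d3] at this
    linarith
  refine ⟨?_, key _ (by linarith [H.J1, H.μL, H.big]), key _ ?_⟩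
  · refine Nat.floor_le_of_le ?_
    rw [div_le_iff₀ (by linarith)]
    linarith
  · have e : ((τ - sel y (65 * (256 * B)) τ).sum : ℝ) + (sel y (65 * (256 * B)) τ).sum = τ.sum := by
      rw [← Nat.cast_add, ← Multiset.sum_add, tsub_add_cancel_of_le (sel_spec h).1]
    rw [← e] at h1
    linarith

lemma window {π : Ix K J → ℕ} (hπ : π ∈ tup K J Λ) {τ : Multiset ℕ}
    (h : Good y (65 * (256 * B)) τ) (hJ : jy Y y (65 * (256 * B)) Λ b τ ≤ J) {d : ℕ}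
    (hd : d ∈ Dt x ((x : ℝ) ^ η) b (sel y (65 * (256 * B)) τ)) :
    5 * Λ / 4 ≤ Real.log ((Y : ℝ) /
      ((d * ∏ t ∈ coarse K J (jy Y y (65 * (256 * B)) Λ b τ), π t : ℕ) : ℝ)) ∧
    Real.log ((Y : ℝ) /
      ((d * ∏ t ∈ coarse K J (jy Y y (65 * (256 * B)) Λ b τ), π t : ℕ) : ℝ)) ≤ 15 * Λ / 8 := by
  obtain ⟨a1, a2⟩ := H.sel_bounds h
  generalize 65 * (256 * B) = y' at *
  obtain ⟨d1, d2, d3⟩ := mem_filter.1 hd
  have hΛ := H.Λ0
  have b1 := ty_sum_le H.b0 d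
  have b2 := H.log_le (H.card_le d1 d2)
  rw [d3] at b1 b2
  obtain ⟨c1, c2⟩ := log_prod_coarse hJ hΛ.le hπ
  have d0 : (0 : ℝ) < d := by exact_mod_cast (mem_Icc.1 d1).1
  have p0 : (0 : ℝ) < ((∏ t ∈ coarse K J (jy Y y y' Λ b τ), π t : ℕ) : ℝ) := by
    exact_mod_cast prod_pos_of_mem_tup hπ _
  have s0 : (0 : ℝ) < Y := by exact_mod_cast H.Y1
  have f0 : 0 ≤ (Real.log Y - (sel y y' τ).sum * b - 11 * Λ / 8) / (Λ / 2) :=
    div_nonneg (by linarith) (by linarith)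
  have f1 := (le_div_iff₀ (by linarith)).1 (Nat.floor_le f0)
  have f2 := (div_lt_iff₀ (by linarith)).1 (Nat.lt_floor_add_one
    ((Real.log Y - (sel y y' τ).sum * b - 11 * Λ / 8) / (Λ / 2)))
  rw [Nat.cast_mul, Real.log_div s0.ne' (by positivity), Real.log_mul d0.ne' p0.ne']
  unfold jy at c1 c2 ⊢
  constructor <;> linarith [H.kb1, H.b0]

end Num3

end Pool.Agent.Work.MP_82fd4a_nt.Y
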