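import Pool.Agent.Work.MP_82fd4a_nt.Y.LossB
import Pool.Agent.Work.MP_82fd4a_nt.Y.Rule
import Pool.Agent.Work.MP_82fd4a_nt.LossM
import Pool.Agent.Work.MP_82fd4a_nt.NSumU

/-! The total loss, and the lower bound in long intervals. -/

set_option autoImplicit false
open Filter Topology Finset

namespace Pool.Agent.Work.MP_82fd4a_nt.Y

lemma yLoss_small {F y δ : ℕ} (hδ : δ < F) (hy : 0 < y) (hyδ : y + 2 * δ ≤ 55 * F)
    {s t c p : List ℕ} (h : BadT F y δ (s ++ t : List ℕ)) (hc : ((s ++ t).map (· / F)).Perm c)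
    (hp : (s.map (· / F)).Perm p) (hL : Lo (120 - c.sum) p) : s.sum < y := by
  have h1 : (((s ++ t : List ℕ) : Multiset ℕ).sort (· ≤ ·)).Perm (s ++ t) :=
    Multiset.coe_eq_coe.1 (Multiset.sort_eq _ _)
  refine box_L (hyp_of_bad hδ hy hyδ h) ((List.sublist_append_left s t).subperm.trans
    h1.symm.subperm) ?_
  rw [((h1.map _).trans hc).sum_eq]
  simpa only [Lo, hp.sum_eq, hp.length_eq] using hL

open Classical in
lemma yLoss_term {x B y δ m : ℕ} {b : ℝ} (hδ : δ ≤ B) {τ : Multiset ℕ}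
    {a₁ n n' : ℕ} (hn : n = n') (hτ : τ.sum = fs b n')
    (h : BadT (256 * B) y δ τ → fs b a₁ < 55 * (256 * B)) :
    (if BadT (256 * B) y δ τ then gk x (Real.log x ^ 2) (m * n) else 0) ≤
      if fs b a₁ < 55 * (256 * B) ∧ 120 * (256 * B) ≤ fs b n' + B ∧ fs b n' ≤ 120 * (256 * B) + B
        then gk x (Real.log x ^ 2) (m * n') else 0 := by
  split_ifs with h1 h2 h2
  · rw [hn]
  · exact absurd ⟨h h1, by linarith [h1.2.2.2.1], by linarith [h1.2.2.2.2]⟩ h2
  · exact gk_nonneg _ _ _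
  · exact le_rfl

open Classical in
lemma yLoss_box : ∀ᶠ x : ℕ in atTop, ∀ (b : ℝ) (B y δ m k : ℕ) (c : List ℕ), 0 < b →
    1 ≤ B → Real.log x / 140 ≤ 256 * B * b → 1 ≤ m → δ ≤ B → 0 < y →
    y + 2 * δ ≤ 55 * (256 * B) → k ≤ 12 → c ∈ Boxes k →
    ∑ n ∈ Icc 1 (2 * x) with Squarefree n ∧
      (n.primeFactorsList.map fun p => fs b p / (256 * B)).Perm c,
        (if BadT (256 * B) y δ (ty b n) then gk x (Real.log x ^ 2) (m * n) else 0)
      ≤ 1015 / 1000 * Gam x (Real.log x ^ 2) / (m * (256 * B * b)) * vol (120 - c.sum) c := by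
  filter_upwards [box_sum3, prime_var3] with x h1 h2 b B y δ m k c hb hB hx hm hδ hy hyδ hk hc
  obtain ⟨hl, hs, h4, hr, hr', hA⟩ := mem_Boxes.1 hc
  obtain ⟨p, hp, hL, hV⟩ := Vm_spec (120 - c.sum) c
  have hpc := splits_perm hp
  have hδ' : δ < 256 * B := by omega
  set F := 256 * B with hF
  set pv : ℕ → Finset ℕ × ℕ × ℝ := fun u => (Prc x b F u, u, 1) with hpv
  have hvar : ∀ u : List ℕ, (∀ w ∈ u, w ∈ c) → ∀ w ∈ u.map pv, Var b B w := fun u hu w hw => by
    obtain ⟨w', hw', rfl⟩ := List.mem_map.1 hw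
    exact h2 b B w' hb hB hx (h4 w' (hu w' hw')).1 (h4 w' (hu w' hw')).2
  have m1 : ∀ u : List ℕ, (u.map pv).map (·.1) = u.map (Prc x b F) := fun u => by
    simp [hpv]
  have m2 : ∀ u : List ℕ, (u.map pv).map (·.2.1) = u := fun u => by
    simp [hpv, Function.comp_def]
  have m3 : ∀ u : List ℕ, ((u.map pv).map (·.2.2)).prod = 1 := fun u => by
    simp [hpv, Function.comp_def]
  set H : ℕ → ℝ := fun n =>
    if BadT F y δ (ty b n) then gk x (Real.log x ^ 2) (m * n) else 0 with hH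
  have hH0 : ∀ n, 0 ≤ H n := fun n => by
    simp only [hH]
    split_ifs
    exacts [gk_nonneg _ _ _, le_rfl]
  have hlen := splits_length hp
  obtain ⟨e, u₂, he⟩ : ∃ e u₂, p.2 = e :: u₂ :=
    List.exists_cons_of_ne_nil fun h => (hA p hp hL).2 (by simp [h, Lo])
  have q2 : (p.1 ++ (u₂ ++ [e])).Perm c := by
    refine List.Perm.trans ?_ hpc
    rw [he]
    exact (List.perm_append_singleton e u₂).append_left _
  have tup : (mf c : ℝ) * ∑ n ∈ Icc 1 (2 * x) with Squarefree n ∧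
        (n.primeFactorsList.map fun p => fs b p / F).Perm c, H n ≤
      psum (p.1.map (Prc x b F)) fun a₁ => psum (u₂.map (Prc x b F))
        fun a₂ => ∑ q ∈ Prc x b F e, H (a₁ * (a₂ * q)) := by
    have := tuple_le (fun p => fs b p / F) (2 * x) (p.1 ++ (u₂ ++ [e])) H hH0
    rw [mf_perm q2, List.map_append, List.map_append, psum_append] at this
    simp only [psum_append, List.map_cons, List.map_nil, psum, mul_one] at this
    refine le_trans (le_of_eq ?_) this
    congr 1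
    exact sum_congr (filter_congr fun n _ => and_congr_right fun _ =>
      ⟨fun h => h.trans q2.symm, fun h => h.trans q2⟩) fun _ _ => rfl
  have key := h1 b B m e _ (p.1.map pv) (u₂.map pv) c hb hB hx hm (by
      rw [← List.map_append]
      exact hvar _ fun w hw => q2.subset (by
        rw [← List.append_assoc]
        exact List.mem_append_left _ hw))
    (fun a ha => (h4 a ha).1) hs (by simpa only [m2] using q2) hr hr' (hl ▸ hk)
  simp only [List.map_append, List.prod_append, m1, m2, m3, mul_one, one_mul,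
    List.length_map] at key
  rw [show u₂.length = c.length - 1 - p.1.length by rw [he, List.length_cons] at hlen; omega,
    ← hV] at key
  have p1 : (0 : ℝ) < mf c := by exact_mod_cast mf_pos _
  refine le_of_mul_le_mul_left (tup.trans (le_trans (psum_mono fun l₁ f₁ =>
    psum_mono fun l₂ f₂ => sum_le_sum fun q hq => ?_) (key.trans (le_of_eq ?_)))) p1
  · obtain ⟨r1, r2⟩ := lossM_prc f₁
    obtain ⟨r3, r4⟩ := lossM_prc f₂
    obtain ⟨-, r5, r6⟩ := mem_filter.1 hq
    refine yLoss_term hδ (by ring) (by rw [mul_assoc]; rfl) fun hb' => ?_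
    have tyq : ty b (l₁.prod * (l₂.prod * q)) =
        (l₁.map (fs b) ++ (l₂.map (fs b) ++ [fs b q]) : List ℕ) := by
      simpa using (lossM_ty b (l := l₁ ++ (l₂ ++ [q])) (by
        simp only [List.mem_append, List.mem_singleton]
        rintro r (hr | hr | rfl)
        exacts [r1 r hr, r3 r hr, r5])).2
    rw [tyq] at hb'
    have := yLoss_small hδ' hy hyδ hb' (c := c) (p := p.1) (by
      simpa only [List.map_append, List.map_cons, List.map_nil, r2, r4, r6] using q2)
      (by rw [r2]) hL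
    rw [← Multiset.sum_coe, ← (lossM_ty b r1).2] at this
    unfold fs
    omega
  · rw [vol]
    field_simp

theorem badSum_few3 : ∀ᶠ x : ℕ in atTop, ∀ (b : ℝ) (B y δ m k : ℕ) (φ : List ℕ → ℝ), 0 < b →
    1 ≤ B → Real.log x / 140 ≤ 256 * B * b → 1 ≤ m → δ ≤ B → 0 < y →
    y + 2 * δ ≤ 55 * (256 * B) → k ≤ 12 → (∀ c, 0 ≤ φ c) →
    badSum x b (256 * B) y δ m k φ ≤ 1015 / 1000 * Gam x (Real.log x ^ 2) / (m * (256 * B * b)) *
      ∑ c ∈ Boxes k, φ c * vol (120 - c.sum) c := by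
  classical
  filter_upwards [yLoss_box] with x h1 b B y δ m k φ hb hB hx hm hδ hy hyδ hk hφ
  set F := 256 * B with hF
  set H : ℕ → ℝ := fun n =>
    if BadT F y δ (ty b n) then gk x (Real.log x ^ 2) (m * n) else 0 with hH
  have hH0 : ∀ n, 0 ≤ H n := fun n => by
    simp only [hH]
    split_ifs
    exacts [gk_nonneg _ _ _, le_rfl]
  calc _ ≤ ∑ n ∈ Icc 1 (2 * x), ∑ c ∈ Boxes k, if Squarefree n ∧
        (n.primeFactorsList.map fun p => fs b p / F).Perm c then φ c * H n else 0 := by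
        refine sum_le_sum fun n hn => ?_
        have h0 : ∀ c ∈ Boxes k, 0 ≤ (if Squarefree n ∧
            (n.primeFactorsList.map fun p => fs b p / F).Perm c then φ c * H n else 0) :=
          fun c _ => by
            split_ifs
            exacts [mul_nonneg (hφ c) (hH0 n), le_rfl]
        split_ifs with h
        · refine le_trans (le_of_eq ?_) (single_le_sum h0
            (a := ((ty b n).sort (· ≤ ·)).map (· / F)) (mem_Boxes.2 ⟨by simp [h.2.2],
              alive_of_hyp (hyp_of_bad (by omega) hy hyδ h.2.1)⟩))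
          have h2 := (lossM_ty b (l := n.primeFactorsList)
            fun q => Nat.prime_of_mem_primeFactorsList).2
          rw [Nat.prod_primeFactorsList (by have := (mem_Icc.1 hn).1; omega)] at h2
          have h3 : (n.primeFactorsList.map fun p => fs b p / F).Perm
              (((ty b n).sort (· ≤ ·)).map (· / F)) := by
            have : (n.primeFactorsList.map (fs b)).Perm ((ty b n).sort (· ≤ ·)) := by
              rw [← Multiset.coe_eq_coe, Multiset.sort_eq, h2]
            simpa only [List.map_map, Function.comp_def] using this.map (· / F)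
          rw [if_pos ⟨h.1, h3⟩]
          simp only [hH, if_pos h.2.1]
        · exact sum_nonneg h0
    _ ≤ _ := by
        rw [sum_comm, mul_sum]
        refine sum_le_sum fun c hc => ?_
        rw [← sum_filter, ← mul_sum, mul_left_comm]
        exact mul_le_mul_of_nonneg_left (h1 b B y δ m k c hb hB hx hm hδ hy hyδ hk hc) (hφ c)

lemma yLoss_split (cf : List ℕ → ℝ) (x : ℕ) (b : ℝ) {F y δ : ℕ} (m : ℕ) (hδ : δ < F) :
    ∑ n ∈ Icc 1 (2 * x), LossF cf b F y δ n * gk x (Real.log x ^ 2) (m * n)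
      ≤ ∑ k ∈ Icc 2 12, badSum x b F y δ m k fun c => max 0 (-PhiC cf c) := by
  classical
  unfold badSum
  rw [sum_comm]
  refine sum_le_sum fun n _ => ?_
  have h0 : ∀ k ∈ Icc 2 12, 0 ≤ if Squarefree n ∧ BadT F y δ (ty b n) ∧ (ty b n).card = k then
      max 0 (-PhiC cf (((ty b n).sort (· ≤ ·)).map (· / F))) * gk x (Real.log x ^ 2) (m * n)
      else 0 := fun k _ => by
    split_ifs
    · exact mul_nonneg (le_max_left _ _) (gk_nonneg _ _ _)
    · exact le_rfl
  unfold LossF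
  split_ifs with h
  · refine le_trans ?_ (single_le_sum h0 (bad_card hδ h.2))
    rw [if_pos ⟨h.1, h.2, rfl⟩]
  · rw [zero_mul]
    exact sum_nonneg h0

theorem loss_sum3 {cf : List ℕ → ℝ} (hT : Tab cf) : ∀ᶠ x : ℕ in atTop,
    ∀ (b : ℝ) (B y δ m : ℕ), 0 < b → 1 ≤ B → Real.log x / 140 ≤ 256 * B * b → 1 ≤ m → δ ≤ B →
    0 < y → y + 2 * δ ≤ 55 * (256 * B) →
    ∑ n ∈ Icc 1 (2 * x), LossF cf b (256 * B) y δ n * gk x (Real.log x ^ 2) (m * n)
      ≤ 96 / 100 * Gam x (Real.log x ^ 2) / (m * (120 * (256 * B * b))) := by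
  filter_upwards [badSum_few3] with x H1 b B y δ m hb hB hL hm hδ hy hyδ
  refine (yLoss_split cf x b m (by omega)).trans ?_
  have hG : 0 ≤ Gam x (Real.log x ^ 2) := sum_nonneg fun n _ => gk_nonneg _ _ _
  obtain ⟨U, hU⟩ : ∃ U, U = Gam x (Real.log x ^ 2) / (m * (256 * B * b)) := ⟨_, rfl⟩
  have hU0 : 0 ≤ U := by rw [hU]; positivity
  simp only [mul_div_assoc] at H1
  have a1 : ∑ k ∈ Icc 2 12, badSum x b (256 * B) y δ m k (fun c => max 0 (-PhiC cf c)) ≤
      1015 / 1000 * U *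
        ∑ k ∈ Icc 2 12, ∑ c ∈ Boxes k, max 0 (-PhiC cf c) * vol (120 - c.sum) c := by
    rw [mul_sum]
    refine sum_le_sum fun k hk => ?_
    rw [hU]
    exact H1 b B y δ m k _ hb hB hL hm hδ hy hyδ (mem_Icc.1 hk).2 fun c => le_max_left _ _
  have e : 96 / 100 * Gam x (Real.log x ^ 2) / (m * (120 * (256 * B * b))) = 8 / 1000 * U := by
    rw [hU]
    ring
  rw [e]
  have c1 := mul_le_mul_of_nonneg_left hT.loss hU0
  linarith

theorem sum_long3 {cf : List ℕ → ℝ} (hT : Tab cf) : ∀ᶠ x : ℕ in atTop,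
    ∀ (K J : ℕ) (Λ b : ℝ) (B y δ : ℕ) (S : Finset ℕ),
    Sized3 x K J Λ S → 0 < b → 1 ≤ B → Real.log x / 140 ≤ 256 * B * b →
    256 * B * b ≤ Real.log x / 120 → δ ≤ B → 0 < y → y + 2 * δ ≤ 55 * (256 * B) →
    (∀ s ∈ S, ∀ π ∈ tup K J Λ,
      Real.log x ≤ Real.log ((s * ∏ i, π i : ℕ) : ℝ) + 120 * (256 * B * b)) →
    Gam x (Real.log x ^ 2) * WW K J Λ S tau / (30 * Real.log x) ≤
      SS x (Real.log x ^ 2) K J Λ S tau
        (fun n => (if n.Prime then 1 else 0) - LossF cf b (256 * B) y δ n) := by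
  filter_upwards [loss_sum3 hT, prime_gk2 (ε := 1 / 1000) (by norm_num),
    Lib.ANT.PNTError.tendsto_log.eventually_ge_atTop 1200, eventually_ge_atTop 1]
    with x H1 H2 hx hx1 K J Λ b B y δ S hS hb hB hL hL' hδ hy hyδ hlog
  have hG : 0 ≤ Gam x (Real.log x ^ 2) := sum_nonneg fun n _ => gk_nonneg _ _ _
  have hx0 : (1 : ℝ) ≤ x := by exact_mod_cast hx1
  rw [su_SS_eq, su_WW_eq, mul_sum, sum_div]
  refine sum_le_sum fun s hs => ?_
  rw [mul_sum, sum_div]
  refine sum_le_sum fun π hπ => ?_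
  obtain ⟨h1, h2⟩ := hS s hs π hπ
  have h3 := hlog s hs π hπ
  have hm := su2_pos hx1 h1
  generalize s * ∏ i, π i = m at h1 h2 h3 hm
  have hm0 : (0 : ℝ) < m := by exact_mod_cast hm
  have a1 := H1 b B y δ m hb hB hL hm hδ hy hyδ
  have a2 := (abs_le.1 (H2 m hm (h2.trans
    (Real.rpow_le_rpow_of_exponent_le hx0 (by norm_num))))).1
  obtain ⟨v, hv⟩ : ∃ v, v = 120 * (256 * B * b) := ⟨_, rfl⟩
  rw [← hv] at a1 h3
  have v1 : 1000 ≤ v := by linarith
  have v2 : v ≤ Real.log x := by linarith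
  have a3 : ∑ n ∈ Icc 1 (2 * x), (if n.Prime then Real.log n else 0) * gk x (Real.log x ^ 2) (m * n)
      ≤ 1001 / 1000 * v *
        ∑ n ∈ Icc 1 (2 * x), (if n.Prime then 1 else 0) * gk x (Real.log x ^ 2) (m * n) := by
    rw [mul_sum]
    refine sum_le_sum fun n _ => ?_
    split_ifs with hp
    · by_cases h0 : gk x (Real.log x ^ 2) (m * n) = 0
      · simp [h0]
      rw [one_mul]
      refine mul_le_mul_of_nonneg_right ?_ (gk_nonneg _ _ _)
      have hn0 : (0 : ℝ) < n := by exact_mod_cast hp.pos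
      have b1 : (m : ℝ) * n ≤ 2 * x := by exact_mod_cast (gk_ne_zero h0).2
      have b2 := Real.log_le_log (by positivity) b1
      rw [Real.log_mul hm0.ne' hn0.ne', Real.log_mul two_ne_zero (by linarith)] at b2
      have b3 := Real.log_two_lt_d9
      linarith
    · simp
  simp only [sub_mul, sum_sub_distrib]
  obtain ⟨W, hW⟩ : ∃ W, W = Gam x (Real.log x ^ 2) / m := ⟨_, rfl⟩
  have hW0 : 0 ≤ W := by rw [hW]; positivity
  have e1 : 96 / 100 * Gam x (Real.log x ^ 2) / (m * v) = 96 / 100 * (W / v) := by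
    rw [hW]; ring
  have e2 : Gam x (Real.log x ^ 2) * (tau s * (m : ℝ)⁻¹) / (30 * Real.log x) =
      tau s * (1 / 30 * (W / Real.log x)) := by
    rw [hW]; ring
  rw [e1] at a1
  rw [← hW] at a2
  rw [e2]
  refine mul_le_mul_of_nonneg_left ?_ (tau_nonneg s)
  have a4 : W / Real.log x ≤ W / v := div_le_div_of_nonneg_left hW0 (by linarith) v2
  have a5 : 998 / 1000 * (W / v) ≤
      ∑ n ∈ Icc 1 (2 * x), (if n.Prime then 1 else 0) * gk x (Real.log x ^ 2) (m * n) := by
    rw [← mul_div_assoc, div_le_iff₀ (by linarith)]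
    linarith
  have a6 : 0 ≤ W / v := by positivity
  linarith

end Pool.Agent.Work.MP_82fd4a_nt.Y
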