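import Pool.Agent.Work.MP_82fd4a_nt.Y.Defs
import Pool.Agent.Work.MP_82fd4a_nt.LossB

/-! The mass of a box. -/

set_option autoImplicit false
open Filter Topology Finset

namespace Pool.Agent.Work.MP_82fd4a_nt.Y

theorem pend_le_prod3 {r : ℕ} {c : List ℕ} (hc : c.Pairwise (· ≤ ·)) (h4 : ∀ a ∈ c, 10 ≤ a)
    (hr : r ≤ c.length) (l : List (ℕ × ℕ)) (hp : (l.map Prod.fst).Perm c)
    (h : ∀ p ∈ l, 256 * p.1 ≤ p.2 ∧ p.2 ≤ 256 * (p.1 + 1))
    (hs : 256 * (c.sum + r) ≤ (l.map Prod.snd).sum + 12) :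
    (256 : ℝ) ^ c.length * pend r c ≤ 101 / 100 * ((l.map Prod.snd).prod : ℕ) := by
  obtain ⟨s, s4, s1, s2⟩ : ∃ s : ℕ, 10 ≤ s ∧ (∀ a ∈ c.take (c.length - r), a ≤ s) ∧
      ∀ a ∈ c.drop (c.length - r), s ≤ a := by
    rw [← List.take_append_drop (c.length - r) c, List.pairwise_append] at hc
    exact ⟨max 10 ((c.take (c.length - r)).toFinset.sup id), le_max_left _ _,
      fun a ha => le_max_of_le_right (le_sup (f := id) (List.mem_toFinset.2 ha)),
      fun a ha => max_le (h4 a (List.mem_of_mem_drop ha))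
        (Finset.sup_le fun b hb => hc.2.2 b (List.mem_toFinset.1 hb) a ha)⟩
  have s4' : (10 : ℝ) ≤ s := by exact_mod_cast s4
  have hq : (1 : ℝ) ≤ (s + 1) / s := by rw [le_div_iff₀ (by linarith)]; linarith
  set g := Real.log ((s + 1) / s) with hg
  have e1 : Real.exp g = (s + 1) / s := Real.exp_log (by linarith)
  have e2 : Real.exp (-g) = s / (s + 1) := by rw [Real.exp_neg, e1, inv_div]
  have g0 : 0 ≤ g := Real.log_nonneg hq
  have g1 : g ≤ 1 / 10 := by
    refine (Real.log_le_sub_one_of_pos (by linarith)).trans ?_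
    rw [sub_le_iff_le_add, div_le_iff₀ (by linarith)]
    linarith
  let m : ℕ → ℝ := fun a => if a ≤ s then a else (a + 1) * Real.exp (-g)
  have m0 : ∀ a, 0 ≤ m a := fun a => by
    simp only [m]
    split_ifs <;> positivity
  have h1 := LossT_prod g m m0 l fun p hp => by
    obtain ⟨a1, a2⟩ := h p hp
    have a1' : 256 * (p.1 : ℝ) ≤ p.2 := by exact_mod_cast a1
    have a2' : (p.2 : ℝ) ≤ 256 * (p.1 + 1) := by exact_mod_cast a2
    have a0 : (0 : ℝ) ≤ p.1 := Nat.cast_nonneg _
    have f0 : 0 ≤ (p.2 : ℝ) / 256 - p.1 := by linarith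
    have f1 : (p.2 : ℝ) / 256 - p.1 ≤ 1 := by linarith
    have e3 : (p.2 : ℝ) = 256 * (p.1 + ((p.2 : ℝ) / 256 - p.1)) := by ring
    generalize (p.2 : ℝ) / 256 - p.1 = f at *
    rw [e3, mul_assoc]
    refine mul_le_mul_of_nonneg_left ?_ (by norm_num)
    simp only [m]
    split_ifs with h5
    · have h6 : (p.1 : ℝ) ≤ s := by exact_mod_cast h5
      have h7 : p.1 * Real.exp g ≤ p.1 + 1 := by
        rw [e1, ← mul_div_assoc, div_le_iff₀ (by linarith)]
        linarith
      have := mul_le_mul_of_nonneg_left (LossT_conv g f0 f1) a0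
      nlinarith
    · have h6 : (s : ℝ) ≤ p.1 := by exact_mod_cast (not_le.1 h5).le
      have h7 : (p.1 + 1) * Real.exp (-g) ≤ p.1 := by
        rw [e2, ← mul_div_assoc, div_le_iff₀ (by linarith)]
        linarith
      have := mul_le_mul_of_nonneg_left
        (LossT_conv (-g) (f := 1 - f) (by linarith) (by linarith)) (by linarith : 0 ≤ (p.1 : ℝ) + 1)
      rw [mul_assoc, ← Real.exp_add, show -g + g * f = -g * (1 - f) by ring]
      nlinarith
  rw [(hp.map m).prod_eq, hp.sum_eq, ← List.length_map (f := Prod.fst), hp.length_eq] at h1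
  have h2 : (pend r c : ℝ) * Real.exp (-g) ^ r ≤ (c.map m).prod := by
    have e3 : ((c.take (c.length - r)).map m).prod = ((c.take (c.length - r)).prod : ℕ) := by
      rw [Nat.cast_list_prod]
      exact congrArg List.prod (List.map_congr_left fun a ha => if_pos (s1 a ha))
    have e4 : ((c.drop (c.length - r)).map m).prod =
        (((c.drop (c.length - r)).map (· + 1)).prod : ℕ) * Real.exp (-g) ^ r := by
      have e5 : (c.drop (c.length - r)).map m =
          (c.drop (c.length - r)).map fun a : ℕ => ((a + 1 : ℕ) : ℝ) * Real.exp (-g) :=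
        List.map_congr_left fun a ha => by
          simp only [m]
          push_cast
          split_ifs with h5
          · rw [le_antisymm h5 (s2 a ha), e2]
            field_simp
          · rfl
      rw [e5, List.prod_map_mul, Nat.cast_list_prod, List.map_map, List.map_const',
        List.prod_replicate, List.length_drop, Nat.sub_sub_self hr]
      rfl
    conv_rhs => rw [← List.take_append_drop (c.length - r) c, List.map_append, List.prod_append,
      e3, e4]
    rw [pend, Nat.cast_mul, mul_assoc]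
  have hs' : 256 * ((c.sum : ℝ) + r) ≤ ((l.map Prod.snd).sum : ℕ) + 12 := by exact_mod_cast hs
  have h3 : 1 ≤ 101 / 100 * (Real.exp (-g) ^ r *
      Real.exp (g * (((l.map Prod.snd).sum : ℕ) / 256 - (c.sum : ℕ)))) := by
    rw [← Real.exp_nat_mul, ← Real.exp_add]
    have h5 := Real.add_one_le_exp
      (r * -g + g * (((l.map Prod.snd).sum : ℕ) / 256 - (c.sum : ℕ)))
    have h6 := mul_le_mul_of_nonneg_left hs' g0
    nlinarith
  calc (256 : ℝ) ^ c.length * pend r c
      ≤ 256 ^ c.length * pend r c * (101 / 100 * (Real.exp (-g) ^ r *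
        Real.exp (g * (((l.map Prod.snd).sum : ℕ) / 256 - (c.sum : ℕ))))) :=
        le_mul_of_one_le_right (by positivity) h3
    _ = 101 / 100 * (256 ^ c.length * (pend r c * Real.exp (-g) ^ r) *
        Real.exp (g * (((l.map Prod.snd).sum : ℕ) / 256 - (c.sum : ℕ)))) := by ring
    _ ≤ _ := by
        refine mul_le_mul_of_nonneg_left (le_trans ?_ h1) (by norm_num)
        gcongr

lemma yLossB_ten {x B α : ℕ} {b : ℝ} (hb : 0 < b) (h : Real.log x / 140 ≤ 256 * B * b)
    (hα : 2560 * B ≤ α) : Real.log x / 30 ≤ α * b := by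
  have h1 : (2560 * B : ℝ) ≤ α := by exact_mod_cast hα
  have h2 := mul_le_mul_of_nonneg_right h1 hb.le
  have h3 := Real.log_natCast_nonneg x
  linarith

theorem prime_var3 : ∀ᶠ x : ℕ in atTop, ∀ (b : ℝ) (B c : ℕ), 0 < b → 1 ≤ B →
    Real.log x / 140 ≤ 256 * B * b → 10 ≤ c → c ≤ 110 →
    Var b B (Prc x b (256 * B) c, c, 1) := by
  filter_upwards [mass_fine (ε := 1 / 10 ^ 10) (by norm_num)] with x hx b B c hb hB hlo h4 h47
  refine ⟨fun a ha => (mem_filter.1 ha).2.1.pos, fun a ha => (mem_filter.1 ha).2.2,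
    le_trans (by norm_num) h4,
    zero_le_one, fun t => ?_⟩
  show ∑ a ∈ Prc x b (256 * B) c with fs b a / B = t, (a : ℝ)⁻¹ ≤ 1 / t
  rcases ((Prc x b (256 * B) c).filter fun a => fs b a / B = t).eq_empty_or_nonempty with
    e | ⟨a, ha⟩
  · rw [e, sum_empty]
    positivity
  obtain ⟨h1, h2⟩ := mem_filter.1 ha
  have h3 : fs b a / (256 * B) = c := (mem_filter.1 h1).2.2
  rw [mul_comm, ← Nat.div_div_eq_div_mul, h2] at h3
  have t1 : 2560 ≤ t := by omega
  have t2 : t ≤ 28415 := by omega
  have t1' : (2560 : ℝ) ≤ t := by exact_mod_cast t1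
  have t2' : (t : ℝ) ≤ 28415 := by exact_mod_cast t2
  have B0 : (0 : ℝ) < B := by exact_mod_cast hB
  have h5 := hx b (t * B) ((t + 1) * B) hb (yLossB_ten hb hlo (Nat.mul_le_mul_right _ t1))
    (Nat.mul_le_mul_right _ (Nat.le_succ t))
  have h6 : ((Prc x b (256 * B) c).filter fun a => fs b a / B = t) ⊆
      (Icc 1 (2 * x)).filter fun p => p.Prime ∧ t * B ≤ fs b p ∧ fs b p < (t + 1) * B := by
    intro p hp
    obtain ⟨h7, h8⟩ := mem_filter.1 hp
    obtain ⟨h9, h10, -⟩ := mem_filter.1 h7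
    exact mem_filter.2 ⟨h9, h10, (Nat.le_div_iff_mul_le hB).1 h8.ge,
      (Nat.div_lt_iff_lt_mul hB).1 (by omega)⟩
  refine (sum_le_sum_of_subset_of_nonneg h6 fun p _ _ => by positivity).trans (h5.trans ?_)
  push_cast
  rw [mul_div_mul_right _ _ B0.ne']
  have h7 := lossV_log (v := t) (by linarith)
  have h8 : (1 / (t : ℝ) + 1 / (t + 1)) / 2 = 1 / t - 1 / (2 * t * (t + 1)) := by
    field_simp
    ring
  have h9 : (1 : ℝ) / 10 ^ 10 ≤ 1 / (2 * t * (t + 1)) :=
    one_div_le_one_div_of_le (by positivity) (by nlinarith)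
  linarith

theorem box_sum3 : ∀ᶠ x : ℕ in atTop, ∀ (b : ℝ) (B m e r : ℕ) (V₁ V₂ : List (Finset ℕ × ℕ × ℝ))
    (c : List ℕ), 0 < b → 1 ≤ B → Real.log x / 140 ≤ 256 * B * b → 1 ≤ m →
    (∀ v ∈ V₁ ++ V₂, Var b B v) → (∀ a ∈ c, 10 ≤ a) → c.Pairwise (· ≤ ·) →
    (V₁.map (·.2.1) ++ (V₂.map (·.2.1) ++ [e])).Perm c → c.sum + r = 120 → r ≤ c.length →
    c.length ≤ 12 →
    psum (V₁.map (·.1)) (fun a₁ => psum (V₂.map (·.1)) fun a₂ => ∑ p ∈ Prc x b (256 * B) e,
      if fs b a₁ < 55 * (256 * B) ∧ 120 * (256 * B) ≤ fs b (a₁ * a₂ * p) + B ∧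
        fs b (a₁ * a₂ * p) ≤ 120 * (256 * B) + B then
        gk x (Real.log x ^ 2) (m * (a₁ * a₂ * p)) else 0)
      ≤ 1015 / 1000 * Gam x (Real.log x ^ 2) / (m * (256 * B * b)) *
        (((V₁ ++ V₂).map (·.2.2)).prod *
          (cT V₁.length V₂.length r (55 - (V₁.map (·.2.1)).sum) /
            (256 ^ (c.length - 1) * pend r c))) := by
  filter_upwards [solve_prime (ε := 1 / 250) (by norm_num)] with x hx
  intro b B m e r V₁ V₂ c hb hB hL hm hV h4 hc hp hr hrc hk
  have hV1 : ∀ v ∈ V₁, Var b B v := fun v hv => hV v (List.mem_append_left _ hv)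
  have hV2 : ∀ v ∈ V₂, Var b B v := fun v hv => hV v (List.mem_append_right _ hv)
  have he : 10 ≤ e := h4 e (hp.subset (by simp))
  have hsum := hp.sum_eq
  have hlen := hp.length_eq
  simp only [List.sum_append, List.sum_cons, List.sum_nil, List.length_append, List.length_map,
    List.length_cons, List.length_nil] at hsum hlen
  have hG : 0 ≤ Gam x (Real.log x ^ 2) := sum_nonneg fun _ _ => gk_nonneg _ _ _
  have hpe : (0 : ℝ) < pend r c := by exact_mod_cast pend_pos r fun a ha => le_trans (by norm_num) (h4 a ha)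
  have hB' : (0 : ℝ) < B := by exact_mod_cast hB
  have hm' : (0 : ℝ) < m := by exact_mod_cast hm
  set K : ℝ := 1015 / 1000 * Gam x (Real.log x ^ 2) / (m * (256 * B * b)) /
    (256 ^ (c.length - 1) * pend r c) with hK
  have K0 : 0 ≤ K := by positivity
  set s := 55 - (V₁.map (·.2.1)).sum with hs
  set W : ℕ → ℕ → ℝ := fun u v => if u < 256 * s ∧
    256 * r ≤ u + v + 256 + V₁.length + V₂.length ∧ u + v ≤ 256 * r + 1 then 1 else 0 with hW
  have W0 : ∀ u v, 0 ≤ W u v := fun u v => by rw [hW]; dsimp only; split_ifs <;> norm_num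
  have k2 : 0 ≤ (V₂.map (·.2.2)).prod := List.prod_nonneg fun t ht => by
    obtain ⟨w, hw, rfl⟩ := List.mem_map.1 ht
    exact (hV2 w hw).nonneg
  refine (lb_psum (256 * s) V₁ hV1 _ (fun u => (V₂.map (·.2.2)).prod *
    ∑ v ∈ range (256 * r + 2), (cN V₂.length v : ℝ) * (K * W u v))
    (fun u => mul_nonneg k2 (sum_nonneg fun v _ =>
      mul_nonneg (Nat.cast_nonneg _) (mul_nonneg K0 (W0 _ _))))
    (fun u hu => ?_) fun l₁ hl₁ => ?_).trans (le_of_eq ?_)
  · rw [sum_eq_zero fun v _ => ?_, mul_zero]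
    rw [hW]; dsimp only; rw [if_neg (by omega)]; simp
  · obtain ⟨a1, a2, a3, a4, a5⟩ := lb_tuple hB hV1 hl₁
    refine (lb_psum (256 * r + 2) V₂ hV2 _ (fun v =>
      K * W (l₁.map fun a => fs b a / B % 256).sum v *
        (((l₁.map fun a => fs b a / B).prod : ℕ) / (l₁.prod : ℕ)))
      (fun v => mul_nonneg (mul_nonneg K0 (W0 _ _)) (by positivity))
      (fun v hv => ?_) fun l₂ hl₂ => ?_).trans (le_of_eq ?_)
    · rw [hW]; dsimp only; rw [if_neg (by omega)]; simp
    · obtain ⟨b1, b2, b3, b4, b5⟩ := lb_tuple hB hV2 hl₂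
      by_cases hex : ∃ p ∈ Prc x b (256 * B) e, fs b l₁.prod < 55 * (256 * B) ∧
          120 * (256 * B) ≤ fs b (l₁.prod * l₂.prod * p) + B ∧
          fs b (l₁.prod * l₂.prod * p) ≤ 120 * (256 * B) + B
      swap
      · rw [sum_eq_zero fun p hp' => if_neg fun h => hex ⟨p, hp', h⟩]
        have := W0 (l₁.map fun a => fs b a / B % 256).sum (l₂.map fun a => fs b a / B % 256).sum
        positivity
      set T₁ := (l₁.map fun a => fs b a / B).sum with hT₁
      set T₂ := (l₂.map fun a => fs b a / B).sum with hT₂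
      have cellp : ∀ p ∈ Prc x b (256 * B) e, p.Prime ∧ B * (256 * e) ≤ fs b p ∧
          fs b p < B * (256 * (e + 1)) ∧
          fs b (l₁.prod * l₂.prod * p) = fs b l₁.prod + fs b l₂.prod + fs b p := by
        intro p hp'
        obtain ⟨-, pp, pc⟩ := mem_filter.1 hp'
        have d1 := Nat.mul_div_le (fs b p) (256 * B)
        have d2 := Nat.lt_mul_div_succ (fs b p) (show 0 < 256 * B by omega)
        rw [pc] at d1 d2
        refine ⟨pp, by linarith, by linarith, ?_⟩
        rw [fs_mul b (Nat.mul_pos a1 b1).ne' pp.ne_zero, fs_mul b a1.ne' b1.ne']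
      obtain ⟨p, hp', c1, c2, c3⟩ := hex
      obtain ⟨-, p1, p2, p3⟩ := cellp p hp'
      have i1 : T₁ < 55 * 256 := lt_of_mul_lt_mul_left (a := B) (by linarith) (Nat.zero_le _)
      have i2 : T₁ + T₂ + 256 * e ≤ 30721 :=
        le_of_mul_le_mul_left (a := B) (by rw [mul_add, mul_add]; linarith) hB
      have i3 : 30720 < T₁ + V₁.length + (T₂ + V₂.length) + 256 * (e + 1) + 1 :=
        lt_of_mul_lt_mul_left (a := B) (by rw [mul_add, mul_add, mul_add B (T₁ + _)]; linarith)
          (Nat.zero_le _)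
      obtain ⟨t, t1, t2, t3, t4⟩ : ∃ t : ℕ, 256 * e ≤ t ∧ t ≤ 256 * (e + 1) ∧
          30720 ≤ t + c.length + (T₁ + T₂) ∧ (t = 256 * e ∨ 30720 = t + c.length + (T₁ + T₂)) := by
        by_cases h : 30720 ≤ 256 * e + c.length + (T₁ + T₂)
        · exact ⟨256 * e, le_rfl, by omega, h, Or.inl rfl⟩
        · obtain ⟨d, hd⟩ := Nat.exists_eq_add_of_le (not_le.1 h).le
          exact ⟨256 * e + d, by omega, by omega, by omega, Or.inr (by omega)⟩
      have t0 : (2560 : ℝ) ≤ t := by exact_mod_cast (show 2560 ≤ t by omega)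
      have hw : W (l₁.map fun a => fs b a / B % 256).sum (l₂.map fun a => fs b a / B % 256).sum
          = 1 := by
        rw [hW]; dsimp only; rw [if_pos (by omega)]
      have hBb : 0 < (B : ℝ) * b := by positivity
      have sp := hx b (m * (l₁.prod * l₂.prod)) (t * B) hb
        (Nat.mul_pos hm (Nat.mul_pos a1 b1)) (by
          have := mul_le_mul_of_nonneg_right t0 hBb.le
          have := Real.log_natCast_nonneg x
          rw [Nat.cast_mul, mul_assoc]; rw [mul_assoc] at hL; linarith)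
      have pl := pend_le_prod3 hc h4 hrc
        ((l₁.map fun a => (fs b a / (256 * B), fs b a / B)) ++
          ((l₂.map fun a => (fs b a / (256 * B), fs b a / B)) ++ [(e, t)]))
        (by
          simp only [List.map_append, List.map_map, List.map_cons, List.map_nil]
          rw [← a2, ← b2] at hp
          exact hp)
        (by
          have : ∀ a : ℕ, 256 * (fs b a / (256 * B)) ≤ fs b a / B ∧
              fs b a / B ≤ 256 * (fs b a / (256 * B) + 1) := fun a => by
            rw [mul_comm 256 B, ← Nat.div_div_eq_div_mul]; omega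
          intro q hq
          simp only [List.mem_append, List.mem_map, List.mem_singleton] at hq
          rcases hq with ⟨a, -, rfl⟩ | ⟨a, -, rfl⟩ | rfl
          exacts [this a, this a, ⟨t1, t2⟩])
        (by
          simp only [List.map_append, List.map_map, List.map_cons, List.map_nil, List.sum_append,
            List.sum_cons, List.sum_nil, Function.comp_def, ← hT₁, ← hT₂]
          omega)
      simp only [List.map_append, List.map_map, List.map_cons, List.map_nil, List.prod_append,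
        List.prod_cons, List.prod_nil, Function.comp_def, mul_one, Nat.cast_mul] at pl
      have le1 : (∑ p ∈ Prc x b (256 * B) e, if fs b l₁.prod < 55 * (256 * B) ∧
          120 * (256 * B) ≤ fs b (l₁.prod * l₂.prod * p) + B ∧
          fs b (l₁.prod * l₂.prod * p) ≤ 120 * (256 * B) + B then
          gk x (Real.log x ^ 2) (m * (l₁.prod * l₂.prod * p)) else 0) ≤
          ∑ p ∈ Icc 1 (2 * x) with p.Prime ∧ t * B ≤ fs b p,
            gk x (Real.log x ^ 2) (m * (l₁.prod * l₂.prod) * p) := by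
        rw [← sum_filter]
        simp only [mul_assoc m]
        refine sum_le_sum_of_subset_of_nonneg (fun q hq => ?_) fun _ _ _ => gk_nonneg _ _ _
        obtain ⟨q1, -, q2, -⟩ := mem_filter.1 hq
        obtain ⟨q3, q4, -, q5⟩ := cellp q q1
        refine mem_filter.2 ⟨(mem_filter.1 q1).1, q3, ?_⟩
        rw [mul_comm]
        rcases t4 with h | h
        · rwa [h]
        · have e2 : B * 30720 = B * t + B * (T₁ + V₁.length) + B * (T₂ + V₂.length) + B := by
            rw [h, ← hlen]; ring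
          linarith
      refine le1.trans (sp.trans ?_)
      rw [hw, hK]
      have a1' : (0 : ℝ) < (l₁.prod : ℕ) := by exact_mod_cast a1
      have b1' : (0 : ℝ) < (l₂.prod : ℕ) := by exact_mod_cast b1
      have e256 : (256 : ℝ) ^ c.length = 256 * 256 ^ (c.length - 1) := by
        rw [← pow_succ', show c.length - 1 + 1 = c.length by omega]
      rw [e256] at pl
      set P₁ : ℝ := (((l₁.map fun a => fs b a / B).prod : ℕ) : ℝ)
      set P₂ : ℝ := (((l₂.map fun a => fs b a / B).prod : ℕ) : ℝ)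
      set D : ℝ := 256 ^ (c.length - 1) * pend r c with hD
      have D0 : 0 < D := by positivity
      have pl' : 256 * D ≤ 101 / 100 * (P₁ * (P₂ * t)) := by rw [hD]; linarith
      have PP : 0 ≤ P₁ * (P₂ * t) := by positivity
      simp only [Nat.cast_mul]
      have tp : (0 : ℝ) < t := by linarith
      rw [show 1015 / 1000 * Gam x (Real.log x ^ 2) / (m * (256 * B * b)) / D * 1 *
          (P₁ / (l₁.prod : ℕ)) * P₂ / (l₂.prod : ℕ) = (1015 / 1000 * (P₁ * (P₂ * t)) / (256 * D)) *
          Gam x (Real.log x ^ 2) / (m * ((l₁.prod : ℕ) * (l₂.prod : ℕ)) * (t * B * b)) by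
        field_simp]
      gcongr
      rw [le_div_iff₀ (by positivity)]
      linarith
    · rw [mul_div_assoc, mul_assoc, sum_mul]
      exact congrArg _ (sum_congr rfl fun v _ => by ring)
  · have : (cT V₁.length V₂.length r s : ℝ) = ∑ u ∈ range (256 * s), (cN V₁.length u : ℝ) *
        ∑ v ∈ range (256 * r + 2), (cN V₂.length v : ℝ) * W u v := by
      unfold cT
      push_cast
      refine sum_congr rfl fun u hu => ?_
      rw [mul_sum]
      refine sum_congr rfl fun v _ => ?_
      rw [hW]; dsimp only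
      have := mem_range.1 hu
      split_ifs <;> first | omega | simp
    rw [List.map_append, List.prod_append, this]
    have e : ∀ u, ∑ v ∈ range (256 * r + 2), (cN V₂.length v : ℝ) * (K * W u v) =
        K * ∑ v ∈ range (256 * r + 2), (cN V₂.length v : ℝ) * W u v := fun u => by
      rw [mul_sum]; exact sum_congr rfl fun v _ => by ring
    simp only [e]
    have e' : ∑ u ∈ range (256 * s), (cN V₁.length u : ℝ) * ((V₂.map (·.2.2)).prod *
        (K * ∑ v ∈ range (256 * r + 2), (cN V₂.length v : ℝ) * W u v)) =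
        (V₂.map (·.2.2)).prod * K * ∑ u ∈ range (256 * s), (cN V₁.length u : ℝ) *
        ∑ v ∈ range (256 * r + 2), (cN V₂.length v : ℝ) * W u v := by
      rw [mul_sum]; exact sum_congr rfl fun v _ => by ring
    rw [e', hK]; ring

end Pool.Agent.Work.MP_82fd4a_nt.Y
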