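import Pool.Agent.Work.MP_82fd4a_nt.Y.NumP
import Pool.Agent.Work.MP_82fd4a_nt.Y.Defs
import Pool.Agent.Work.MP_82fd4a_nt.NumS1
import Pool.Agent.Work.MP_82fd4a_nt.RuleA

/-! The weights given by a table. -/

set_option autoImplicit false

namespace Pool.Agent.Work.MP_82fd4a_nt.Y

open BS

theorem skip_e (n : ℕ) : skip Tr.e n = Tr.e := rfl

theorem skip_zero (s : Tr) : skip s 0 = s := by cases s <;> rfl

theorem skip_succ (v : ℕ) (k r : Tr) (n : ℕ) : skip (Tr.c v k r) (n + 1) = skip r n := rfl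

theorem skip_add (s : Tr) (m n : ℕ) : skip (skip s m) n = skip s (m + n) := by
  induction s generalizing m with
  | e => rfl
  | c v k r _ ih =>
    cases m with
    | zero => rw [skip_zero, zero_add]
    | succ m => rw [skip_succ, ih, show m + 1 + n = (m + n) + 1 by omega, skip_succ]

theorem look_e {x a : ℕ} {s : Tr} (h : skip s (x - a) = Tr.e) (t : List ℕ) (v : ℕ) :
    look (x :: t) v s a = 0 := by
  show Tr.rec (motive := fun _ => ℕ) 0 (fun v k _ _ _ => look t v k x) (skip s (x - a)) = 0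
  rw [h]

theorem look_c {x a w : ℕ} {s k r : Tr} (h : skip s (x - a) = Tr.c w k r) (t : List ℕ) (v : ℕ) :
    look (x :: t) v s a = look t w k x := by
  show Tr.rec (motive := fun _ => ℕ) 0 (fun v k _ _ _ => look t v k x) (skip s (x - a)) = _
  rw [h]

theorem ph_cons (x a : ℕ) (s : Tr) (t : List ℕ) : ph (x :: t) s a =
    Tr.rec (motive := fun _ => ℕ) 0 (fun v k r _ _ => v + ph t k x + ph t (Tr.c v k r) x)
      (skip s (x - a)) := rfl

theorem ph_skip {x a : ℕ} (h : a ≤ x) (s : Tr) {t : List ℕ} (ht : ∀ y ∈ t, x ≤ y) :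
    ph t s a = ph t (skip s (x - a)) x := by
  cases t with
  | nil => rfl
  | cons y t =>
    have := ht y List.mem_cons_self
    rw [ph_cons, ph_cons, skip_add, show x - a + (y - x) = y - a by omega]

theorem ph_e (t : List ℕ) (a : ℕ) : ph t Tr.e a = 0 := by cases t <;> rfl

theorem ph_eq {l : List ℕ} (hl : l.Pairwise (· ≤ ·)) (v : ℕ) (s : Tr) {a : ℕ} (ha : ∀ y ∈ l, a ≤ y) :
    ((splits l).map fun p => look p.1 v s a).sum = v + ph l s a := by
  induction l generalizing v s a with
  | nil => rfl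
  | cons x t ih =>
    obtain ⟨h1, h2⟩ := List.pairwise_cons.1 hl
    have hx := ha x List.mem_cons_self
    simp only [splits, List.map_append, List.map_map, List.sum_append, Function.comp_def]
    rw [ih h2 v s fun y hy => hx.trans (h1 y hy), ph_skip hx s h1, ph_cons]
    cases h : skip s (x - a) with
    | e => simp [look_e h, ph_e]
    | c w k r =>
      simp only [look_c h]
      rw [ih h2 w k h1]
      ring

theorem snoc_eq (l : List ℕ) (a : ℕ) : snoc l a = l ++ [a] := by
  induction l with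
  | nil => rfl
  | cons h t ih => exact congrArg (h :: ·) ih

theorem top_spec (l : List ℕ) : top l = 0 ∨ (top l ∈ l ∧ top l ≤ 15) := by
  induction l with
  | nil => exact Or.inl rfl
  | cons h t ih =>
    have e : top (h :: t) = il h 15 (il h (top t) (top t) h) (top t) := rfl
    rw [e, il_eq, il_eq]
    split_ifs with h1 h2
    · exact ih.imp id fun h3 => ⟨List.mem_cons_of_mem _ h3.1, h3.2⟩
    · exact Or.inr ⟨List.mem_cons_self, h1⟩
    · exact ih.imp id fun h3 => ⟨List.mem_cons_of_mem _ h3.1, h3.2⟩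

theorem single_split {l : List ℕ} {a : ℕ} (h : a ∈ l) : ∃ q, ([a], q) ∈ splits l := by
  obtain ⟨p, hp, h1, -⟩ := exists_split (l := l) (s := [a]) (List.perm_cons_erase h).symm
  exact ⟨p.2, by rw [← List.perm_singleton.1 h1]; exact hp⟩

theorem okv_spec {v : ℕ} {l : List ℕ} (h : okv v l = 0) :
    (v ≠ 0 → Adm l) ∧ v % 2 ^ 40 ≤ 2 ^ 20 ∧ v / 2 ^ 40 ≤ 2 ^ 20 := by
  unfold okv at h
  rw [iz_eq, il_eq, il_eq, il_eq, sl_eq] at h
  split_ifs at h with h1 h2 h3 h4
  · simp [h1]
  · refine ⟨fun _ => ?_, h3, h4⟩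
    have h5 : l.sum ≤ 54 + top l := h2
    rcases top_spec l with h6 | ⟨h6, h7⟩
    · exact ⟨_, nil_mem_splits l, by simp, by simpa [h6] using h5⟩
    · obtain ⟨q, hq⟩ := single_split h6
      have h8 := splits_sum hq
      simp only [List.sum_singleton] at h8
      exact ⟨_, hq, by simp; omega, by dsimp only; omega⟩

theorem chk_c {v a : ℕ} {k r : Tr} {pre : List ℕ} (h : chk (Tr.c v k r) a pre = 0) :
    okv v (pre ++ [a]) = 0 ∧ chk k a (pre ++ [a]) = 0 ∧ chk r (a + 1) pre = 0 := by
  have e : chk (Tr.c v k r) a pre = fl (snoc pre a) fun l =>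
    okv v l + chk k a l + fz (a + 1) fun a' => chk r a' pre := rfl
  rw [e, fl_eq, fz_eq, snoc_eq] at h
  omega

theorem chk_skip {s : Tr} {a : ℕ} {pre : List ℕ} (h : chk s a pre = 0) (n : ℕ) :
    chk (skip s n) (a + n) pre = 0 := by
  induction n generalizing s a with
  | zero => rwa [skip_zero]
  | succ n ih =>
    cases s with
    | e => rfl
    | c v k r => rw [skip_succ, show a + (n + 1) = a + 1 + n by omega]; exact ih (chk_c h).2.2

theorem chk_look {t : List ℕ} {x a : ℕ} {s : Tr} {pre : List ℕ} (h : chk s a pre = 0) (v : ℕ)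
    (ha : a ≤ x) (ht : (x :: t).Pairwise (· ≤ ·)) : okv (look (x :: t) v s a) (pre ++ x :: t) = 0 := by
  induction t generalizing x a s pre v with
  | nil =>
    have h1 := chk_skip h (x - a)
    cases h2 : skip s (x - a) with
    | e => rw [look_e h2]; rfl
    | c w k r =>
      rw [h2, show a + (x - a) = x by omega] at h1
      rw [look_c h2]
      exact (chk_c h1).1
  | cons y t ih =>
    have h1 := chk_skip h (x - a)
    cases h2 : skip s (x - a) with
    | e => rw [look_e h2]; rfl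
    | c w k r =>
      rw [h2, show a + (x - a) = x by omega] at h1
      obtain ⟨h3, h4⟩ := List.pairwise_cons.1 ht
      have h5 := ih (chk_c h1).2.1 w (h3 y List.mem_cons_self) h4
      rw [look_c h2]
      simpa using h5

theorem look_spec {T : Tr} (h : chk T 0 [] = 0) {D : List ℕ} (hD : D.Pairwise (· ≤ ·)) :
    (look D 16384 T 0 ≠ 0 → Adm D) ∧ look D 16384 T 0 % 2 ^ 40 ≤ 2 ^ 20 ∧
      look D 16384 T 0 / 2 ^ 40 ≤ 2 ^ 20 := by
  cases D with
  | nil =>
    have e : look [] 16384 T 0 = 16384 := rfl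
    rw [e]
    exact ⟨fun _ => ⟨([], []), by simp [splits], by simp, by simp⟩, by norm_num, by norm_num⟩
  | cons x t => exact okv_spec (chk_look h 16384 (Nat.zero_le x) hD)

/-- the real number coded by a natural number -/
noncomputable def dec (w : ℕ) : ℝ := (((w % 2 ^ 40 : ℕ) : ℝ) - ((w / 2 ^ 40 : ℕ) : ℝ)) / 16384

/-- the weights given by a table -/
noncomputable def cfT (T : Tr) (D : List ℕ) : ℝ :=
  if D.Pairwise (· ≤ ·) then dec (look D 16384 T 0) else 0

theorem cfT_nil (T : Tr) : cfT T [] = 1 := by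
  have e : look [] 16384 T 0 = 16384 := rfl
  unfold cfT dec
  rw [if_pos List.Pairwise.nil, e]
  norm_num

theorem cfT_bd {T : Tr} (h : chk T 0 [] = 0) (D : List ℕ) : |cfT T D| ≤ 2 ^ 40 := by
  unfold cfT dec
  split_ifs with hD
  · obtain ⟨-, h1, h2⟩ := look_spec h hD
    generalize look D 16384 T 0 % 2 ^ 40 = A at h1
    generalize look D 16384 T 0 / 2 ^ 40 = N at h2
    have h3 : (A : ℝ) ≤ 2 ^ 20 := by exact_mod_cast h1
    have h4 : (N : ℝ) ≤ 2 ^ 20 := by exact_mod_cast h2
    have h5 : (0 : ℝ) ≤ A := Nat.cast_nonneg A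
    have h6 : (0 : ℝ) ≤ N := Nat.cast_nonneg N
    rw [abs_le]
    constructor <;> linarith
  · simp

theorem cfT_adm {T : Tr} (h : chk T 0 [] = 0) {D : List ℕ} (hD : D.Pairwise (· ≤ ·))
    (h0 : cfT T D ≠ 0) : Adm D := by
  refine (look_spec h hD).1 fun h1 => h0 ?_
  simp [cfT, dec, h1]

theorem dec_sum (L : List ℕ) (h : ∀ w ∈ L, w % 2 ^ 40 ≤ 2 ^ 20) (hL : L.length ≤ 2 ^ 12) :
    (L.map dec).sum = dec L.sum := by
  have h1 : ∀ L : List ℕ, L.sum = (L.map (· % 2 ^ 40)).sum + 2 ^ 40 * (L.map (· / 2 ^ 40)).sum := by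
    intro L
    induction L with
    | nil => rfl
    | cons w L ih =>
      simp only [List.map_cons, List.sum_cons]
      have := Nat.mod_add_div w (2 ^ 40)
      omega
  have h2 : (L.map (· % 2 ^ 40)).sum < 2 ^ 40 := by
    have h3 := List.sum_le_card_nsmul (L.map (· % 2 ^ 40)) (2 ^ 20) fun x hx => by
      obtain ⟨w, hw, rfl⟩ := List.mem_map.1 hx
      exact h w hw
    rw [List.length_map, smul_eq_mul] at h3
    omega
  have h3 : ∀ L : List ℕ, (L.map dec).sum = ((((L.map (· % 2 ^ 40)).sum : ℕ) : ℝ) -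
      (((L.map (· / 2 ^ 40)).sum : ℕ) : ℝ)) / 16384 := by
    intro L
    induction L with
    | nil => simp
    | cons w L ih =>
      simp only [List.map_cons, List.sum_cons, ih, dec, Nat.cast_add]
      ring
  have h4 := h1 L
  rw [h3, dec, show L.sum % 2 ^ 40 = (L.map (· % 2 ^ 40)).sum by omega,
    show L.sum / 2 ^ 40 = (L.map (· / 2 ^ 40)).sum by omega]

theorem length_splits (l : List ℕ) : (splits l).length = 2 ^ l.length := by
  induction l with
  | nil => rfl
  | cons a t ih => simp [splits, ih, pow_succ, mul_two]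

theorem PhiC_cfT {T : Tr} (h : chk T 0 [] = 0) {c : List ℕ} (hc : c.Pairwise (· ≤ ·))
    (hk : c.length ≤ 12) : PhiC (cfT T) c = dec (16384 + ph c T 0) := by
  have hs : ∀ p ∈ splits c, p.1.Pairwise (· ≤ ·) := fun p hp => hc.sublist (splits_sublist hp).1
  rw [← ph_eq hc 16384 T fun y _ => Nat.zero_le y, ← dec_sum, List.map_map, PhiC]
  · exact congrArg List.sum (List.map_congr_left fun p hp => if_pos (hs p hp))
  · intro w hw
    obtain ⟨p, hp, rfl⟩ := List.mem_map.1 hw
    exact (look_spec h (hs p hp)).2.1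
  · rw [List.length_map, length_splits]
    exact Nat.pow_le_pow_right (by norm_num) hk

end Pool.Agent.Work.MP_82fd4a_nt.Y
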