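import Pool.Agent.Work.MP_82fd4a_nt.NumD

/-! The programs that check the table of the weights. -/

set_option autoImplicit false

namespace Pool.Agent.Work.MP_82fd4a_nt.Y

open BS

/-- a stream of nodes: the value, the children, and the nodes with a larger key -/
inductive Tr
  | e : Tr
  | c : ℕ → Tr → Tr → Tr

noncomputable section

/-- move forward in a stream -/
def skip (s : Tr) : ℕ → Tr :=
  Tr.rec (fun _ => Tr.e) (fun v k r _ ih n => Nat.rec (Tr.c v k r) (fun m _ => ih m) n) s

/-- the value attached to a list -/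
def look (D : List ℕ) : ℕ → Tr → ℕ → ℕ :=
  List.rec (fun v _ _ => v) (fun x _ ih _ s a =>
    Tr.rec 0 (fun v k _ _ _ => ih v k x) (skip s (Nat.sub x a))) D

/-- the sum of the values over the nonempty sublists -/
def ph (l : List ℕ) : Tr → ℕ → ℕ :=
  List.rec (fun _ _ => 0) (fun x _ ih s a =>
    Tr.rec 0 (fun v k r _ _ => Nat.add (Nat.add v (ih k x)) (ih (Tr.c v k r) x))
      (skip s (Nat.sub x a))) l

/-- add an entry at the end -/
def snoc (l : List ℕ) (a : ℕ) : List ℕ := List.rec [a] (fun h _ ih => h :: ih) l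

/-- the largest entry that is at most `15` -/
def top (l : List ℕ) : ℕ := List.rec 0 (fun h _ ih => il h 15 (il h ih ih h) ih) l

/-- zero if an entry of the table is acceptable -/
def okv (v : ℕ) (l : List ℕ) : ℕ :=
  iz v 0 (il (sl l) (Nat.add 54 (top l)) (il (Nat.mod v 1099511627776) 1048576
    (il (Nat.div v 1099511627776) 1048576 0 1) 1) 1)

/-- zero if all the entries are acceptable -/
def chk (s : Tr) : ℕ → List ℕ → ℕ :=
  Tr.rec (fun _ _ => 0) (fun v _ _ ihk ihr a pre => fl (snoc pre a) fun l =>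
    Nat.add (Nat.add (okv v l) (ihk a l)) (fz (Nat.succ a) fun a' => ihr a' pre)) s

/-- windows of lengths `w j` at the positions `p j` -/
def wins (p w : ℕ → ℕ) : ℕ := Nat.rec 0 (fun j ih => Nat.lor ih
  (Nat.shiftLeft (Nat.sub (Nat.pow 2 (w j)) 1) (Nat.add (Nat.mul 128 j) (p j)))) 7

/-- the smaller number -/
def mn (a b : ℕ) : ℕ := il a b a b

/-- the forbidden subsums -/
def mask (k r : ℕ) : ℕ := wins (fun j => Nat.sub (Nat.add 55 (mn (Nat.sub k j) r)) r)
  (fun j => Nat.sub (Nat.add 11 r) (Nat.add (mn j r) (mn (Nat.sub k j) r)))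

/-- the subsums that are always forbidden -/
def mask0 : ℕ := wins (fun _ => 55) (fun j => Nat.sub 11 j)

/-- remove the last digits -/
def um (M : ℕ) : ℕ := Nat.shiftRight M 64

/-- normalised volume -/
def vt (k r j s : ℕ) : ℕ := Nat.succ (Nat.div
  (Nat.mul (ct j (Nat.sub (Nat.sub k 1) j) r s) 8388608) (Nat.pow 256 (Nat.sub k 1)))

/-- improve the bound for the volume -/
def vs (k r M i V : ℕ) : ℕ :=
  fz V fun V => fz (Nat.add i 2) fun j =>
    fz (Nat.mod (Nat.shiftRight (um M) (Nat.add (Nat.mul 128 j) 51)) 16) fun W =>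
      iz W V (fz (Nat.sub 4 (Nat.log2 W)) fun s => il j s V (fz (vt k r j s) fun u => mn V u))

/-- the best bound for the volume -/
def vb (k r M : ℕ) : ℕ := fz (vt k r 0 55) fun V0 => Nat.rec V0 (vs k r M) 4

/-- the number `pend` -/
def pd (r : ℕ) (l : List ℕ) : ℕ → ℕ :=
  List.rec (fun _ => 1) (fun a _ ih n =>
    Nat.mul (il n r (Nat.succ a) a) (fz (Nat.pred n) ih)) l

/-- one more than the multiplicity -/
def cnt (a : ℕ) (l : List ℕ) : ℕ :=
  List.rec 1 (fun b _ ih => Bool.rec ih (Nat.succ ih) (Nat.beq b a)) l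

/-- the number `mf` -/
def mfn (l : List ℕ) : ℕ := List.rec 1 (fun a t ih => Nat.mul (cnt a t) ih) l

/-- the subsums after adding an entry -/
def ext (M a : ℕ) : ℕ := Nat.lor M (Nat.shiftLeft M (Nat.add 128 a))

/-- append some digits -/
def sal (X : ℕ) : ℕ := Nat.lor (Nat.shiftLeft X 64) (Nat.mod X 1000000007)

/-- the cost of a box -/
def leaf (T : Tr) (pre : List ℕ) (k M R a : ℕ) : ℕ :=
  fz (Nat.sub R a) fun r => iz (Nat.land (um M) (mask k r))
    (fl (snoc pre a) fun l => fz (Nat.add 16384 (ph l T 0)) fun w =>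
      fz (Nat.mod w 1099511627776) fun A => fz (Nat.div w 1099511627776) fun N =>
        il A N (Nat.succ (Nat.div
          (Nat.mul (Nat.mul (Nat.sub N A) (fz (sal (ext (um M) a)) (vb k r))) 1048576)
          (Nat.mul (pd r l k) (mfn l)))) 1152921504606846976) 0

/-- sum over a range -/
def rng (lo n : ℕ) (f : ℕ → ℕ) : ℕ :=
  Nat.rec 0 (fun i ih => Nat.add ih (fz (Nat.add lo i) f)) n

/-- the cost of all the boxes that begin in a given way -/
def go (T : Tr) (f : ℕ) : List ℕ → ℕ → ℕ → ℕ → ℕ → ℕ :=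
  Nat.rec (fun _ _ _ _ _ => 0) (fun _ ih pre k a0 R M => Nat.add
    (fz (il a0 (Nat.sub R k) (Nat.sub R k) a0) fun lo =>
      rng lo (Nat.sub (Nat.succ (mn R 110)) lo) (leaf T pre k M R))
    (rng a0 (Nat.sub (Nat.succ (Nat.div R 2)) a0) fun a => fz (sal (ext (um M) a)) fun M' =>
      iz (Nat.land (um M') mask0) (fl (snoc pre a) fun l => fz (Nat.sub R a) fun R' =>
        fz (Nat.succ k) fun k' => ih l k' a R' M') 0)) f

end

end Pool.Agent.Work.MP_82fd4a_nt.Y
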