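import Pool.Agent.Work.MP_82fd4a_nt.ExpSum

/-! The second derivative test for a reciprocal phase. -/

set_option autoImplicit false
open Filter Topology Finset

namespace Pool.Agent.Work.MP_82fd4a_nt.Y

open Pool.Agent.Lib.MR

lemma yRecip_inj {B : ℕ → ℝ} (hB0 : ∀ h, 0 ≤ B h) {s t : Finset ℕ} {g : ℕ → ℕ}
    (hg : Set.InjOn g s) (hst : ∀ x ∈ s, g x ∈ t) : ∑ x ∈ s, B (g x) ≤ ∑ y ∈ t, B y := by
  rw [← sum_image hg]
  refine sum_le_sum_of_subset_of_nonneg (fun y hy => ?_) fun y _ _ => hB0 y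
  obtain ⟨x, hx, rfl⟩ := mem_image.1 hy
  exact hst x hx

/-- Weyl differencing with a bound that depends on the shift -/
theorem weyl_sum (z : ℕ → ℂ) (hz : ∀ m, ‖z m‖ ≤ 1) {N H : ℕ} {B : ℕ → ℝ} (hH : 1 ≤ H)
    (hHN : H ≤ N) (hB0 : ∀ h, 0 ≤ B h)
    (hB : ∀ h, 1 ≤ h → h < H →
      ‖∑ m ∈ range (N - h), z (m + h) * (starRingEnd ℂ) (z m)‖ ≤ B h) :
    ‖∑ m ∈ range N, z m‖ ^ 2 * H ≤ 2 * N ^ 2 + 4 * N * ∑ h ∈ Ico 1 H, B h := by
  set Z : ℕ → ℂ := fun k => if H ≤ k ∧ k < N + H then z (k - H) else 0 with hZ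
  set T : ℕ → ℂ := fun h => ∑ m ∈ range (N - h), z (m + h) * (starRingEnd ℂ) (z m) with hT
  set A : ℝ := ∑ h ∈ Ico 1 H, B h with hA
  have hA0 : 0 ≤ A := sum_nonneg fun h _ => hB0 h
  have hTN : ∀ h, ‖T h‖ ≤ N := fun h => by
    refine (norm_sum_le _ _).trans ((sum_le_card_nsmul _ _ 1 fun m _ => ?_).trans ?_)
    · rw [norm_mul, Complex.norm_conj]
      exact mul_le_one₀ (hz _) (norm_nonneg _) (hz _)
    · simp only [card_range, nsmul_eq_mul, mul_one]; exact_mod_cast (by omega : N - h ≤ N)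
  have cor : ∀ h δ, h ≤ H → ∑ j ∈ range (N + H), Z (j + (h + δ)) * (starRingEnd ℂ) (Z (j + h))
      = T δ := fun h δ hh => by
    rw [hT]
    beta_reduce
    rw [← shift_sum (fun m => z (m + δ) * (starRingEnd ℂ) (z m)) (n := N) (Nat.sub_le N δ) hh]
    refine sum_congr rfl fun j _ => ?_
    simp only [hZ]
    by_cases c : H ≤ j + h ∧ j + h < N - δ + H
    · rw [if_pos c, if_pos (by omega), if_pos (by omega)]
      congr 2; omega
    · rw [if_neg c]
      by_cases c2 : H ≤ j + h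
      · rw [if_neg (by omega), zero_mul]
      · rw [if_neg (show ¬ (H ≤ j + h ∧ j + h < N + H) by omega), map_zero, mul_zero]
  have cor2 : ∀ h ∈ range H, ∀ h' ∈ range H,
      ‖∑ j ∈ range (N + H), Z (j + h) * (starRingEnd ℂ) (Z (j + h'))‖ ≤
        (if h' = h then (N : ℝ) else 0) + (if h' < h then B (h - h') else 0) +
          (if h < h' then B (h' - h) else 0) := fun h hh h' hh' => by
    rw [mem_range] at hh hh'
    have e : ∃ δ, δ < H ∧ (h = h' + δ ∨ h' = h + δ) ∧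
        ‖∑ j ∈ range (N + H), Z (j + h) * (starRingEnd ℂ) (Z (j + h'))‖ = ‖T δ‖ := by
      rcases le_total h' h with c | c
      · obtain ⟨δ, rfl⟩ := Nat.exists_eq_add_of_le c
        exact ⟨δ, by omega, Or.inl rfl, by rw [cor h' δ hh'.le]⟩
      · obtain ⟨δ, rfl⟩ := Nat.exists_eq_add_of_le c
        refine ⟨δ, by omega, Or.inr rfl, ?_⟩
        rw [← cor h δ hh.le, ← Complex.norm_conj, map_sum]
        congr 1
        exact sum_congr rfl fun j _ => by rw [map_mul, Complex.conj_conj, mul_comm]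
    obtain ⟨δ, d1, d2, d3⟩ := e
    rw [d3]
    rcases lt_trichotomy h' h with c | c | c
    · rw [if_neg (by omega), if_pos c, if_neg (by omega), zero_add, add_zero,
        show h - h' = δ by omega]
      exact hB δ (by omega) d1
    · rw [if_pos c, if_neg (by omega), if_neg (by omega), add_zero, add_zero]
      exact hTN δ
    · rw [if_neg (by omega), if_neg (by omega), if_pos c, zero_add, zero_add,
        show h' - h = δ by omega]
      exact hB δ (by omega) d1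
  have e1 : (H : ℂ) * ∑ m ∈ range N, z m = ∑ j ∈ range (N + H), ∑ h ∈ range H, Z (j + h) := by
    rw [sum_comm, sum_congr rfl (g := fun _ => ∑ m ∈ range N, z m) fun h hh =>
      shift_sum z le_rfl (mem_range.1 hh).le]
    simp
  have e2 : ((∑ j ∈ range (N + H), ‖∑ h ∈ range H, Z (j + h)‖ ^ 2 : ℝ) : ℂ) =
      ∑ h ∈ range H, ∑ h' ∈ range H, ∑ j ∈ range (N + H),
        Z (j + h) * (starRingEnd ℂ) (Z (j + h')) := by
    push_cast
    rw [sum_congr rfl (g := fun j => ∑ h ∈ range H, ∑ h' ∈ range H,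
      Z (j + h) * (starRingEnd ℂ) (Z (j + h'))) fun j _ => by
        rw [← Complex.mul_conj', map_sum, sum_mul_sum], sum_comm]
    exact sum_congr rfl fun h _ => sum_comm
  have e3 : ∑ j ∈ range (N + H), ‖∑ h ∈ range H, Z (j + h)‖ ^ 2 ≤ H * (N + 2 * A) := by
    have a1 := congrArg norm e2
    rw [Complex.norm_real, Real.norm_of_nonneg (sum_nonneg fun _ _ => by positivity)] at a1
    rw [a1]
    refine (norm_sum_le _ _).trans ((sum_le_card_nsmul _ _ (N + 2 * A)
      fun h hh => ?_).trans (by rw [card_range, nsmul_eq_mul]))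
    refine (norm_sum_le _ _).trans ((sum_le_sum (cor2 h hh)).trans ?_)
    rw [sum_add_distrib, sum_add_distrib, sum_ite_eq' (range H) h, if_pos hh, ← sum_filter,
      ← sum_filter]
    rw [mem_range] at hh
    have c1 : ∑ h' ∈ (range H).filter (fun h' => h' < h), B (h - h') ≤ A := by
      refine yRecip_inj hB0 (g := fun h' => h - h') (fun x hx y hy e => ?_) fun x hx => ?_
      · simp only [coe_filter, mem_range, Set.mem_ofPred_eq] at hx hy e
        omega
      · simp only [mem_filter, mem_range, mem_Ico] at hx ⊢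
        omega
    have c2 : ∑ h' ∈ (range H).filter (fun h' => h < h'), B (h' - h) ≤ A := by
      refine yRecip_inj hB0 (g := fun h' => h' - h) (fun x hx y hy e => ?_) fun x hx => ?_
      · simp only [coe_filter, mem_range, Set.mem_ofPred_eq] at hx hy e
        omega
      · simp only [mem_filter, mem_range, mem_Ico] at hx ⊢
        omega
    linarith
  have e4 : (H : ℝ) * ‖∑ m ∈ range N, z m‖ ≤
      ∑ j ∈ range (N + H), ‖∑ h ∈ range H, Z (j + h)‖ := by
    have := norm_sum_le (range (N + H)) fun j => ∑ h ∈ range H, Z (j + h)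
    rwa [← e1, norm_mul, Complex.norm_natCast] at this
  have e5 := sq_sum_le_card_mul_sum_sq (s := range (N + H))
    (f := fun j => ‖∑ h ∈ range H, Z (j + h)‖)
  rw [card_range] at e5
  have e6 : ((N + H : ℕ) : ℝ) ≤ 2 * N := by exact_mod_cast (by omega : N + H ≤ 2 * N)
  have hH0 : (0 : ℝ) < H := by exact_mod_cast hH
  have e7 := pow_le_pow_left₀ (by positivity) e4 2
  have e8 := mul_le_mul e6 e3 (sum_nonneg fun _ _ => by positivity) (by positivity)
  have e9 : H * (‖∑ m ∈ range N, z m‖ ^ 2 * H) ≤ H * (2 * N ^ 2 + 4 * N * A) := by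
    nlinarith
  exact le_of_mul_le_mul_left e9 hH0

lemma yRecip_kus (f : ℝ → ℝ) (x0 : ℝ) (n : ℕ) {lam : ℝ} (hl : 0 < lam)
    (h : ∀ m : ℕ, m ≤ n → lam ≤ fd 1 f (x0 + m) ∧ fd 1 f (x0 + m) ≤ Real.pi ∧
      fd 2 f (x0 + m) ≤ 0) : ‖∑ m ∈ range n, ce (f (x0 + m))‖ ≤ 8 / lam := by
  refine kusmin (fun m => f (x0 + m)) n lam hl (fun m hm => ?_) (fun m hm => ?_)
  · have := h m hm
    simp only [fd] at this
    push_cast; rw [← add_assoc]; constructor <;> linarith
  · have := (h m hm).2.2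
    simp only [fd] at this
    push_cast
    rw [show x0 + (m + 2 : ℝ) = x0 + m + 1 + 1 by ring, ← add_assoc]; linarith

lemma yRecip_conj (x0 c : ℝ) (n : ℕ) :
    ‖∑ k ∈ range n, ce (-c / (x0 + k))‖ = ‖∑ k ∈ range n, ce (c / (x0 + k))‖ := by
  rw [← Complex.norm_conj, map_sum]
  congr 1
  refine sum_congr rfl fun k _ => ?_
  rw [conj_ce]; congr 1; ring

lemma yRecip_small {V : ℕ} (hV : 1 ≤ V) {c : ℝ} (hc : 0 < c) (h : c ≤ Real.pi * V ^ 2) :
    ‖∑ k ∈ range V, ce (c / ((V : ℝ) + 1 + k))‖ ≤ 96 * ((V : ℝ) ^ 2 / c) := by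
  have hV' : (1 : ℝ) ≤ V := by exact_mod_cast hV
  rw [← yRecip_conj]
  refine (yRecip_kus (fun s => -c / s) ((V : ℝ) + 1) V (lam := c / (12 * V ^ 2)) (by positivity)
    fun m hm => ?_).trans (le_of_eq (by field_simp; ring))
  have hm' : (m : ℝ) ≤ V := by exact_mod_cast hm
  have hm0 : (0 : ℝ) ≤ m := Nat.cast_nonneg _
  have ht : (0 : ℝ) < V + 1 + m := by positivity
  have e : fd 1 (fun s => -c / s) ((V : ℝ) + 1 + m) = c / ((V + 1 + m) * (V + 1 + m + 1)) := by
    simp only [fd]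
    field_simp
    ring
  refine ⟨?_, ?_, ?_⟩
  · rw [e]
    refine div_le_div_of_nonneg_left hc.le (by positivity) ?_
    calc ((V : ℝ) + 1 + m) * (V + 1 + m + 1) ≤ (3 * V) * (4 * V) := by
          gcongr <;> linarith
      _ = 12 * V ^ 2 := by ring
  · rw [e, div_le_iff₀ (by positivity)]
    refine h.trans (mul_le_mul_of_nonneg_left ?_ Real.pi_pos.le)
    rw [sq]
    gcongr <;> linarith
  · rw [es_fd2 _ _ ht]
    exact div_nonpos_of_nonpos_of_nonneg (by linarith) (by positivity)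

lemma yRecip_shift {V h : ℕ} (hV : 1 ≤ V) {c : ℝ} (hc : 0 < c) (h1 : 1 ≤ h) (h2 : h ≤ V)
    (h3 : (h : ℝ) * (2 * c / V ^ 3) ≤ Real.pi) :
    ‖∑ m ∈ range (V - h), ce (c / ((V : ℝ) + 1 + (m + h : ℕ))) *
      (starRingEnd ℂ) (ce (c / ((V : ℝ) + 1 + m)))‖ ≤ 8 / (h * (2 * c / (5 * V) ^ 3)) := by
  have hV' : (1 : ℝ) ≤ V := by exact_mod_cast hV
  have hh : (0 : ℝ) < h := by exact_mod_cast h1
  have e : ∑ m ∈ range (V - h), ce (c / ((V : ℝ) + 1 + (m + h : ℕ))) *
      (starRingEnd ℂ) (ce (c / ((V : ℝ) + 1 + m))) =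
      ∑ m ∈ range (V - h), ce ((fun y => (fun s => c / s) (y + h) - (fun s => c / s) y)
        ((V : ℝ) + 1 + m)) := by
    refine sum_congr rfl fun m _ => ?_
    rw [conj_ce, ← ce_add]; push_cast; rw [← add_assoc]; rfl
  rw [e]
  refine yRecip_kus (fun y => (fun s => c / s) (y + h) - (fun s => c / s) y) ((V : ℝ) + 1) (V - h)
    (lam := h * (2 * c / (5 * V) ^ 3)) (by positivity) fun m hm => ?_
  have hm0 : (0 : ℝ) ≤ m := Nat.cast_nonneg _
  have b3 : ∀ i ∈ range h, 2 * c / (5 * V) ^ 3 ≤ fd 2 (fun s => c / s) ((V : ℝ) + 1 + m + i) ∧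
      fd 2 (fun s => c / s) ((V : ℝ) + 1 + m + i) ≤ 2 * c / V ^ 3 ∧
      fd 3 (fun s => c / s) ((V : ℝ) + 1 + m + i) ≤ 0 := by
    intro i hi
    rw [mem_range] at hi
    have hi0 : (0 : ℝ) ≤ i := Nat.cast_nonneg _
    have hmi : (m : ℝ) + i ≤ V := by exact_mod_cast (by omega : m + i ≤ V)
    have ht : (0 : ℝ) < V + 1 + m + i := by positivity
    refine ⟨?_, ?_, es_fd3 c _ hc.le ht⟩
    · rw [es_fd2 c _ ht]
      refine div_le_div_of_nonneg_left (by positivity) (by positivity) ?_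
      calc ((V : ℝ) + 1 + m + i) * (V + 1 + m + i + 1) * (V + 1 + m + i + 2)
          ≤ (5 * V) * (5 * V) * (5 * V) := by gcongr <;> linarith
        _ = (5 * V) ^ 3 := by ring
    · rw [es_fd2 c _ ht]
      refine div_le_div_of_nonneg_left (by positivity) (by positivity) ?_
      calc (V : ℝ) ^ 3 = V * V * V := by ring
        _ ≤ _ := by gcongr <;> linarith
  rw [fd_tel, fd_tel]
  refine ⟨le_trans ?_ (card_nsmul_le_sum _ _ _ fun i hi => (b3 i hi).1),
    (sum_le_card_nsmul _ _ _ fun i hi => (b3 i hi).2.1).trans ?_,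
    sum_nonpos fun i hi => (b3 i hi).2.2⟩
  · rw [card_range, nsmul_eq_mul]
  · rw [card_range, nsmul_eq_mul]
    exact h3

lemma yRecip_harm {V H : ℕ} (h : H ≤ V) : ∑ k ∈ Ico 1 H, ((k : ℝ))⁻¹ ≤ 1 + Real.log V := by
  have h1 := harmonic_le_one_add_log V
  simp only [harmonic_eq_sum_Icc, Rat.cast_sum, Rat.cast_inv, Rat.cast_natCast] at h1
  refine le_trans (sum_le_sum_of_subset_of_nonneg (fun k hk => ?_) fun k _ _ => by positivity) h1
  rw [mem_Ico] at hk
  rw [mem_Icc]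
  omega

lemma yRecip_large {V : ℕ} (hV : 1 ≤ V) {c : ℝ} (hc : 0 < c) (h : Real.pi * V ^ 2 < c) :
    ‖∑ k ∈ range V, ce (c / ((V : ℝ) + 1 + k))‖ ^ 2 ≤
      3 * (c / V) + 2700 * (V * (1 + Real.log V)) := by
  have hV' : (1 : ℝ) ≤ V := by exact_mod_cast hV
  have hV0 : (0 : ℝ) < V := by linarith
  have hpi := Real.pi_gt_three
  have hL : 0 ≤ Real.log V := Real.log_nonneg hV'
  obtain ⟨x, hx⟩ : ∃ x : ℝ, x = Real.pi * V ^ 3 / (2 * c) := ⟨_, rfl⟩
  have hx0 : 0 < x := by rw [hx]; positivity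
  have hxc : x * (2 * c) = Real.pi * V ^ 3 := by rw [hx]; field_simp
  have hxV : x ≤ V := by
    rw [hx, div_le_iff₀ (by positivity)]
    nlinarith
  have hH1 : ((⌊x⌋₊ : ℕ) : ℝ) ≤ x := Nat.floor_le hx0.le
  have hH2 := Nat.lt_floor_add_one x
  generalize ⌊x⌋₊ = H at hH1 hH2
  have hHV : H ≤ V := by exact_mod_cast hH1.trans hxV
  by_cases hH : H ≤ 1
  · have a1 : (H : ℝ) ≤ 1 := by exact_mod_cast hH
    have a2 : ‖∑ k ∈ range V, ce (c / ((V : ℝ) + 1 + k))‖ ≤ V := by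
      refine (norm_sum_le _ _).trans (le_of_eq ?_)
      simp [norm_ce]
    have a3 : (V : ℝ) ^ 2 ≤ 3 * (c / V) := by
      rw [← mul_div_assoc, le_div_iff₀ hV0]
      have a4 : x * (2 * c) ≤ 2 * (2 * c) := mul_le_mul_of_nonneg_right (by linarith) (by positivity)
      have a5 : 3 * (V : ℝ) ^ 3 ≤ Real.pi * V ^ 3 :=
        mul_le_mul_of_nonneg_right hpi.le (by positivity)
      have a6 : (V : ℝ) ^ 2 * V = V ^ 3 := by ring
      linarith
    have a7 := pow_le_pow_left₀ (norm_nonneg _) a2 2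
    have a8 : 0 ≤ (V : ℝ) * (1 + Real.log V) := by positivity
    linarith
  · have hH' : (1 : ℝ) ≤ H := by exact_mod_cast (by omega : 1 ≤ H)
    have w := weyl_sum (fun m => ce (c / ((V : ℝ) + 1 + m))) (fun m => (norm_ce _).le)
      (N := V) (H := H) (B := fun h => 8 / (h * (2 * c / (5 * V) ^ 3))) (by omega) hHV
      (fun h => by positivity) fun k k1 k2 => yRecip_shift hV hc k1 (by omega) (by
        have b1 : (k : ℝ) ≤ x := le_trans (by exact_mod_cast k2.le) hH1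
        calc (k : ℝ) * (2 * c / V ^ 3) ≤ x * (2 * c / V ^ 3) := by gcongr
          _ = Real.pi := by rw [← mul_div_assoc, hxc]; field_simp)
    have e : ∑ h ∈ Ico 1 H, 8 / ((h : ℝ) * (2 * c / (5 * V) ^ 3)) =
        500 * V ^ 3 / c * ∑ h ∈ Ico 1 H, ((h : ℝ))⁻¹ := by
      rw [mul_sum]
      refine sum_congr rfl fun k hk => ?_
      have : (0 : ℝ) < k := by exact_mod_cast (mem_Ico.1 hk).1
      field_simp
      ring
    rw [e] at w
    have b1 := yRecip_harm hHV
    have b2 : 4 * (V : ℝ) * (500 * V ^ 3 / c * ∑ h ∈ Ico 1 H, ((h : ℝ))⁻¹) ≤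
        4 * V * (500 * V ^ 3 / c * (1 + Real.log V)) := by gcongr
    have b3 : 3 * (V : ℝ) ^ 3 / (4 * c) ≤ H := by
      rw [div_le_iff₀ (by positivity)]
      have a4 : x * (2 * c) ≤ (2 * H) * (2 * c) :=
        mul_le_mul_of_nonneg_right (by linarith) (by positivity)
      have a5 : 3 * (V : ℝ) ^ 3 ≤ Real.pi * V ^ 3 :=
        mul_le_mul_of_nonneg_right hpi.le (by positivity)
      linarith
    have b4 : 2 * (V : ℝ) ^ 2 + 4 * V * (500 * V ^ 3 / c * (1 + Real.log V)) =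
        (8 / 3 * (c / V) + 8000 / 3 * (V * (1 + Real.log V))) * (3 * V ^ 3 / (4 * c)) := by
      field_simp
      ring
    have b5 : 0 ≤ c / V := by positivity
    have b6 : 0 ≤ (V : ℝ) * (1 + Real.log V) := by positivity
    have b7 : (8 / 3 * (c / V) + 8000 / 3 * (V * (1 + Real.log V))) * (3 * V ^ 3 / (4 * c)) ≤
        (3 * (c / V) + 2700 * (V * (1 + Real.log V))) * H :=
      mul_le_mul (by linarith) b3 (by positivity) (by positivity)
    exact le_of_mul_le_mul_right (by linarith) (show (0 : ℝ) < H by linarith)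

theorem recip_sum {V : ℕ} (hV : 1 ≤ V) {c : ℝ} (hc : c ≠ 0) :
    ‖∑ v ∈ Ioc V (2 * V), ce (c / v)‖
      ≤ 100 * (√(|c| / V) + √(V * (1 + Real.log V)) + (V : ℝ) ^ 2 / |c|) := by
  have hV' : (1 : ℝ) ≤ V := by exact_mod_cast hV
  have hL : 0 ≤ Real.log V := Real.log_nonneg hV'
  have e : ∑ v ∈ Ioc V (2 * V), ce (c / v) = ∑ k ∈ range V, ce (c / ((V : ℝ) + 1 + k)) := by
    rw [← Finset.Ico_add_one_add_one_eq_Ioc, sum_Ico_eq_sum_range,
      show 2 * V + 1 - (V + 1) = V by omega]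
    refine sum_congr rfl fun k _ => ?_
    push_cast
    rfl
  have e' : ‖∑ k ∈ range V, ce (c / ((V : ℝ) + 1 + k))‖ =
      ‖∑ k ∈ range V, ce (|c| / ((V : ℝ) + 1 + k))‖ := by
    rcases le_total 0 c with h | h
    · rw [abs_of_nonneg h]
    · rw [abs_of_nonpos h, yRecip_conj]
  rw [e, e']
  have hc' : 0 < |c| := abs_pos.2 hc
  generalize |c| = d at hc'
  have a0 : 0 ≤ d / V := by positivity
  have b0 : 0 ≤ (V : ℝ) * (1 + Real.log V) := by positivity
  have a1 := Real.sqrt_nonneg (d / V)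
  have b1 := Real.sqrt_nonneg (V * (1 + Real.log V))
  have c1 : 0 ≤ (V : ℝ) ^ 2 / d := by positivity
  rcases le_or_gt d (Real.pi * V ^ 2) with h | h
  · have := yRecip_small hV hc' h
    linarith
  · have h1 := yRecip_large hV hc' h
    have a2 := Real.sq_sqrt a0
    have b2 := Real.sq_sqrt b0
    have h2 : ‖∑ k ∈ range V, ce (d / ((V : ℝ) + 1 + k))‖ ≤
        100 * (√(d / V) + √(V * (1 + Real.log V))) := by
      refine (pow_le_pow_iff_left₀ (norm_nonneg _) (by positivity) two_ne_zero).1 (h1.trans ?_)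
      have := mul_nonneg a1 b1
      nlinarith
    linarith

end Pool.Agent.Work.MP_82fd4a_nt.Y
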