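import Pool.Agent.Work.MP_82fd4a_nt.Y.TypeI
import Pool.Agent.Work.MP_82fd4a_nt.Y.Defs
import Pool.Agent.Work.MP_82fd4a_nt.NSumI
import Pool.Agent.Work.MP_82fd4a_nt.SumI

/-! The linear part of the third decomposition. -/

set_option autoImplicit false
open Filter Topology Finset

namespace Pool.Agent.Work.MP_82fd4a_nt.Y

lemma ySumI_tau_le {c : ℝ} (hc : 0 < c) (k : ℕ) :
    ∀ᶠ x : ℕ in atTop, ∀ n : ℕ, n ≤ x → 2 * tau n ^ k ≤ (x : ℝ) ^ c := by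
  have hε : 0 < c / (2 * (k + 1)) := by positivity
  obtain ⟨C, hC1, hC⟩ := Pool.Agent.Lib.ANT.exists_card_divisors_le _ hε
  filter_upwards [su_ev (2 * C ^ k) (half_pos hc), eventually_ge_atTop 1] with x hx hx1 n hn
  have hx1' : (1 : ℝ) ≤ x := by exact_mod_cast hx1
  have h1 : tau n ≤ C * (x : ℝ) ^ (c / (2 * (k + 1))) := by
    refine (hC n).trans ?_
    gcongr
  have h2 : tau n ^ k ≤ C ^ k * (x : ℝ) ^ (c / 2) := by
    refine (pow_le_pow_left₀ (tau_nonneg n) h1 k).trans ?_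
    rw [mul_pow, ← Real.rpow_natCast ((x : ℝ) ^ _), ← Real.rpow_mul (by linarith)]
    gcongr
    rw [div_mul_eq_mul_div, div_le_div_iff₀ (by positivity) (by positivity)]
    nlinarith
  have h3 : (x : ℝ) ^ c = (x : ℝ) ^ (c / 2) * (x : ℝ) ^ (c / 2) := by
    rw [← Real.rpow_add (by linarith)]; ring_nf
  have h4 : 0 ≤ (x : ℝ) ^ (c / 2) := by positivity
  rw [h3]
  nlinarith

lemma ySumI_coef {ι : Type*} (P : Finset ι) (φ : ι → ℕ) (w : ι → ℝ) {x k : ℕ} {B : ℝ}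
    (hB : 0 ≤ B) (hP : ∀ p ∈ P, φ p ≤ x) (hτ : ∀ n : ℕ, n ≤ x → 2 * tau n ^ (k + 1) ≤ B)
    (hw : ∀ p ∈ P, |w p| ≤ 2 * tau (φ p))
    (hc : ∀ p ∈ P, (#{q ∈ P | φ q = φ p} : ℝ) ≤ tau (φ p) ^ k) (r : ℕ) :
    |∑ p ∈ P with φ p = r, w p| ≤ B := by
  rcases (P.filter fun p => φ p = r).eq_empty_or_nonempty with h | ⟨p, hp⟩
  · rw [h]
    simpa using hB
  · obtain ⟨hp', rfl⟩ := mem_filter.1 hp
    refine (abs_sum_le_sum_abs _ _).trans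
      ((sum_le_card_nsmul _ _ (2 * tau (φ p)) fun q hq => ?_).trans ?_)
    · rw [← (mem_filter.1 hq).2]
      exact hw q (mem_filter.1 hq).1
    · rw [nsmul_eq_mul]
      refine (mul_le_mul_of_nonneg_right (hc p hp')
        (mul_nonneg zero_le_two (tau_nonneg _))).trans (le_trans (le_of_eq ?_) (hτ _ (hP p hp')))
      ring

lemma ySumI_card1 {K J : ℕ} (P : Finset ((Ix K J → ℕ) × ℕ)) {m : ℕ} (hm : m ≠ 0) :
    (#{p ∈ P | qbR p = m} : ℝ) ≤ tau m ^ (K + J + 1) := by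
  have h : {p ∈ P | qbR p = m}
      ⊆ Fintype.piFinset (fun _ : Ix K J => m.divisors) ×ˢ m.divisors := by
    intro p hp
    obtain ⟨_, rfl⟩ := mem_filter.1 hp
    rw [mem_product, Fintype.mem_piFinset]
    refine ⟨fun i => Nat.mem_divisors.2 ⟨?_, hm⟩, Nat.mem_divisors.2 ⟨dvd_mul_left _ _, hm⟩⟩
    exact (dvd_prod_of_mem _ (mem_univ i)).mul_right _
  have h2 := card_le_card h
  rw [card_product, Fintype.card_piFinset, prod_const, card_univ] at h2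
  have h3 : Fintype.card (Ix K J) = K + J := by simp
  rw [h3] at h2
  unfold tau
  rw [pow_succ]
  exact_mod_cast h2

lemma ySumI_card2 {K J : ℕ} (P : Finset ((ℕ × ℕ) × ((Ix K J → ℕ) × ℕ))) {m : ℕ} (hm : m ≠ 0) :
    (#{p ∈ P | p.1.1 * p.1.2 * qbR p.2 = m} : ℝ) ≤ tau m ^ (K + J + 3) := by
  have h : {p ∈ P | p.1.1 * p.1.2 * qbR p.2 = m} ⊆ (m.divisors ×ˢ m.divisors) ×ˢ
      (Fintype.piFinset (fun _ : Ix K J => m.divisors) ×ˢ m.divisors) := by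
    intro p hp
    obtain ⟨_, rfl⟩ := mem_filter.1 hp
    rw [mem_product, mem_product, mem_product, Fintype.mem_piFinset]
    refine ⟨⟨Nat.mem_divisors.2 ⟨(dvd_mul_right _ _).mul_right _, hm⟩,
      Nat.mem_divisors.2 ⟨(dvd_mul_left _ _).mul_right _, hm⟩⟩,
      fun i => Nat.mem_divisors.2 ⟨?_, hm⟩,
      Nat.mem_divisors.2 ⟨(dvd_mul_left _ _).mul_left _, hm⟩⟩
    exact ((dvd_prod_of_mem _ (mem_univ i)).mul_right _).mul_left _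
  have h2 := card_le_card h
  rw [card_product, card_product, card_product, Fintype.card_piFinset, prod_const,
    card_univ] at h2
  have h3 : Fintype.card (Ix K J) = K + J := by simp
  rw [h3] at h2
  unfold tau
  have h4 : #m.divisors * #m.divisors * (#m.divisors ^ (K + J) * #m.divisors)
      = #m.divisors ^ (K + J + 3) := by ring
  rw [h4] at h2
  exact_mod_cast h2

lemma ySumI_logR {K J : ℕ} {Λ : ℝ} (hΛ : 0 ≤ Λ) {I : Finset (Ix K J)}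
    {t : (Ix K J → ℕ) × ℕ} (h : t.1 ∈ qbTup K J Λ I) (hd : 1 ≤ t.2) :
    0 < qbR t ∧ Real.log (qbR t) ≤ ∑ i ∈ I, nicHi K J Λ i + Real.log t.2 := by
  have h0 : 0 < ∏ i, t.1 i := by
    refine prod_pos fun i _ => ?_
    by_cases hi : i ∈ I
    · exact (prime_of_mem_stP ((qb_mem_tup.1 h i).1 hi)).pos
    · rw [(qb_mem_tup.1 h i).2 hi]
      exact one_pos
  refine ⟨Nat.mul_pos h0 hd, ?_⟩
  unfold qbR
  rw [Nat.cast_mul, Real.log_mul (by exact_mod_cast h0.ne') (by exact_mod_cast (by omega : t.2 ≠ 0))]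
  have := nic_log_le hΛ h
  linarith

lemma ySumI_regroup {ι κ : Type*} (P : Finset ι) (Q : Finset κ) (φ : ι → ℕ) (ψ : κ → ℕ)
    (w : κ → ℝ) (F : ℕ → ℝ) :
    ∑ v ∈ P.image φ, ∑ u ∈ Q.image ψ,
      (∑ p ∈ P with φ p = v, (1 : ℝ)) * (∑ q ∈ Q with ψ q = u, w q) * F (v * u)
      = ∑ p ∈ P, ∑ q ∈ Q, w q * F (φ p * ψ q) := by
  have h1 : ∀ v, ∑ u ∈ Q.image ψ, (∑ q ∈ Q with ψ q = u, w q) * F (v * u)
      = ∑ q ∈ Q, w q * F (v * ψ q) := fun v => (si_regroup Q ψ w fun u => F (v * u)).symm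
  have h2 := si_regroup P φ (fun _ => 1) fun v => ∑ q ∈ Q, w q * F (v * ψ q)
  simp only [one_mul] at h2
  rw [h2]
  refine sum_congr rfl fun v _ => ?_
  rw [← h1, mul_sum]
  refine sum_congr rfl fun u _ => ?_
  ring

lemma ySumI_apply {ι κ : Type*} {x k₁ k₂ : ℕ} {T A B D R : ℝ} (hD : 0 ≤ D) (hA : A ≤ x)
    (hB : B ≤ x) (h₁ : ∀ n : ℕ, n ≤ x → 2 * tau n ^ (k₁ + 1) ≤ D)
    (h₂ : ∀ n : ℕ, n ≤ x → 2 * tau n ^ (k₂ + 1) ≤ D)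
    (hx : ∀ (Vs Us : Finset ℕ) (a b : ℕ → ℝ), (∀ v ∈ Vs, 1 ≤ v ∧ (v : ℝ) ≤ A) →
      (∀ u ∈ Us, 1 ≤ u ∧ (u : ℝ) ≤ B) → (∀ v, |a v| ≤ D) → (∀ u, |b u| ≤ D) →
      |∑ v ∈ Vs, ∑ u ∈ Us, a v * b u *
        (∑ n ∈ Icc 1 (2 * x), gk x T (v * u * n) - Gam x T / (v * u))| ≤ R)
    (P : Finset ι) (Q : Finset κ) (φ : ι → ℕ) (ψ : κ → ℕ) (w : κ → ℝ)
    (hV : ∀ p ∈ P, 1 ≤ φ p ∧ (φ p : ℝ) ≤ A) (hU : ∀ q ∈ Q, 1 ≤ ψ q ∧ (ψ q : ℝ) ≤ B)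
    (hw : ∀ q ∈ Q, |w q| ≤ 2 * tau (ψ q))
    (c₁ : ∀ m, m ≠ 0 → (#{p ∈ P | φ p = m} : ℝ) ≤ tau m ^ k₁)
    (c₂ : ∀ m, m ≠ 0 → (#{q ∈ Q | ψ q = m} : ℝ) ≤ tau m ^ k₂) :
    |∑ p ∈ P, ∑ q ∈ Q, w q * (sG x T (φ p * ψ q) - Gam x T / ((φ p * ψ q : ℕ) : ℝ))| ≤ R := by
  have a1 := ySumI_coef P φ (fun _ => 1) hD
    (fun p hp => by exact_mod_cast (hV p hp).2.trans hA) h₁
    (fun p hp => by
      have h4 : 1 ≤ #(φ p).divisors :=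
        card_pos.2 ⟨1, Nat.one_mem_divisors.2 (by have := (hV p hp).1; omega)⟩
      have h5 : (1 : ℝ) ≤ tau (φ p) := by unfold tau; exact_mod_cast h4
      rw [abs_one]
      linarith)
    (fun p hp => c₁ _ (by have := (hV p hp).1; omega))
  have a2 := ySumI_coef Q ψ w hD (fun q hq => by exact_mod_cast (hU q hq).2.trans hB) h₂ hw
    (fun q hq => c₂ _ (by have := (hU q hq).1; omega))
  have key := hx (P.image φ) (Q.image ψ) (fun v => ∑ p ∈ P with φ p = v, (1 : ℝ))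
    (fun u => ∑ q ∈ Q with ψ q = u, w q)
    (fun v hv => by
      obtain ⟨t, ht, rfl⟩ := mem_image.1 hv
      exact hV t ht)
    (fun u hu => by
      obtain ⟨q, hq, rfl⟩ := mem_image.1 hu
      exact hU q hq) a1 a2
  rw [← ySumI_regroup P Q φ ψ w fun n => sG x T n - Gam x T / n]
  simp only [← Nat.cast_mul] at key
  exact key

lemma ySumI_rearr {K J : ℕ} (Λ : ℝ) (I : Finset (Ix K J)) (S D₁ D₂ E : Finset ℕ) (f F : ℕ → ℝ) :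
    ∑ p ∈ S ×ˢ tup K J Λ, ∑ d₁ ∈ D₁, ∑ d₂ ∈ D₂, tau p.1 * ∑ e ∈ E, f e *
        F (p.1 * (∏ i, p.2 i) * d₁ * d₂ * e)
      = ∑ t ∈ qbTup K J Λ I ×ˢ D₂, ∑ q ∈ (S ×ˢ E) ×ˢ (qbTup K J Λ Iᶜ ×ˢ D₁),
        tau q.1.1 * f q.1.2 * F (qbR t * (q.1.1 * q.1.2 * qbR q.2)) := by
  have h1 : ∀ t : (Ix K J → ℕ) × ℕ, ∑ q ∈ (S ×ˢ E) ×ˢ (qbTup K J Λ Iᶜ ×ˢ D₁),
      tau q.1.1 * f q.1.2 * F (qbR t * (q.1.1 * q.1.2 * qbR q.2))
      = ∑ s ∈ S, tau s * ∑ e ∈ E, ∑ u ∈ qbTup K J Λ Iᶜ ×ˢ D₁,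
        f e * F (s * qbR t * (e * qbR u)) := by
    intro t
    rw [sum_product, sum_product]
    refine sum_congr rfl fun s _ => ?_
    rw [mul_sum]
    refine sum_congr rfl fun e _ => ?_
    rw [mul_sum]
    refine sum_congr rfl fun u _ => ?_
    rw [show qbR t * (s * e * qbR u) = s * qbR t * (e * qbR u) by ring, mul_assoc]
  rw [sum_congr rfl fun t _ => h1 t, sum_comm (s := qbTup K J Λ I ×ˢ D₂), sum_product]
  refine sum_congr rfl fun s _ => ?_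
  have h2 := nic_rearr Λ I {s} D₁ D₂ E f F
  rw [sum_singleton, sum_singleton] at h2
  rw [← mul_sum, ← h2]
  simp only [mul_sum]

theorem si3_typeI {a H ε : ℝ} (ha : 0 < a) (hH : 1 ≤ H) (hε : 0 < ε) {K J : ℕ} (hK : 1 ≤ K)
    (hJ : 1 ≤ J) : ∀ᶠ x : ℕ in atTop, ∀ (S D₁ D₂ E : Finset ℕ) (f : ℕ → ℝ),
    (∀ s ∈ S, 1 ≤ s ∧ Real.log s ≤ a * Real.log x / 8) →
    (∀ d ∈ D₁, 1 ≤ d ∧ Real.log d + 2 * K * (a * Real.log x) + 2 * (a * Real.log x)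
      ≤ (1 / 8 - 1 / 600) * Real.log x) →
    (∀ d ∈ D₂, 1 ≤ d ∧ Real.log d + J * (a * Real.log x / 2)
      ≤ Real.log x / 2 + a * Real.log x / 8) →
    (∀ e ∈ E, 1 ≤ e ∧ (e : ℝ) ≤ (x : ℝ) ^ (1 / 2000 : ℝ)) → (∀ e, |f e| ≤ 2) →
    ∀ T : ℝ, Real.log x ^ 2 ≤ T → T ≤ H * √(x : ℝ) →
    |∑ p ∈ S ×ˢ tup K J (a * Real.log x), ∑ d₁ ∈ D₁, ∑ d₂ ∈ D₂, tau p.1 * ∑ e ∈ E, f e *
      (sG x T (p.1 * (∏ i, p.2 i) * d₁ * d₂ * e)
        - Gam x T / ((p.1 * (∏ i, p.2 i) * d₁ * d₂ * e : ℕ) : ℝ))| ≤ ε * Gam x T := by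
  obtain ⟨c, hc, hc1, hc2⟩ : ∃ c : ℝ, 0 < c ∧ c ≤ a / 60 ∧ c ≤ 1 / 20000 :=
    ⟨min (a / 60) (1 / 20000), lt_min (by positivity) (by norm_num), min_le_left _ _,
      min_le_right _ _⟩
  filter_upwards [typeI3 hc hc2 hH, ySumI_tau_le hc (K + J + 1 + 1),
    ySumI_tau_le hc (K + J + 3 + 1), su_ev (1 / ε) hc, eventually_ge_atTop 1]
    with x hx h1 h2 h3 hx1 S D₁ D₂ E f hS hD₁ hD₂ hE hf T hT hT'
  have hx1' : (1 : ℝ) ≤ x := by exact_mod_cast hx1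
  have hx0 : (0 : ℝ) < x := by linarith
  have hL : 0 ≤ Real.log x := Real.log_nonneg hx1'
  have hcL1 := mul_le_mul_of_nonneg_right hc1 hL
  have hcL2 := mul_le_mul_of_nonneg_right hc2 hL
  have hΛ0 : 0 ≤ a * Real.log x := by positivity
  have hxc : 0 < (x : ℝ) ^ c := by positivity
  have hle : ∀ θ : ℝ, θ ≤ 1 → (x : ℝ) ^ θ ≤ x := by
    intro θ hθ
    have h5 : (x : ℝ) ^ θ ≤ x ^ (1 : ℝ) := Real.rpow_le_rpow_of_exponent_le hx1' hθ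
    rwa [Real.rpow_one] at h5
  have hV : ∀ t ∈ qbTup K J (a * Real.log x) (coarse K J (J - 1)) ×ˢ D₂,
      1 ≤ qbR t ∧ (qbR t : ℝ) ≤ (x : ℝ) ^ (1 / 2 - 20 * c) := by
    intro t ht
    obtain ⟨t1, t2⟩ := mem_product.1 ht
    obtain ⟨b0, b1⟩ := ySumI_logR hΛ0 t1 (hD₂ _ t2).1
    refine ⟨b0, ?_⟩
    rw [Real.le_rpow_iff_log_le (by exact_mod_cast b0) hx0]
    rw [nic_sum_coarse (Nat.sub_le J 1)] at b1
    have b2 := su_frac (Nat.sub_le J 1) hΛ0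
    rw [Nat.cast_sub hJ] at b1 b2
    have b3 := (hD₂ _ t2).2
    push_cast at b1 b2
    linarith
  have hU : ∀ q ∈ (S ×ˢ E) ×ˢ (qbTup K J (a * Real.log x) (coarse K J (J - 1))ᶜ ×ˢ D₁),
      1 ≤ q.1.1 * q.1.2 * qbR q.2 ∧
        ((q.1.1 * q.1.2 * qbR q.2 : ℕ) : ℝ) ≤ (x : ℝ) ^ (1 / 8 - 20 * c) := by
    intro q hq
    obtain ⟨q1, q2⟩ := mem_product.1 hq
    obtain ⟨s1, e1⟩ := mem_product.1 q1
    obtain ⟨t1, t2⟩ := mem_product.1 q2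
    obtain ⟨b0, b1⟩ := ySumI_logR hΛ0 t1 (hD₁ _ t2).1
    obtain ⟨s2, s3⟩ := hS _ s1
    obtain ⟨e2, e3⟩ := hE _ e1
    have p1 : (0 : ℝ) < q.1.1 := by exact_mod_cast s2
    have p2 : (0 : ℝ) < q.1.2 := by exact_mod_cast e2
    have p3 : (0 : ℝ) < qbR q.2 := by exact_mod_cast b0
    refine ⟨Nat.mul_pos (Nat.mul_pos s2 e2) b0, ?_⟩
    rw [Real.le_rpow_iff_log_le p2 hx0] at e3
    rw [Nat.cast_mul, Nat.cast_mul, Real.le_rpow_iff_log_le (by positivity) hx0,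
      Real.log_mul (by positivity) p3.ne', Real.log_mul p1.ne' p2.ne']
    have b2 := nic_sum_compl (K := K) hJ hΛ0
    have b3 := (hD₁ _ t2).2
    linarith
  have hw : ∀ q ∈ (S ×ˢ E) ×ˢ (qbTup K J (a * Real.log x) (coarse K J (J - 1))ᶜ ×ˢ D₁),
      |tau q.1.1 * f q.1.2| ≤ 2 * tau (q.1.1 * q.1.2 * qbR q.2) := by
    intro q hq
    have h5 : q.1.1 * q.1.2 * qbR q.2 ≠ 0 := Nat.pos_iff_ne_zero.1 (hU q hq).1
    have h4 : tau q.1.1 ≤ tau (q.1.1 * q.1.2 * qbR q.2) := by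
      unfold tau
      exact Nat.cast_le.2 (card_le_card (Nat.divisors_subset_of_dvd h5
        ((dvd_mul_right _ _).mul_right _)))
    rw [abs_mul, abs_of_nonneg (tau_nonneg _), mul_comm]
    exact mul_le_mul (hf _) h4 (tau_nonneg _) zero_le_two
  have key := ySumI_apply (T := T) (R := Gam x T * (x : ℝ) ^ (-c)) hxc.le
    (hle (1 / 2 - 20 * c) (by linarith)) (hle (1 / 8 - 20 * c) (by linarith)) h1 h2
    (fun Vs Us a b v1 u1 a1 b1 => hx Vs Us a b v1 u1 a1 b1 T hT hT')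
    (qbTup K J (a * Real.log x) (coarse K J (J - 1)) ×ˢ D₂)
    ((S ×ˢ E) ×ˢ (qbTup K J (a * Real.log x) (coarse K J (J - 1))ᶜ ×ˢ D₁)) qbR
    (fun q => q.1.1 * q.1.2 * qbR q.2) (fun q => tau q.1.1 * f q.1.2) hV hU hw
    (fun m hm => ySumI_card1 _ hm) (fun m hm => ySumI_card2 _ hm)
  have hG : 0 ≤ Gam x T := sum_nonneg fun n _ => gk_nonneg _ _ _
  have h4 : (x : ℝ) ^ (-c) ≤ ε := by
    rw [Real.rpow_neg hx0.le, inv_le_comm₀ hxc hε, ← one_div]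
    exact h3
  rw [ySumI_rearr (a * Real.log x) (coarse K J (J - 1)) S D₁ D₂ E f
    fun n => sG x T n - Gam x T / n]
  refine key.trans ?_
  rw [mul_comm]
  exact mul_le_mul_of_nonneg_right h4 hG

/-- one value of the parameter: the normalised sum is close to a main term -/
lemma ySumI_one (x : ℕ) (T z b Λ : ℝ) (K J : ℕ) (S E : Finset ℕ)
    (lam : Multiset ℕ → Multiset ℕ → ℝ) (ls err : ℕ → ℝ) {δ B₁ B₂ : ℝ}
    (hG : 0 < Gam x T) (hS : ∀ s ∈ S, 1 ≤ s) (hE : ∀ e ∈ E, 1 ≤ e)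
    (h : ∀ n : ℕ, 1 ≤ n → |rf z n - ∑ e ∈ E with e ∣ n, ls e| ≤ ∑ e ∈ E with e ∣ n, err e)
    (h1 : |∑ p ∈ S ×ˢ tup K J Λ, ∑ d₁ ∈ (Icc 1 (2 * x)).filter (Rough z),
      ∑ d₂ ∈ (Icc 1 (2 * x)).filter (Rough z), lam (ty b d₁) (ty b d₂) *
        (tau p.1 * ∑ e ∈ E, ls e * (sG x T (p.1 * (∏ i, p.2 i) * d₁ * d₂ * e)
          - Gam x T / ((p.1 * (∏ i, p.2 i) * d₁ * d₂ * e : ℕ) : ℝ)))| ≤ δ * Gam x T)
    (h2 : |∑ p ∈ S ×ˢ tup K J Λ, ∑ d₁ ∈ (Icc 1 (2 * x)).filter (Rough z),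
      ∑ d₂ ∈ (Icc 1 (2 * x)).filter (Rough z), |lam (ty b d₁) (ty b d₂)| *
        (tau p.1 * ∑ e ∈ E, err e * (sG x T (p.1 * (∏ i, p.2 i) * d₁ * d₂ * e)
          - Gam x T / ((p.1 * (∏ i, p.2 i) * d₁ * d₂ * e : ℕ) : ℝ)))| ≤ δ * Gam x T)
    (hB₁ : ∑ d₁ ∈ (Icc 1 (2 * x)).filter (Rough z), ∑ d₂ ∈ (Icc 1 (2 * x)).filter (Rough z),
      |lam (ty b d₁) (ty b d₂)| * (1 / ((d₁ : ℝ) * d₂)) ≤ B₁)
    (hB₂ : ∑ e ∈ E, err e / e ≤ B₂) (hB : 0 ≤ B₂) :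
    |SS x T K J Λ S tau (fun n => rf z n * Phi2 b lam n) / Gam x T
      - ∑ p ∈ S ×ˢ tup K J Λ, ∑ d₁ ∈ (Icc 1 (2 * x)).filter (Rough z),
        ∑ d₂ ∈ (Icc 1 (2 * x)).filter (Rough z), lam (ty b d₁) (ty b d₂) *
          (tau p.1 * ∑ e ∈ E, ls e * (1 / ((p.1 * (∏ i, p.2 i) * d₁ * d₂ * e : ℕ) : ℝ)))|
      ≤ WW K J Λ S tau * (B₁ * B₂) + 2 * δ := by
  set P := S ×ˢ tup K J Λ with hP
  set D := (Icc 1 (2 * x)).filter (Rough z) with hD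
  have hD1 : ∀ d ∈ D, 0 < d := fun d hd => (mem_Icc.1 (mem_filter.1 hd).1).1
  have hP1 : ∀ p ∈ P, 0 < p.1 * ∏ i, p.2 i := fun p hp =>
    Nat.mul_pos (hS _ (mem_product.1 hp).1) (prod_pos_of_mem_tup (mem_product.1 hp).2 univ)
  have e1 : SS x T K J Λ S tau (fun n => rf z n * Phi2 b lam n)
      = ∑ p ∈ P, ∑ d₁ ∈ D, ∑ d₂ ∈ D, lam (ty b d₁) (ty b d₂) * (tau p.1 *
          ∑ k ∈ Icc 1 (2 * x), rf z k * gk x T (p.1 * (∏ i, p.2 i) * d₁ * d₂ * k)) := by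
    unfold SS
    rw [← sum_product']
    refine sum_congr rfl fun p hp => ?_
    have h3 := n2_expand x T z b lam (hP1 p hp)
    calc _ = tau p.1 * ∑ n ∈ Icc 1 (2 * x),
          rf z n * Phi2 b lam n * gk x T (p.1 * (∏ i, p.2 i) * n) := by
          rw [mul_sum]
          exact sum_congr rfl fun n _ => mul_assoc _ _ _
      _ = _ := by
          rw [h3, mul_sum]
          refine sum_congr rfl fun d₁ _ => ?_
          rw [mul_sum]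
          exact sum_congr rfl fun d₂ _ => mul_left_comm _ _ _
  have e2 : |SS x T K J Λ S tau (fun n => rf z n * Phi2 b lam n)
      - ∑ p ∈ P, ∑ d₁ ∈ D, ∑ d₂ ∈ D, lam (ty b d₁) (ty b d₂) * (tau p.1 *
          ∑ e ∈ E, ls e * sG x T (p.1 * (∏ i, p.2 i) * d₁ * d₂ * e))|
      ≤ ∑ p ∈ P, ∑ d₁ ∈ D, ∑ d₂ ∈ D, |lam (ty b d₁) (ty b d₂)| * (tau p.1 *
          ∑ e ∈ E, err e * sG x T (p.1 * (∏ i, p.2 i) * d₁ * d₂ * e)) := by
    rw [e1, ← sum_sub_distrib]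
    refine (abs_sum_le_sum_abs _ _).trans (sum_le_sum fun p hp => ?_)
    rw [← sum_sub_distrib]
    refine (abs_sum_le_sum_abs _ _).trans (sum_le_sum fun d₁ h₁ => ?_)
    rw [← sum_sub_distrib]
    refine (abs_sum_le_sum_abs _ _).trans (sum_le_sum fun d₂ h₂ => ?_)
    rw [← mul_sub, abs_mul, ← mul_sub, abs_mul, abs_of_nonneg (tau_nonneg _)]
    refine mul_le_mul_of_nonneg_left (mul_le_mul_of_nonneg_left ?_ (tau_nonneg _)) (abs_nonneg _)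
    exact si_sieve x T z (Nat.mul_pos (Nat.mul_pos (hP1 p hp) (hD1 _ h₁)) (hD1 _ h₂)) E hE ls err h
  have split : ∀ (g : ℕ → ℕ → ℝ) (φ : ℕ → ℝ), ∑ p ∈ P, ∑ d₁ ∈ D, ∑ d₂ ∈ D,
        g d₁ d₂ * (tau p.1 * ∑ e ∈ E, φ e * (sG x T (p.1 * (∏ i, p.2 i) * d₁ * d₂ * e)
          - Gam x T / ((p.1 * (∏ i, p.2 i) * d₁ * d₂ * e : ℕ) : ℝ)))
      = ∑ p ∈ P, ∑ d₁ ∈ D, ∑ d₂ ∈ D,
          g d₁ d₂ * (tau p.1 * ∑ e ∈ E, φ e * sG x T (p.1 * (∏ i, p.2 i) * d₁ * d₂ * e))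
        - Gam x T * ∑ p ∈ P, ∑ d₁ ∈ D, ∑ d₂ ∈ D, g d₁ d₂ * (tau p.1 * ∑ e ∈ E, φ e *
          (1 / ((p.1 * (∏ i, p.2 i) * d₁ * d₂ * e : ℕ) : ℝ))) := by
    intro g φ
    simp only [mul_sum, ← sum_sub_distrib]
    refine sum_congr rfl fun p _ => sum_congr rfl fun d₁ _ => sum_congr rfl fun d₂ _ =>
      sum_congr rfl fun e _ => ?_
    ring
  rw [split (fun d₁ d₂ => lam (ty b d₁) (ty b d₂))] at h1
  rw [split (fun d₁ d₂ => |lam (ty b d₁) (ty b d₂)|)] at h2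
  have e3 : ∑ p ∈ P, ∑ d₁ ∈ D, ∑ d₂ ∈ D, |lam (ty b d₁) (ty b d₂)| * (tau p.1 *
        ∑ e ∈ E, err e * (1 / ((p.1 * (∏ i, p.2 i) * d₁ * d₂ * e : ℕ) : ℝ)))
      = WW K J Λ S tau * ((∑ d₁ ∈ D, ∑ d₂ ∈ D,
        |lam (ty b d₁) (ty b d₂)| * (1 / ((d₁ : ℝ) * d₂))) * ∑ e ∈ E, err e / e) := by
    have hWW : WW K J Λ S tau = ∑ p ∈ P, tau p.1 / p.1 * ((∏ i, p.2 i : ℕ) : ℝ)⁻¹ := by
      unfold WW Psi
      rw [sum_mul_sum S, ← sum_product']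
    rw [hWW, sum_mul]
    refine sum_congr rfl fun p _ => ?_
    rw [sum_mul, mul_sum]
    refine sum_congr rfl fun d₁ _ => ?_
    rw [sum_mul, mul_sum]
    refine sum_congr rfl fun d₂ _ => ?_
    simp only [mul_sum]
    refine sum_congr rfl fun e _ => ?_
    push_cast
    ring
  have hW : 0 ≤ WW K J Λ S tau :=
    mul_nonneg (sum_nonneg fun s _ => div_nonneg (tau_nonneg s) (Nat.cast_nonneg s))
      (Psi_nonneg _ _ _)
  have hDn : 0 ≤ ∑ d₁ ∈ D, ∑ d₂ ∈ D, |lam (ty b d₁) (ty b d₂)| * (1 / ((d₁ : ℝ) * d₂)) :=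
    sum_nonneg fun _ _ => sum_nonneg fun _ _ => by positivity
  have e4 := (mul_le_mul_of_nonneg_left hB₂ hDn).trans (mul_le_mul_of_nonneg_right hB₁ hB)
  rw [e3] at h2
  have e5 := mul_le_mul_of_nonneg_left (mul_le_mul_of_nonneg_left e4 hW) hG.le
  rw [div_sub' hG.ne', abs_div, abs_of_pos hG, div_le_iff₀ hG]
  rw [abs_le] at h1 h2 e2 ⊢
  constructor <;> nlinarith [h1.1, h1.2, h2.1, h2.2, e2.1, e2.2]

theorem sum_Phi3 {ζ C₀ : ℝ} (hζ : 0 < ζ) (hC : 0 < C₀) : ∃ η₀ : ℝ, 0 < η₀ ∧ ∀ η : ℝ, 0 < η →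
    η ≤ η₀ → ∀ a : ℝ, 0 < a → ∀ K J N : ℕ, 1 ≤ K → 1 ≤ J → ∀ H : ℝ, 1 ≤ H → ∀ ε : ℝ, 0 < ε →
    ∀ᶠ x : ℕ in atTop, ∀ (b : ℝ) (S : Finset ℕ) (lam : Multiset ℕ → Multiset ℕ → ℝ)
      (𝒯 : Finset (Multiset ℕ)), 𝒯.card ≤ N →
    (∀ s ∈ S, 1 ≤ s ∧ Real.log s ≤ a * Real.log x / 8) →
    (∀ d ∈ Icc 1 (2 * x), Rough ((x : ℝ) ^ η) d → ty b d ∈ 𝒯) → (∀ t t', |lam t t'| ≤ C₀) →
    (∀ d : ℕ, ∑ d₁ ∈ d.divisors, |lam (ty b d₁) (ty b (d / d₁))| ≤ C₀) →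
    (∀ d₁ ∈ Icc 1 (2 * x), ∀ d₂ ∈ Icc 1 (2 * x), Rough ((x : ℝ) ^ η) d₁ →
      Rough ((x : ℝ) ^ η) d₂ → lam (ty b d₁) (ty b d₂) ≠ 0 →
      Real.log d₁ + 2 * K * (a * Real.log x) + 2 * (a * Real.log x)
        ≤ (1 / 8 - 1 / 600) * Real.log x ∧
      Real.log d₂ + J * (a * Real.log x / 2) ≤ Real.log x / 2 + a * Real.log x / 8) →
    ∀ T T' : ℝ, Real.log x ^ 2 ≤ T → T ≤ H * √(x : ℝ) → Real.log x ^ 2 ≤ T' →
    T' ≤ H * √(x : ℝ) →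
    |SS x T K J (a * Real.log x) S tau (fun n => rf ((x : ℝ) ^ η) n * Phi2 b lam n) / Gam x T
      - SS x T' K J (a * Real.log x) S tau (fun n => rf ((x : ℝ) ^ η) n * Phi2 b lam n) / Gam x T'|
      ≤ ζ * WW K J (a * Real.log x) S tau / Real.log x + ε := by
  obtain ⟨C, hC', hF⟩ := fund_lemma
  refine ⟨min (1 / 20000) (ζ * (1 / 2000) ^ 3 / (38 * C * C₀)), by positivity,
    fun η hη hη0 a ha K J N hK hJ H hH ε hε => ?_⟩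
  have hη1 : η ≤ 1 / 20000 := hη0.trans (min_le_left _ _)
  have hη2 : η ≤ ζ * (1 / 2000) ^ 3 / (38 * C * C₀) := hη0.trans (min_le_right _ _)
  have hs : 10 ≤ (1 / 2000) / η := by rw [le_div_iff₀ hη]; linarith
  have ht : Tendsto (fun x : ℕ => (x : ℝ) ^ η) atTop atTop :=
    (tendsto_rpow_atTop hη).comp tendsto_natCast_atTop_atTop
  have hl : Tendsto (fun x : ℕ => Real.log x) atTop atTop :=
    Real.tendsto_log_atTop.comp tendsto_natCast_atTop_atTop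
  obtain ⟨ε', hε', hε2⟩ : ∃ ε' : ℝ, 0 < ε' ∧ 4 * ((N : ℝ) ^ 2 * C₀ * ε') ≤ ε := by
    refine ⟨ε / (4 * ((N : ℝ) ^ 2 * C₀ + 1)), by positivity, ?_⟩
    have h1 : 4 * (((N : ℝ) ^ 2 * C₀ + 1) * (ε / (4 * ((N : ℝ) ^ 2 * C₀ + 1)))) = ε := by
      field_simp
    have h2 : 0 ≤ ε / (4 * ((N : ℝ) ^ 2 * C₀ + 1)) := by positivity
    linarith
  filter_upwards [ht.eventually (hF _ hs), si3_typeI ha hH hε' hK hJ,
    si_inv_rough hη (by linarith), eventually_ge_atTop 1, hl.eventually_ge_atTop 1,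
    Z.ev_le_self H]
    with x hx hI hinv hx1 hL hself b S lam 𝒯 hN hS h𝒯 hlam hlam2 hsize T T' hT1 hT2 hT1' hT2'
  obtain ⟨E, ls, err, hE, hls, herr, hpt, hsum⟩ := hx
  have hx1' : (1 : ℝ) ≤ x := by exact_mod_cast hx1
  have hx0 : (0 : ℝ) < x := by linarith
  have hΛ0 : 0 ≤ a * Real.log x := by positivity
  have hlz : Real.log ((x : ℝ) ^ η) = η * Real.log x := Real.log_rpow hx0 η
  have hE' : ∀ e ∈ E, 1 ≤ e ∧ (e : ℝ) ≤ (x : ℝ) ^ (1 / 2000 : ℝ) := by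
    intro e he
    refine ⟨(hE e he).1, (hE e he).2.trans_eq ?_⟩
    rw [← Real.rpow_mul hx0.le]
    congr 1
    field_simp
  have hB₁ := (ns_pair_mass x ((x : ℝ) ^ η) b lam hlam2 fun d₁ h₁ d₂ h₂ h0 => by
      obtain ⟨a1, a2⟩ := mem_filter.1 h₁
      obtain ⟨a3, a4⟩ := mem_filter.1 h₂
      obtain ⟨b1, b2⟩ := hsize d₁ a1 d₂ a3 a2 a4 h0
      have p1 : (0 : ℝ) < d₁ := by exact_mod_cast (mem_Icc.1 a1).1
      have p2 : (0 : ℝ) < d₂ := by exact_mod_cast (mem_Icc.1 a3).1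
      have c2 : (1 : ℝ) ≤ J := by exact_mod_cast hJ
      have c3 : 0 ≤ (K : ℝ) * (a * Real.log x) := by positivity
      have c4 : Real.log ((d₁ : ℝ) * d₂) ≤ Real.log x := by
        rw [Real.log_mul p1.ne' p2.ne']
        have c7 := mul_le_mul_of_nonneg_right c2 hΛ0
        linarith
      have c5 := (Real.log_le_log_iff (by positivity) hx0).1 c4
      have c6 : d₁ * d₂ ≤ x := by exact_mod_cast c5
      omega).trans (mul_le_mul_of_nonneg_left (hinv _ fun d hd => by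
        obtain ⟨a1, a2⟩ := mem_filter.1 hd
        exact ⟨(mem_Icc.1 a1).1, (mem_Icc.1 a1).2, a2⟩) hC.le)
  have hgroup : ∀ U : ℝ, Real.log x ^ 2 ≤ U → U ≤ H * √(x : ℝ) → 0 < Gam x U →
      ∀ (g : Multiset ℕ → Multiset ℕ → ℝ) (φ : ℕ → ℝ), (∀ t t', |g t t'| ≤ C₀) →
      (∀ t t', g t t' ≠ 0 → lam t t' ≠ 0) → (∀ f, |φ f| ≤ 2) →
      |∑ p ∈ S ×ˢ tup K J (a * Real.log x),
        ∑ d₁ ∈ (Icc 1 (2 * x)).filter (Rough ((x : ℝ) ^ η)),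
        ∑ d₂ ∈ (Icc 1 (2 * x)).filter (Rough ((x : ℝ) ^ η)),
        g (ty b d₁) (ty b d₂) * (tau p.1 * ∑ e ∈ E, φ e *
          (sG x U (p.1 * (∏ i, p.2 i) * d₁ * d₂ * e)
            - Gam x U / ((p.1 * (∏ i, p.2 i) * d₁ * d₂ * e : ℕ) : ℝ)))|
        ≤ ((N : ℝ) ^ 2 * C₀ * ε') * Gam x U := by
    intro U hU1 hU2 hG g φ hg hg0 hφ
    refine (ns_group _ x _ b 𝒯 h𝒯 g _ hN hg (B := ε' * Gam x U) (by positivity)
      fun t t' h0 => ?_).trans_eq (by ring)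
    rcases (Dt x ((x : ℝ) ^ η) b t).eq_empty_or_nonempty with h1 | ⟨u, hu⟩
    · simp only [h1, sum_empty, sum_const_zero, abs_zero]
      positivity
    rcases (Dt x ((x : ℝ) ^ η) b t').eq_empty_or_nonempty with h2 | ⟨v, hv⟩
    · simp only [h2, sum_empty, sum_const_zero, abs_zero]
      positivity
    refine hI S _ _ E φ hS (fun d hd => ?_) (fun d hd => ?_) hE' hφ U hU1 hU2
    · obtain ⟨a1, a2, a3⟩ := mem_filter.1 hd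
      obtain ⟨b1, b2, b3⟩ := mem_filter.1 hv
      exact ⟨(mem_Icc.1 a1).1, (hsize d a1 v b1 a2 b2 (by rw [a3, b3]; exact hg0 _ _ h0)).1⟩
    · obtain ⟨a1, a2, a3⟩ := mem_filter.1 hd
      obtain ⟨b1, b2, b3⟩ := mem_filter.1 hu
      exact ⟨(mem_Icc.1 a1).1, (hsize u b1 d a1 b2 a2 (by rw [a3, b3]; exact hg0 _ _ h0)).2⟩
  have one : ∀ U : ℝ, Real.log x ^ 2 ≤ U → U ≤ H * √(x : ℝ) → _ := fun U hU1 hU2 => by
    have hU3 : 1 ≤ U := (one_le_pow₀ hL).trans hU1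
    have hG : 0 < Gam x U :=
      lt_of_lt_of_le (div_pos hx0 (by linarith)) (Gam_ge hU3 (hU2.trans hself))
    exact ySumI_one x U ((x : ℝ) ^ η) b (a * Real.log x) K J S E lam ls err hG
      (fun s hs => (hS s hs).1) (fun e he => (hE e he).1) hpt
      (hgroup U hU1 hU2 hG lam ls hlam (fun _ _ h0 => h0) hls)
      (hgroup U hU1 hU2 hG (fun t t' => |lam t t'|) err (fun t t' => by
        rw [abs_abs]; exact hlam t t') (fun _ _ h0 => abs_ne_zero.1 h0) herr)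
      hB₁ hsum (by rw [hlz]; positivity)
  have a1 := one T hT1 hT2
  have a2 := one T' hT1' hT2'
  have hW : 0 ≤ WW K J (a * Real.log x) S tau :=
    mul_nonneg (sum_nonneg fun s _ => div_nonneg (tau_nonneg s) (Nat.cast_nonneg s))
      (Psi_nonneg _ _ _)
  have hc : 2 * (C₀ * (19 / η) * (C / (((1 / 2000) / η) ^ 3 * Real.log ((x : ℝ) ^ η))))
      ≤ ζ / Real.log x := by
    have h1 : 2 * (C₀ * (19 / η) * (C / (((1 / 2000) / η) ^ 3 * Real.log ((x : ℝ) ^ η))))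
        = (η * (38 * C * C₀) / (1 / 2000) ^ 3) / Real.log x := by
      rw [hlz]; field_simp; ring
    rw [h1]
    refine div_le_div_of_nonneg_right ?_ (by linarith)
    rw [le_div_iff₀ (by positivity)] at hη2
    rw [div_le_iff₀ (by positivity)]
    exact hη2
  have hc2 := mul_le_mul_of_nonneg_left hc hW
  have hc3 : WW K J (a * Real.log x) S tau * (ζ / Real.log x)
      = ζ * WW K J (a * Real.log x) S tau / Real.log x := by ring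
  rw [abs_le] at a1 a2 ⊢
  constructor <;> linarith [a1.1, a1.2, a2.1, a2.2]

end Pool.Agent.Work.MP_82fd4a_nt.Y
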