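import Pool.Agent.Work.MP_82fd4a_nt.Y.Recip

/-! Bilinear exponential sums over fractions. -/

set_option autoImplicit false
open Filter Topology Finset

namespace Pool.Agent.Work.MP_82fd4a_nt.Y

open Pool.Agent.Lib.MR

theorem bil_cs {ι : Type*} (R I : Finset ℕ) (hRI : R ⊆ I) (P : Finset ι) (α : ℕ → ℝ) (γ : ι → ℝ)
    (φ : ℕ → ι → ℝ) :
    ‖∑ r ∈ R, ∑ p ∈ P, ((α r * γ p : ℝ) : ℂ) * ce (φ r p)‖ ^ 2 ≤
      (∑ r ∈ R, α r ^ 2) * ∑ p ∈ P, ∑ q ∈ P, |γ p| * |γ q| * ‖∑ r ∈ I, ce (φ r p - φ r q)‖ := by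
  set V : ℕ → ℂ := fun r => ∑ m ∈ P, (γ m : ℂ) * ce (φ r m) with hV
  have e1 : ∑ r ∈ R, ∑ m ∈ P, ((α r * γ m : ℝ) : ℂ) * ce (φ r m) = ∑ r ∈ R, (α r : ℂ) * V r := by
    refine sum_congr rfl fun r _ => ?_
    rw [hV, mul_sum]
    refine sum_congr rfl fun m _ => ?_
    push_cast; ring
  have h1 : ‖∑ r ∈ R, (α r : ℂ) * V r‖ ≤ ∑ r ∈ R, |α r| * ‖V r‖ := by
    refine (norm_sum_le _ _).trans (le_of_eq (sum_congr rfl fun r _ => ?_))
    rw [norm_mul, Complex.norm_real, Real.norm_eq_abs]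
  have h2 : (∑ r ∈ R, |α r| * ‖V r‖) ^ 2 ≤ (∑ r ∈ R, |α r| ^ 2) * ∑ r ∈ R, ‖V r‖ ^ 2 :=
    sum_mul_sq_le_sq_mul_sq R _ _
  have h3 : ∑ r ∈ R, ‖V r‖ ^ 2 ≤ ∑ r ∈ I, ‖V r‖ ^ 2 :=
    sum_le_sum_of_subset_of_nonneg hRI fun _ _ _ => by positivity
  have e2 : ((∑ r ∈ I, ‖V r‖ ^ 2 : ℝ) : ℂ) = ∑ m ∈ P, ∑ m' ∈ P, ((γ m * γ m' : ℝ) : ℂ) *
      ∑ r ∈ I, ce (φ r m - φ r m') := by
    have : ∀ r, ((‖V r‖ ^ 2 : ℝ) : ℂ) = ∑ m ∈ P, ∑ m' ∈ P, ((γ m * γ m' : ℝ) : ℂ) *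
        ce (φ r m - φ r m') := by
      intro r
      rw [← Complex.normSq_eq_norm_sq, ← Complex.mul_conj, hV]
      simp only [map_sum, map_mul, Complex.conj_ofReal, conj_ce]
      rw [sum_mul_sum]
      refine sum_congr rfl fun m _ => sum_congr rfl fun m' _ => ?_
      rw [sub_eq_add_neg, ce_add]; push_cast; ring
    rw [Complex.ofReal_sum, sum_congr rfl fun r _ => this r, sum_comm]
    refine sum_congr rfl fun m _ => ?_
    rw [sum_comm]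
    refine sum_congr rfl fun m' _ => ?_
    rw [mul_sum]
  have h4 : ∑ r ∈ I, ‖V r‖ ^ 2 ≤ ∑ m ∈ P, ∑ m' ∈ P, |γ m| * |γ m'| *
      ‖∑ r ∈ I, ce (φ r m - φ r m')‖ := by
    calc ∑ r ∈ I, ‖V r‖ ^ 2 ≤ ‖((∑ r ∈ I, ‖V r‖ ^ 2 : ℝ) : ℂ)‖ := by
          rw [Complex.norm_real, Real.norm_eq_abs]; exact le_abs_self _
      _ ≤ _ := by
          rw [e2]
          refine (norm_sum_le _ _).trans (sum_le_sum fun m _ => ?_)
          refine (norm_sum_le _ _).trans (le_of_eq (sum_congr rfl fun m' _ => ?_))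
          rw [norm_mul, Complex.norm_real, Real.norm_eq_abs, abs_mul]
  rw [e1]
  calc ‖∑ r ∈ R, (α r : ℂ) * V r‖ ^ 2 ≤ (∑ r ∈ R, |α r| * ‖V r‖) ^ 2 := by gcongr
    _ ≤ (∑ r ∈ R, |α r| ^ 2) * ∑ r ∈ R, ‖V r‖ ^ 2 := h2
    _ ≤ (∑ r ∈ R, |α r| ^ 2) * ∑ m ∈ P, ∑ m' ∈ P, |γ m| * |γ m'| *
        ‖∑ r ∈ I, ce (φ r m - φ r m')‖ := by
      gcongr
      exact h3.trans h4
    _ = _ := by simp only [sq_abs]

theorem yTIa_harm {x : ℕ} (S : Finset ℕ) (hS : ∀ u ∈ S, 1 ≤ u ∧ u ≤ x) :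
    ∑ u ∈ S, 1 / (u : ℝ) ≤ 1 + Real.log x := by
  have h := harmonic_le_one_add_log x
  rw [harmonic_eq_sum_Icc] at h
  push_cast at h
  refine le_trans ?_ h
  simp only [one_div]
  exact sum_le_sum_of_subset_of_nonneg (fun u hu => mem_Icc.2 (hS u hu)) fun _ _ _ => by positivity

theorem yTIa_tau (S T : Finset ℕ) {n : ℕ} (hn : n ≠ 0) :
    ∑ h ∈ S, ∑ u ∈ T, (if h * u = n then (1 : ℝ) else 0) ≤ tau n := by
  rw [← sum_product' S T fun h u => if h * u = n then (1 : ℝ) else 0, sum_boole, tau]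
  refine Nat.cast_le.2 (card_le_card_of_injOn Prod.fst (fun p hp => ?_) fun p hp q hq h => ?_)
  · exact mem_coe.2 (Nat.mem_divisors.2 ⟨Dvd.intro _ (mem_filter.1 (mem_coe.1 hp)).2, hn⟩)
  · have h1 := (mem_filter.1 (mem_coe.1 hp)).2
    have h2 := (mem_filter.1 (mem_coe.1 hq)).2
    have h0 : 0 < q.1 := Nat.pos_of_ne_zero fun h0 => hn (by rw [← h2, h0, zero_mul])
    rw [h] at h1
    exact Prod.ext h (Nat.eq_of_mul_eq_mul_left h0 (h1.trans h2.symm))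

theorem yTIa_sq {x u : ℕ} {s U : ℝ} (hs : s ^ 4 = x) (hs1 : 1 ≤ s) (hU : U ^ 2 ≤ s)
    (hu : (u : ℝ) ≤ U) : u ^ 2 ≤ x := by
  have h1 : (u : ℝ) ^ 2 ≤ U ^ 2 := pow_le_pow_left₀ (Nat.cast_nonneg _) hu 2
  have h2 : s ≤ s ^ 4 := le_self_pow₀ hs1 (by norm_num)
  have : (u : ℝ) ^ 2 ≤ x := by linarith
  exact_mod_cast this

/-- the diagonal -/
theorem diag_le {x A : ℕ} {s U D : ℝ} (hs : s ^ 4 = x) (hs1 : 1 ≤ s) (hU : U ^ 2 ≤ s)
    (hA : A ^ 3 ≤ x) (hτ : ∀ n ≤ x, tau n ≤ D) (hD : (1 + Real.log x) ^ 2 ≤ D) (Us : Finset ℕ)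
    (hUs : ∀ u ∈ Us, 1 ≤ u ∧ (u : ℝ) ≤ U) :
    ∑ p ∈ Us ×ˢ Icc 1 A, ∑ q ∈ Us ×ˢ Icc 1 A,
      (if p.2 * q.1 = q.2 * p.1 then 1 / ((p.1 : ℝ) * q.2) else 0) ≤ D ^ 2 := by
  have hL : 0 ≤ 1 + Real.log x := by have := Real.log_natCast_nonneg x; linarith
  have hD0 : 0 ≤ D := (sq_nonneg _).trans hD
  have hu2 : ∀ u ∈ Us, u ^ 2 ≤ x := fun u hu => yTIa_sq hs hs1 hU (hUs u hu).2
  have hh2 : ∀ h ∈ Icc 1 A, h ^ 2 ≤ x := fun h hh =>
    (Nat.pow_le_pow_right (mem_Icc.1 hh).1 (by norm_num)).trans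
      ((Nat.pow_le_pow_left (mem_Icc.1 hh).2 3).trans hA)
  have e : ∑ p ∈ Us ×ˢ Icc 1 A, ∑ q ∈ Us ×ˢ Icc 1 A,
      (if p.2 * q.1 = q.2 * p.1 then 1 / ((p.1 : ℝ) * q.2) else 0) =
      ∑ u ∈ Us, ∑ h' ∈ Icc 1 A, 1 / (u : ℝ) * (1 / (h' : ℝ)) *
        ∑ h ∈ Icc 1 A, ∑ u' ∈ Us, (if h * u' = h' * u then (1 : ℝ) else 0) := by
    simp only [sum_product, mul_sum]
    refine sum_congr rfl fun u _ => ?_
    rw [sum_congr rfl fun h _ => sum_comm, sum_comm]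
    refine sum_congr rfl fun h' _ => sum_congr rfl fun h _ => sum_congr rfl fun u' _ => ?_
    split_ifs
    · rw [mul_one, one_div_mul_one_div]
    · rw [mul_zero]
  rw [e]
  calc _ ≤ ∑ u ∈ Us, ∑ h' ∈ Icc 1 A, 1 / (u : ℝ) * (1 / (h' : ℝ)) * D := by
        refine sum_le_sum fun u hu => sum_le_sum fun h' hh => ?_
        refine mul_le_mul_of_nonneg_left ((yTIa_tau _ _ ?_).trans (hτ _ ?_)) (by positivity)
        · exact Nat.mul_ne_zero (by have := (mem_Icc.1 hh).1; omega) (by have := (hUs u hu).1; omega)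
        · have h1 := hu2 u hu
          have h2 := hh2 h' hh
          nlinarith [sq_nonneg ((u : ℤ) - h')]
    _ = (∑ u ∈ Us, 1 / (u : ℝ)) * (∑ h' ∈ Icc 1 A, 1 / (h' : ℝ)) * D := by
        rw [sum_mul_sum, sum_mul]
        exact sum_congr rfl fun u _ => (sum_mul _ _ _).symm
    _ ≤ (1 + Real.log x) * (1 + Real.log x) * D := by
        refine mul_le_mul_of_nonneg_right (mul_le_mul (yTIa_harm _ fun u hu => ⟨(hUs u hu).1, ?_⟩)
          (yTIa_harm _ fun h hh => ⟨(mem_Icc.1 hh).1, ?_⟩) (by positivity) hL) hD0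
        · exact (Nat.le_self_pow two_ne_zero u).trans (hu2 u hu)
        · exact (Nat.le_self_pow two_ne_zero h).trans (hh2 h hh)
    _ ≤ D ^ 2 := by rw [← sq, sq D]; exact mul_le_mul_of_nonneg_right hD hD0

theorem yTIa_one {x : ℕ} {D : ℝ} (hD : (1 + Real.log x) ^ 2 ≤ D) : 1 ≤ D := by
  have := Real.log_natCast_nonneg x
  nlinarith

theorem yTIa_triv (V : ℕ) (f : ℕ → ℝ) : ‖∑ v ∈ Ioc V (2 * V), ce (f v)‖ ≤ V := by
  refine (norm_sum_le _ _).trans (le_of_eq ?_)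
  simp only [norm_ce, sum_const, Nat.card_Ioc, nsmul_eq_mul, mul_one]
  rw [two_mul, Nat.add_sub_cancel]

theorem yTIa_off {x V : ℕ} {s U D y t : ℝ} (hs : s ^ 4 = x) (hs1 : 1 ≤ s) (hV : 1 ≤ V)
    (hVs : (V : ℝ) ≤ s ^ 2) (hU : U ^ 2 ≤ s) (hD : (1 + Real.log x) ^ 2 ≤ D)
    (hy : (x : ℝ) / 3 ≤ y) (hy' : y ≤ 3 * x) {p q : ℕ × ℕ} (hp : 1 ≤ p.1 ∧ (p.1 : ℝ) ≤ U)
    (hq : 1 ≤ q.1 ∧ (q.1 : ℝ) ≤ U) (hne : p.2 * q.1 ≠ q.2 * p.1) (ht : 1 ≤ t)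
    (hd : |(p.2 : ℝ) / p.1 - q.2 / q.1| ≤ t * (V / s ^ 2)) :
    ‖∑ v ∈ Ioc V (2 * V), ce (2 * Real.pi * y * (p.2 / (v * p.1)) -
      2 * Real.pi * y * (q.2 / (v * q.1)))‖ ≤ 600 * D * s * t := by
  have hs0 : 0 < s := by linarith
  have hD1 := yTIa_one hD
  have hV0 : (0 : ℝ) < V := by exact_mod_cast hV
  have hp0 : (0 : ℝ) < p.1 := by exact_mod_cast hp.1
  have hq0 : (0 : ℝ) < q.1 := by exact_mod_cast hq.1
  have hx0 : (0 : ℝ) < x := by rw [← hs]; positivity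
  have hy0 : 0 < y := by linarith
  have pi3 := Real.pi_gt_three
  have pi4 := Real.pi_lt_d2
  set δ := (p.2 : ℝ) / p.1 - q.2 / q.1 with hδ
  have hlo : 1 ≤ |δ| * s := by
    have e : δ * (p.1 * q.1) = ((p.2 * q.1 : ℕ) : ℝ) - ((q.2 * p.1 : ℕ) : ℝ) := by
      rw [hδ]; push_cast; field_simp
    have h1 : (1 : ℝ) ≤ |((p.2 * q.1 : ℕ) : ℝ) - ((q.2 * p.1 : ℕ) : ℝ)| := by
      have : (1 : ℤ) ≤ |((p.2 * q.1 : ℕ) : ℤ) - ((q.2 * p.1 : ℕ) : ℤ)| :=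
        Int.one_le_abs (sub_ne_zero.2 (by exact_mod_cast hne))
      exact_mod_cast this
    rw [← e, abs_mul, abs_of_pos (mul_pos hp0 hq0)] at h1
    refine h1.trans (mul_le_mul_of_nonneg_left (le_trans ?_ hU) (abs_nonneg _))
    rw [sq]
    exact mul_le_mul hp.2 hq.2 hq0.le (hp0.le.trans hp.2)
  have hδ0 : 0 < |δ| := by
    by_contra h
    nlinarith [abs_nonneg δ]
  have hc : |2 * Real.pi * y * δ| = 2 * Real.pi * y * |δ| := by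
    rw [abs_mul, abs_of_pos (by positivity : 0 < 2 * Real.pi * y)]
  have key := recip_sum hV (c := 2 * Real.pi * y * δ) (abs_pos.1 (by rw [hc]; positivity))
  rw [hc] at key
  have a1 : √(2 * Real.pi * y * |δ| / V) ≤ 4.4 * s * t := by
    rw [Real.sqrt_le_left (by positivity), div_le_iff₀ hV0]
    calc 2 * Real.pi * y * |δ| ≤ 2 * 3.15 * (3 * s ^ 4) * (t * (V / s ^ 2)) := by
          rw [hs]; gcongr
      _ = 18.9 * (s ^ 2 * V) * t := by field_simp; ring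
      _ ≤ 4.4 ^ 2 * (s ^ 2 * V) * t ^ 2 := by
          gcongr
          · norm_num
          · exact le_self_pow₀ ht two_ne_zero
      _ = (4.4 * s * t) ^ 2 * V := by ring
  have a2 : √(V * (1 + Real.log V)) ≤ s * D := by
    rw [Real.sqrt_le_left (by positivity), mul_pow]
    have h1 : Real.log V ≤ Real.log x := by
      refine Real.log_le_log hV0 (hVs.trans ?_)
      rw [← hs]; exact pow_le_pow_right₀ hs1 (by norm_num)
    have h2 := Real.log_natCast_nonneg V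
    refine mul_le_mul hVs ?_ (by linarith) (by positivity)
    nlinarith
  have a3 : (V : ℝ) ^ 2 / (2 * Real.pi * y * |δ|) ≤ s / 2 := by
    rw [div_le_iff₀ (by positivity)]
    calc (V : ℝ) ^ 2 ≤ (s ^ 2) ^ 2 := by gcongr
      _ = 3 * ((x : ℝ) / 3) * 1 := by rw [← hs]; ring
      _ ≤ Real.pi * y * (|δ| * s) := by gcongr
      _ = s / 2 * (2 * Real.pi * y * |δ|) := by ring
  refine le_trans (le_of_eq ?_) (key.trans ?_)
  · refine congrArg _ (sum_congr rfl fun v _ => congrArg _ ?_)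
    rw [hδ]
    simp only [div_eq_mul_inv, mul_inv]
    ring
  · have b1 : s * t ≤ D * s * t := by nlinarith [mul_pos hs0 (by linarith : 0 < t)]
    have b2 : s * D ≤ D * s * t := by nlinarith [mul_pos hs0 (by linarith : 0 < D)]
    have b3 : s ≤ s * D := by nlinarith
    linarith

theorem yTIa_comb {x A : ℕ} {s U D K1 K2 G : ℝ} (hs : s ^ 4 = x) (hs1 : 1 ≤ s) (hU : U ^ 2 ≤ s)
    (hA : A ^ 3 ≤ x) (hτ : ∀ n ≤ x, tau n ≤ D) (hD : (1 + Real.log x) ^ 2 ≤ D) (Us : Finset ℕ)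
    (hUs : ∀ u ∈ Us, 1 ≤ u ∧ (u : ℝ) ≤ U) {P : Finset (ℕ × ℕ)} (hP : P ⊆ Us ×ˢ Icc 1 A)
    (hK1 : 0 ≤ K1) (hK2 : 0 ≤ K2) (g : ℕ × ℕ → ℝ) (hg : ∀ p, 0 ≤ g p) (hG : ∑ p ∈ P, g p ≤ G)
    (F : ℕ × ℕ → ℕ × ℕ → ℝ)
    (h1 : ∀ p ∈ P, ∀ q ∈ P, p.2 * q.1 = q.2 * p.1 → F p q ≤ K1 * (1 / ((p.1 : ℝ) * q.2)))
    (h2 : ∀ p ∈ P, ∀ q ∈ P, p.2 * q.1 ≠ q.2 * p.1 → F p q ≤ K2 * (g p * g q)) :
    ∑ p ∈ P, ∑ q ∈ P, F p q ≤ K1 * D ^ 2 + K2 * G ^ 2 := by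
  have hd := diag_le hs hs1 hU hA hτ hD Us hUs
  have nn : ∀ p q : ℕ × ℕ,
      0 ≤ (if p.2 * q.1 = q.2 * p.1 then 1 / ((p.1 : ℝ) * q.2) else 0) := fun p q => by
    split_ifs <;> positivity
  calc ∑ p ∈ P, ∑ q ∈ P, F p q ≤ ∑ p ∈ P, ∑ q ∈ P,
        (K1 * (if p.2 * q.1 = q.2 * p.1 then 1 / ((p.1 : ℝ) * q.2) else 0) + K2 * (g p * g q)) := by
        refine sum_le_sum fun p hp => sum_le_sum fun q hq => ?_
        split_ifs with h
        · exact (h1 p hp q hq h).trans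
            (le_add_of_nonneg_right (mul_nonneg hK2 (mul_nonneg (hg p) (hg q))))
        · rw [mul_zero, zero_add]; exact h2 p hp q hq h
    _ = K1 * ∑ p ∈ P, ∑ q ∈ P, (if p.2 * q.1 = q.2 * p.1 then 1 / ((p.1 : ℝ) * q.2) else 0) +
        K2 * (∑ p ∈ P, g p) ^ 2 := by
        rw [sq, sum_mul_sum]
        simp only [sum_add_distrib, mul_sum]
    _ ≤ K1 * D ^ 2 + K2 * G ^ 2 := by
        refine add_le_add (mul_le_mul_of_nonneg_left (le_trans ?_ hd) hK1)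
          (mul_le_mul_of_nonneg_left (pow_le_pow_left₀ (sum_nonneg fun p _ => hg p) hG 2) hK2)
        refine (sum_le_sum fun p _ => sum_le_sum_of_subset_of_nonneg hP fun q _ _ => nn p q).trans ?_
        exact sum_le_sum_of_subset_of_nonneg hP fun p _ _ => sum_nonneg fun q _ => nn p q

theorem yTIa_sumsq {V : ℕ} {R : Finset ℕ} (hR : R ⊆ Ioc V (2 * V)) (α : ℕ → ℝ) {B : ℝ}
    (h : ∀ v : ℕ, V < v → v ≤ 2 * V → |α v| ≤ B) : ∑ v ∈ R, α v ^ 2 ≤ V * B ^ 2 := by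
  refine (sum_le_sum_of_subset_of_nonneg hR fun _ _ _ => sq_nonneg _).trans ?_
  refine (sum_le_card_nsmul _ _ (B ^ 2) fun v hv => ?_).trans (le_of_eq ?_)
  · rw [← sq_abs]
    exact pow_le_pow_left₀ (abs_nonneg _) (h v (mem_Ioc.1 hv).1 (mem_Ioc.1 hv).2) 2
  · rw [Nat.card_Ioc, two_mul, Nat.add_sub_cancel, nsmul_eq_mul]

/-- low frequencies -/
theorem blk_lo {x V A : ℕ} {s U D y : ℝ} (hs : s ^ 4 = x) (hs1 : 1 ≤ s) (hV : 1 ≤ V)
    (hVs : (V : ℝ) ≤ s ^ 2) (hU : U ^ 2 ≤ s) (hA : A ^ 3 ≤ x) (hτ : ∀ n ≤ x, tau n ≤ D)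
    (hD : (1 + Real.log x) ^ 2 ≤ D) (hy : (x : ℝ) / 3 ≤ y) (hy' : y ≤ 3 * x) (R Us : Finset ℕ)
    (hR : R ⊆ Ioc V (2 * V)) (hUs : ∀ u ∈ Us, 1 ≤ u ∧ (u : ℝ) ≤ U) (a b : ℕ → ℝ)
    (ha : ∀ v, |a v| ≤ D) (hb : ∀ u, |b u| ≤ D) :
    ‖∑ v ∈ R, ∑ p ∈ (Us ×ˢ Icc 1 A).filter (fun p => (p.2 : ℝ) * s ^ 2 ≤ p.1 * V),
      ((a v / v * (b p.1 / p.1) : ℝ) : ℂ) * ce (2 * Real.pi * y * (p.2 / (v * p.1)))‖ ^ 2
      ≤ 4000 * D ^ 6 * (V / s ^ 2 + U ^ 2 * V / s ^ 3) := by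
  have hs0 : 0 < s := by linarith
  have hD1 := yTIa_one hD
  have hD0 : 0 < D := by linarith
  have hV0 : (0 : ℝ) < V := by exact_mod_cast hV
  have hcard : (Us.card : ℝ) ≤ |U| := es_card Us _ (abs_nonneg _) fun u hu =>
    ⟨(hUs u hu).1, (hUs u hu).2.trans (le_abs_self _)⟩
  set W : ℝ := V / s ^ 2 with hW
  have hW0 : 0 < W := by positivity
  set P := (Us ×ˢ Icc 1 A).filter (fun p => (p.2 : ℝ) * s ^ 2 ≤ p.1 * V) with hP
  have mem : ∀ p ∈ P, (1 ≤ p.1 ∧ (p.1 : ℝ) ≤ U) ∧ (0 : ℝ) < p.1 ∧ (0 : ℝ) < p.2 ∧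
      (p.2 : ℝ) / p.1 ≤ W := fun p hp => by
    obtain ⟨h1, h2⟩ := mem_filter.1 hp
    obtain ⟨h3, h4⟩ := mem_product.1 h1
    have h5 : (0 : ℝ) < p.1 := by exact_mod_cast (hUs _ h3).1
    refine ⟨hUs _ h3, h5, by exact_mod_cast (mem_Icc.1 h4).1, ?_⟩
    rw [hW, div_le_div_iff₀ h5 (by positivity)]
    linarith
  have hγ : ∀ p ∈ P, |b p.1 / p.1| ≤ D * (1 / p.1) := fun p hp => by
    rw [abs_div, abs_of_pos (mem p hp).2.1, mul_one_div]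
    exact div_le_div_of_nonneg_right (hb _) (mem p hp).2.1.le
  have key := bil_cs R (Ioc V (2 * V)) hR P (fun v => a v / v) (fun p => b p.1 / p.1)
    fun v p => 2 * Real.pi * y * (p.2 / (v * p.1))
  have hα := yTIa_sumsq hR (fun v => a v / v) (B := D / V) fun v h1 _ => by
    have h2 : (V : ℝ) < v := by exact_mod_cast h1
    rw [abs_div, abs_of_pos (hV0.trans h2)]
    exact div_le_div₀ hD0.le (ha v) hV0 h2.le
  have hG : ∑ p ∈ P, 1 / (p.1 : ℝ) ≤ |U| * W := by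
    rw [hP, sum_filter, sum_product]
    refine (sum_le_card_nsmul _ _ W fun u hu => ?_).trans ?_
    · have h5 : (0 : ℝ) < u := by exact_mod_cast (hUs _ hu).1
      rw [← sum_filter]
      simp only [sum_const, nsmul_eq_mul]
      rw [mul_one_div, div_le_iff₀ h5]
      refine es_card _ _ (by positivity) fun h hh => ⟨(mem_Icc.1 (mem_filter.1 hh).1).1, ?_⟩
      rw [hW, div_mul_eq_mul_div, le_div_iff₀ (by positivity)]
      linarith [(mem_filter.1 hh).2]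
    · rw [nsmul_eq_mul]
      exact mul_le_mul_of_nonneg_right hcard hW0.le
  have hB := yTIa_comb hs hs1 hU hA hτ hD Us hUs (filter_subset _ _) (K1 := D ^ 2 * V * W)
    (K2 := D ^ 2 * (600 * D * s)) (by positivity) (by positivity) (fun p => 1 / (p.1 : ℝ))
    (fun p => by positivity) hG
    (fun p q => |b p.1 / p.1| * |b q.1 / q.1| * ‖∑ v ∈ Ioc V (2 * V),
      ce (2 * Real.pi * y * (p.2 / (v * p.1)) - 2 * Real.pi * y * (q.2 / (v * q.1)))‖)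
    (fun p hp q hq _ => by
      obtain ⟨-, p1, -, -⟩ := mem p hp
      obtain ⟨-, q1, q2, q3⟩ := mem q hq
      calc _ ≤ D * (1 / p.1) * (D * (1 / q.1)) * V :=
            mul_le_mul (mul_le_mul (hγ p hp) (hγ q hq) (abs_nonneg _) (by positivity))
              (yTIa_triv V _) (norm_nonneg _) (by positivity)
        _ = D ^ 2 * V * (q.2 / q.1) * (1 / (p.1 * q.2)) := by field_simp
        _ ≤ _ := by gcongr)
    (fun p hp q hq h => by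
      obtain ⟨p0, p1, p2, p3⟩ := mem p hp
      obtain ⟨q0, q1, q2, q3⟩ := mem q hq
      have h1 := yTIa_off hs hs1 hV hVs hU hD hy hy' p0 q0 h le_rfl (by
        have := div_pos p2 p1
        have := div_pos q2 q1
        rw [one_mul, abs_le]; constructor <;> linarith)
      calc _ ≤ D * (1 / p.1) * (D * (1 / q.1)) * (600 * D * s * 1) :=
            mul_le_mul (mul_le_mul (hγ p hp) (hγ q hq) (abs_nonneg _) (by positivity))
              h1 (norm_nonneg _) (by positivity)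
        _ = _ := by ring)
  refine key.trans ((mul_le_mul hα hB (by positivity) (by positivity)).trans ?_)
  have e : V * (D / V) ^ 2 * (D ^ 2 * V * W * D ^ 2 + D ^ 2 * (600 * D * s) * (|U| * W) ^ 2) =
      1 * D ^ 6 * W + 600 * D ^ 5 * (U ^ 2 * V / s ^ 3) := by
    rw [mul_pow, sq_abs, hW]; field_simp
  rw [e, mul_add]
  have h56 : D ^ 5 ≤ D ^ 6 := pow_le_pow_right₀ hD1 (by norm_num)
  gcongr <;> norm_num

/-- high frequencies -/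
theorem blk_hi {x V A : ℕ} {s U D y : ℝ} (hs : s ^ 4 = x) (hs1 : 1 ≤ s) (hV : 1 ≤ V)
    (hVs : (V : ℝ) ≤ s ^ 2) (hU : U ^ 2 ≤ s) (hA : A ^ 3 ≤ x) (hτ : ∀ n ≤ x, tau n ≤ D)
    (hD : (1 + Real.log x) ^ 2 ≤ D) (hy : (x : ℝ) / 3 ≤ y) (hy' : y ≤ 3 * x) (R Us : Finset ℕ)
    (hR : R ⊆ Ioc V (2 * V)) (hUs : ∀ u ∈ Us, 1 ≤ u ∧ (u : ℝ) ≤ U) (a b : ℕ → ℝ)
    (ha : ∀ v, |a v| ≤ D) (hb : ∀ u, |b u| ≤ D) :
    ‖∑ v ∈ R, ∑ p ∈ (Us ×ˢ Icc 1 A).filter (fun p => ¬ (p.2 : ℝ) * s ^ 2 ≤ p.1 * V),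
      ((a v * v * (b p.1 * p.1 / (p.2 : ℝ) ^ 2) : ℝ) : ℂ) *
        ce (2 * Real.pi * y * (p.2 / (v * p.1)))‖ ^ 2
      ≤ (x : ℝ) ^ 2 * (4000 * D ^ 6 * (V / s ^ 2 + U ^ 2 * V / s ^ 3)) := by
  have hs0 : 0 < s := by linarith
  have hD1 := yTIa_one hD
  have hD0 : 0 < D := by linarith
  have hV0 : (0 : ℝ) < V := by exact_mod_cast hV
  have hcard : (Us.card : ℝ) ≤ |U| := es_card Us _ (abs_nonneg _) fun u hu =>
    ⟨(hUs u hu).1, (hUs u hu).2.trans (le_abs_self _)⟩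
  set W : ℝ := V / s ^ 2 with hW
  have hW0 : 0 < W := by positivity
  set P := (Us ×ˢ Icc 1 A).filter (fun p => ¬ (p.2 : ℝ) * s ^ 2 ≤ p.1 * V) with hP
  have mem : ∀ p ∈ P, (1 ≤ p.1 ∧ (p.1 : ℝ) ≤ U) ∧ (0 : ℝ) < p.1 ∧ (0 : ℝ) < p.2 ∧
      W ≤ (p.2 : ℝ) / p.1 := fun p hp => by
    obtain ⟨h1, h2⟩ := mem_filter.1 hp
    obtain ⟨h3, h4⟩ := mem_product.1 h1
    have h5 : (0 : ℝ) < p.1 := by exact_mod_cast (hUs _ h3).1
    refine ⟨hUs _ h3, h5, by exact_mod_cast (mem_Icc.1 h4).1, ?_⟩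
    rw [hW, div_le_div_iff₀ (by positivity) h5]
    linarith [not_le.1 h2]
  have hγ : ∀ p ∈ P, |b p.1 * p.1 / (p.2 : ℝ) ^ 2| ≤ D * p.1 / (p.2 : ℝ) ^ 2 := fun p hp => by
    rw [abs_div, abs_mul, abs_of_pos (mem p hp).2.1, abs_of_nonneg (sq_nonneg (p.2 : ℝ))]
    have := hb p.1
    gcongr
  have key := bil_cs R (Ioc V (2 * V)) hR P (fun v => a v * v)
    (fun p => b p.1 * p.1 / (p.2 : ℝ) ^ 2) fun v p => 2 * Real.pi * y * (p.2 / (v * p.1))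
  have hα := yTIa_sumsq hR (fun v => a v * v) (B := D * (2 * V)) fun v _ h1 => by
    have h2 : (v : ℝ) ≤ 2 * V := by exact_mod_cast h1
    rw [abs_mul, Nat.abs_cast]
    exact mul_le_mul (ha v) h2 (Nat.cast_nonneg _) hD0.le
  have hL : 0 ≤ 1 + Real.log x := by have := Real.log_natCast_nonneg x; linarith
  have hG : ∑ p ∈ P, 1 / (p.2 : ℝ) ≤ |U| * (1 + Real.log x) := by
    refine (sum_le_sum_of_subset_of_nonneg (filter_subset _ _) fun _ _ _ => by positivity).trans ?_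
    rw [sum_product]
    refine (sum_le_card_nsmul _ _ (1 + Real.log x) fun u _ => ?_).trans ?_
    · exact yTIa_harm _ fun h hh => ⟨(mem_Icc.1 hh).1,
        (mem_Icc.1 hh).2.trans ((Nat.le_self_pow three_ne_zero A).trans hA)⟩
    · rw [nsmul_eq_mul]
      exact mul_le_mul_of_nonneg_right hcard hL
  have hB := yTIa_comb hs hs1 hU hA hτ hD Us hUs (filter_subset _ _) (K1 := D ^ 2 * V / W ^ 3)
    (K2 := D ^ 2 * (600 * D * s) / W ^ 2) (by positivity) (by positivity) (fun p => 1 / (p.2 : ℝ))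
    (fun p => by positivity) hG
    (fun p q => |b p.1 * p.1 / (p.2 : ℝ) ^ 2| * |b q.1 * q.1 / (q.2 : ℝ) ^ 2| *
      ‖∑ v ∈ Ioc V (2 * V),
        ce (2 * Real.pi * y * (p.2 / (v * p.1)) - 2 * Real.pi * y * (q.2 / (v * q.1)))‖)
    (fun p hp q hq _ => by
      obtain ⟨-, p1, p2, p3⟩ := mem p hp
      obtain ⟨-, q1, q2, q3⟩ := mem q hq
      calc _ ≤ D * p.1 / (p.2 : ℝ) ^ 2 * (D * q.1 / (q.2 : ℝ) ^ 2) * V :=
            mul_le_mul (mul_le_mul (hγ p hp) (hγ q hq) (abs_nonneg _) (by positivity))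
              (yTIa_triv V _) (norm_nonneg _) (by positivity)
        _ = D ^ 2 * V / (((p.2 : ℝ) / p.1) ^ 2 * (q.2 / q.1)) * (1 / (p.1 * q.2)) := by field_simp
        _ ≤ D ^ 2 * V / (W ^ 2 * W) * (1 / (p.1 * q.2)) := by gcongr
        _ = _ := by rw [← pow_succ])
    (fun p hp q hq h => by
      obtain ⟨p0, p1, p2, p3⟩ := mem p hp
      obtain ⟨q0, q1, q2, q3⟩ := mem q hq
      have t1 : 1 ≤ (p.2 : ℝ) / p.1 / W := (one_le_div hW0).2 p3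
      have t2 : 1 ≤ (q.2 : ℝ) / q.1 / W := (one_le_div hW0).2 q3
      have h1 := yTIa_off hs hs1 hV hVs hU hD hy hy' p0 q0 h
        (one_le_mul_of_one_le_of_one_le t1 t2) (by
          have u1 := div_pos p2 p1
          have u2 := div_pos q2 q1
          rw [← hW]
          generalize (p.2 : ℝ) / p.1 = ξ at *
          generalize (q.2 : ℝ) / q.1 = η at *
          have e1 : ξ / W * (η / W) * W = ξ * (η / W) := by field_simp
          have e2 : ξ / W * (η / W) * W = η * (ξ / W) := by field_simp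
          rw [abs_le]
          constructor
          · rw [e2]; nlinarith
          · rw [e1]; nlinarith)
      calc _ ≤ D * p.1 / (p.2 : ℝ) ^ 2 * (D * q.1 / (q.2 : ℝ) ^ 2) *
            (600 * D * s * ((p.2 : ℝ) / p.1 / W * ((q.2 : ℝ) / q.1 / W))) :=
            mul_le_mul (mul_le_mul (hγ p hp) (hγ q hq) (abs_nonneg _) (by positivity))
              h1 (norm_nonneg _) (by positivity)
        _ = _ := by field_simp)
  refine key.trans ((mul_le_mul hα hB (by positivity) (by positivity)).trans ?_)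
  have e : V * (D * (2 * V)) ^ 2 * (D ^ 2 * V / W ^ 3 * D ^ 2 +
      D ^ 2 * (600 * D * s) / W ^ 2 * (|U| * (1 + Real.log x)) ^ 2) = (s ^ 4) ^ 2 *
      (4 * D ^ 6 * W + 2400 * (D ^ 5 * (1 + Real.log x) ^ 2) * (U ^ 2 * V / s ^ 3)) := by
    rw [mul_pow |U|, sq_abs, hW]; field_simp; ring
  rw [e, hs, mul_add (4000 * D ^ 6)]
  have h56 : D ^ 5 * (1 + Real.log x) ^ 2 ≤ D ^ 6 := by
    rw [pow_succ D 5]; exact mul_le_mul_of_nonneg_left hD (by positivity)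
  gcongr <;> norm_num

end Pool.Agent.Work.MP_82fd4a_nt.Y
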