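import Pool.Agent.Work.MP_82fd4a_nt.Y.TIa
import Pool.Agent.Work.MP_82fd4a_nt.TypeI

/-! One dyadic block of the type I sum. -/

set_option autoImplicit false
open Filter Topology Finset

namespace Pool.Agent.Work.MP_82fd4a_nt.Y

open Pool.Agent.Lib.MR

/-- second difference of the weight -/
noncomputable def d2 (x : ℕ) (T : ℝ) (n : ℕ) : ℝ := gk x T (n + 2) - 2 * gk x T (n + 1) + gk x T n

lemma yTIb_tel (g c : ℕ → ℝ) (k : ℝ) (hc : ∀ n, c (n + 2) + c n = (2 - k) * c (n + 1)) (M : ℕ) :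
    ∑ n ∈ range M, (g (n + 2) - 2 * g (n + 1) + g n) * c (n + 1) +
      k * ∑ n ∈ range M, g (n + 1) * c (n + 1) =
      g (M + 1) * c M - g M * c (M + 1) - (g 1 * c 0 - g 0 * c 1) := by
  induction M with
  | zero => simp
  | succ M ih =>
    rw [sum_range_succ, sum_range_succ]
    linear_combination ih + g (M + 1) * hc M

lemma yTIb_rec (t : ℝ) (n : ℕ) :
    Real.cos (2 * Real.pi * ((n + 2 : ℕ) : ℝ) * t) + Real.cos (2 * Real.pi * (n : ℝ) * t) =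
      (2 - 4 * Real.sin (Real.pi * t) ^ 2) * Real.cos (2 * Real.pi * ((n + 1 : ℕ) : ℝ) * t) := by
  have e1 : 2 * Real.pi * ((n + 2 : ℕ) : ℝ) * t =
      2 * Real.pi * ((n + 1 : ℕ) : ℝ) * t + 2 * (Real.pi * t) := by push_cast; ring
  have e2 : 2 * Real.pi * (n : ℝ) * t =
      2 * Real.pi * ((n + 1 : ℕ) : ℝ) * t - 2 * (Real.pi * t) := by push_cast; ring
  rw [e1, e2, Real.cos_add, Real.cos_sub, Real.cos_two_mul, Real.cos_sq']
  ring

lemma yTIb_sin {z : ℝ} (h0 : 0 < z) (h1 : z ≤ 1) :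
    0 < Real.sin z ∧ 0 ≤ 1 / Real.sin z ^ 2 - 1 / z ^ 2 ∧ 1 / Real.sin z ^ 2 - 1 / z ^ 2 ≤ 1 := by
  have a1 := Real.sin_gt_sub_cube h0
  have a2 := Real.sin_le h0.le
  have w1 : z ^ 2 ≤ 1 := pow_le_one₀ h0.le h1
  have w0 : 0 < z ^ 2 := by positivity
  have a3 : 0 < z - z ^ 3 / 6 := by nlinarith
  have a4 : 0 < Real.sin z := a3.trans a1
  refine ⟨a4, ?_, ?_⟩
  · rw [sub_nonneg]
    exact one_div_le_one_div_of_le (by positivity) (pow_le_pow_left₀ a4.le a2 2)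
  · have b1 : (z - z ^ 3 / 6) ^ 2 ≤ Real.sin z ^ 2 := pow_le_pow_left₀ a3.le a1.le 2
    have b2 : z ^ 2 ≤ (1 + z ^ 2) * (z - z ^ 3 / 6) ^ 2 := by
      have e' : (1 + z ^ 2) * (z - z ^ 3 / 6) ^ 2 =
          z ^ 2 + z ^ 2 * z ^ 2 * ((2 - z ^ 2) / 3 + (1 + z ^ 2) * z ^ 2 / 36) := by ring
      rw [e']
      have : 0 ≤ z ^ 2 * z ^ 2 * ((2 - z ^ 2) / 3 + (1 + z ^ 2) * z ^ 2 / 36) := by
        have : 0 ≤ 2 - z ^ 2 := by linarith
        positivity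
      linarith
    have b3 : z ^ 2 ≤ (1 + z ^ 2) * Real.sin z ^ 2 :=
      b2.trans (mul_le_mul_of_nonneg_left b1 (by positivity))
    rw [sub_le_iff_le_add, div_le_iff₀ (by positivity)]
    have e : (1 + 1 / z ^ 2) * Real.sin z ^ 2 = (1 + z ^ 2) * Real.sin z ^ 2 / z ^ 2 := by
      field_simp
      ring
    rw [e, le_div_iff₀ w0, one_mul]
    exact b3

theorem tiC_hi {x : ℕ} {T t : ℝ} (hx : 6 ≤ x) (hL : 3 ≤ Real.log x) (hT : Real.log x ^ 2 ≤ T)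
    (ht : 0 < t) (ht' : t ≤ 1 / 4) :
    |tiC x T t + 1 / (4 * Real.pi ^ 2 * t ^ 2) *
      ∑ n ∈ range (2 * x + 1), d2 x T n * Real.cos (2 * Real.pi * ((n : ℝ) + 1) * t)|
      ≤ 4 * (T / x) := by
  have hx' : (0 : ℝ) < x := by exact_mod_cast (by omega : 0 < x)
  have hT1 : 1 ≤ T := by nlinarith
  have hq : 0 ≤ T / x := by positivity
  have z : ∀ n, 2 * n ≤ x ∨ 2 * x < n → gk x T n = 0 := by
    intro n hn
    by_contra h
    have := gk_ne_zero h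
    omega
  have h0 := yTIb_tel (gk x T) (fun n => Real.cos (2 * Real.pi * (n : ℝ) * t))
    (4 * Real.sin (Real.pi * t) ^ 2) (fun n => yTIb_rec t n) (2 * x + 1)
  rw [z 0 (by omega), z 1 (by omega), z (2 * x + 1) (by omega), z (2 * x + 1 + 1) (by omega)] at h0
  have h1 : ∑ n ∈ range (2 * x + 1), gk x T (n + 1) *
      Real.cos (2 * Real.pi * ((n + 1 : ℕ) : ℝ) * t) = tiC x T t := by
    rw [sum_range_succ, z (2 * x + 1) (by omega), zero_mul, add_zero, tiC, range_eq_Ico,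
      sum_Ico_add' (fun n => gk x T n * Real.cos (2 * Real.pi * (n : ℝ) * t)) 0 (2 * x) 1]
    refine sum_congr rfl fun n _ => ?_
    congr 2
    ring
  rw [h1] at h0
  obtain ⟨S, hS⟩ : ∃ S, S = ∑ n ∈ range (2 * x + 1),
    d2 x T n * Real.cos (2 * Real.pi * ((n : ℝ) + 1) * t) := ⟨_, rfl⟩
  have h2 : S + 4 * Real.sin (Real.pi * t) ^ 2 * tiC x T t = 0 := by
    rw [hS]
    simp only [Nat.cast_add, Nat.cast_one] at h0
    simp only [d2]
    linarith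
  have h3 : |S| ≤ 14 * (T / x) := by
    rw [hS]
    refine (abs_sum_le_sum_abs _ _).trans (le_trans (sum_le_sum fun n _ => ?_) (kf_tv hx hL hT))
    rw [abs_mul]
    exact mul_le_of_le_one_right (abs_nonneg _) (Real.abs_cos_le_one _)
  rw [← hS]
  have hpi := Real.pi_pos
  have hz0 : 0 < Real.pi * t := by positivity
  have hz1 : Real.pi * t ≤ 1 := by nlinarith [Real.pi_le_four]
  obtain ⟨s0, s1, s2⟩ := yTIb_sin hz0 hz1
  have e : tiC x T t + 1 / (4 * Real.pi ^ 2 * t ^ 2) * S =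
      -(S * (1 / Real.sin (Real.pi * t) ^ 2 - 1 / (Real.pi * t) ^ 2) / 4) := by
    have e1 : tiC x T t = -S / (4 * Real.sin (Real.pi * t) ^ 2) := by
      rw [eq_div_iff (by positivity)]
      linarith
    rw [e1]
    field_simp
    ring
  rw [e, abs_neg, abs_div, abs_mul, abs_of_nonneg s1, abs_of_pos (by norm_num : (0 : ℝ) < 4)]
  have h4 := mul_le_of_le_one_right (abs_nonneg S) s2
  linarith

lemma yTIb_re (t : ℝ) : (ce t).re = Real.cos t := by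
  rw [ce_eq]
  simp [Complex.cos_ofReal_re, Complex.sin_ofReal_im]

lemma yTIb_swap {ι : Type*} (R N : Finset ℕ) (P : Finset ι) (w y : ℕ → ℝ) (κ φ : ℕ → ι → ℝ)
    {E : ℝ} (h : ∀ n ∈ N, w n ≠ 0 →
      ‖∑ v ∈ R, ∑ p ∈ P, ((κ v p : ℝ) : ℂ) * ce (2 * Real.pi * y n * φ v p)‖ ≤ E) :
    |∑ v ∈ R, ∑ p ∈ P, κ v p * ∑ n ∈ N, w n * Real.cos (2 * Real.pi * y n * φ v p)|
      ≤ (∑ n ∈ N, |w n|) * E := by
  have h1 : ∑ v ∈ R, ∑ p ∈ P, κ v p * ∑ n ∈ N, w n * Real.cos (2 * Real.pi * y n * φ v p) =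
      ∑ n ∈ N, w n *
        (∑ v ∈ R, ∑ p ∈ P, ((κ v p : ℝ) : ℂ) * ce (2 * Real.pi * y n * φ v p)).re := by
    simp only [Complex.re_sum, Complex.re_ofReal_mul, yTIb_re, mul_sum]
    rw [sum_comm (s := N)]
    refine sum_congr rfl fun v _ => ?_
    rw [sum_comm (s := N)]
    refine sum_congr rfl fun p _ => sum_congr rfl fun n _ => ?_
    ring
  rw [h1, sum_mul]
  refine (abs_sum_le_sum_abs _ _).trans (sum_le_sum fun n hn => ?_)
  rw [abs_mul]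
  by_cases h0 : w n = 0
  · rw [h0, abs_zero, zero_mul, zero_mul]
  · exact mul_le_mul_of_nonneg_left ((Complex.abs_re_le_norm _).trans (h n hn h0)) (abs_nonneg _)

lemma yTIb_d2 {x n : ℕ} {T : ℝ} (hx : 6 ≤ x) (h : d2 x T n ≠ 0) :
    (x : ℝ) / 3 ≤ (n : ℝ) + 1 ∧ (n : ℝ) + 1 ≤ 3 * x := by
  have h1 : x ≤ 3 * (n + 1) ∧ n + 1 ≤ 3 * x := by
    by_contra hc
    apply h
    have z : ∀ m, n ≤ m → m ≤ n + 2 → gk x T m = 0 := by
      intro m h1 h2
      by_contra h3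
      have := gk_ne_zero h3
      omega
    unfold d2
    rw [z (n + 2) (by omega) (by omega), z (n + 1) (by omega) (by omega), z n (by omega) (by omega)]
    ring
  have h2 : (x : ℝ) ≤ 3 * (n + 1) := by exact_mod_cast h1.1
  have h3 : (n : ℝ) + 1 ≤ 3 * x := by exact_mod_cast h1.2
  exact ⟨by linarith, h3⟩

lemma yTIb_card {V : ℕ} {R : Finset ℕ} (hR : R ⊆ Ioc V (2 * V)) : (R.card : ℝ) ≤ V := by
  have h := card_le_card hR
  rw [Nat.card_Ioc] at h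
  exact_mod_cast (by omega : R.card ≤ V)

lemma yTIb_inv {V : ℕ} (hV : 1 ≤ V) {R : Finset ℕ} (hR : R ⊆ Ioc V (2 * V)) :
    ∑ v ∈ R, 1 / (v : ℝ) ≤ 1 := by
  have hV' : (0 : ℝ) < V := by exact_mod_cast hV
  have h : ∀ v ∈ R, 1 / (v : ℝ) ≤ 1 / V := fun v hv =>
    one_div_le_one_div_of_le hV' (by exact_mod_cast (mem_Ioc.1 (hR hv)).1.le)
  refine (sum_le_card_nsmul _ _ _ h).trans ?_
  rw [nsmul_eq_mul, mul_one_div, div_le_one hV']
  exact yTIb_card hR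

lemma yTIb_harm {x : ℕ} {Us : Finset ℕ} (h : Us ⊆ Icc 1 x) :
    ∑ u ∈ Us, 1 / (u : ℝ) ≤ 1 + Real.log x := by
  refine le_trans ?_ (harmonic_le_one_add_log x)
  rw [harmonic_eq_sum_Icc]
  push_cast
  simp only [one_div]
  exact sum_le_sum_of_subset_of_nonneg h fun i _ _ => by positivity

lemma yTIb_err {x V A : ℕ} {D e : ℝ} (hV : 1 ≤ V) (he : 0 ≤ e) (hD0 : 0 ≤ D)
    (hD : 1 + Real.log x ≤ D) (R Us : Finset ℕ) (hR : R ⊆ Ioc V (2 * V)) (hUs : Us ⊆ Icc 1 x)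
    (P : Finset (ℕ × ℕ)) (hP : P ⊆ Us ×ˢ Icc 1 A) (a b : ℕ → ℝ) (ha : ∀ v, |a v| ≤ D)
    (hb : ∀ u, |b u| ≤ D) (F : ℕ → ℕ × ℕ → ℝ) (hF : ∀ v ∈ R, ∀ p ∈ P, |F v p| ≤ e) :
    |∑ v ∈ R, ∑ p ∈ P, a v / v * (b p.1 / p.1) * F v p| ≤ D ^ 3 * A * e := by
  have h1 : ∀ v ∈ R, |∑ p ∈ P, a v / v * (b p.1 / p.1) * F v p| ≤
      1 / (v : ℝ) * (D ^ 3 * A * e) := by
    intro v hv
    refine (abs_sum_le_sum_abs _ _).trans ?_
    have h2 : ∀ p ∈ P, |a v / v * (b p.1 / p.1) * F v p| ≤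
        1 / (v : ℝ) * (D ^ 2 * e) * (1 / (p.1 : ℝ)) := by
      intro p hp
      rw [abs_mul, abs_mul, abs_div, abs_div, Nat.abs_cast, Nat.abs_cast]
      calc |a v| / v * (|b p.1| / p.1) * |F v p| ≤ D / v * (D / p.1) * e := by
            have := ha v
            have := hb p.1
            have := hF v hv p hp
            gcongr
        _ = _ := by ring
    refine (sum_le_sum h2).trans ?_
    refine (sum_le_sum_of_subset_of_nonneg hP fun i _ _ => by positivity).trans ?_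
    rw [← mul_sum, sum_product]
    simp only [sum_const, Nat.card_Icc, Nat.add_sub_cancel, nsmul_eq_mul]
    rw [← mul_sum]
    have h3 := (yTIb_harm hUs).trans hD
    calc 1 / (v : ℝ) * (D ^ 2 * e) * (A * ∑ u ∈ Us, 1 / (u : ℝ))
        ≤ 1 / (v : ℝ) * (D ^ 2 * e) * (A * D) := by gcongr
      _ = _ := by ring
  refine (abs_sum_le_sum_abs _ _).trans ((sum_le_sum h1).trans ?_)
  rw [← sum_mul]
  exact mul_le_of_le_one_left (by positivity) (yTIb_inv hV hR)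

theorem ti_block {x V A : ℕ} {s U D T E : ℝ} (hx : 6 ≤ x) (hL : 3 ≤ Real.log x)
    (hT : Real.log x ^ 2 ≤ T) (hs : s ^ 4 = x) (hs1 : 1 ≤ s) (hVs : (V : ℝ) ≤ s ^ 2)
    (hU : U ^ 2 ≤ s) (hA : A ^ 3 ≤ x) (hAV : 4 * A < V) (hτ : ∀ n ≤ x, tau n ≤ D)
    (hD : (1 + Real.log x) ^ 2 ≤ D)
    (hF : ∀ α : ℝ, ‖∑ n ∈ Icc 1 (2 * x), (gk x T n : ℂ) *
      Complex.exp (2 * Real.pi * Complex.I * (α * n))‖ * Real.sin (Real.pi * α) ^ 2 ≤ 40 * T / x)
    (hE0 : 0 ≤ E) (hE : 4000 * D ^ 6 * (V / s ^ 2 + U ^ 2 * V / s ^ 3) ≤ E ^ 2)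
    (R Us : Finset ℕ) (hR : R ⊆ Ioc V (2 * V)) (hUs : ∀ u ∈ Us, 1 ≤ u ∧ (u : ℝ) ≤ U)
    (a b : ℕ → ℝ) (ha : ∀ v, |a v| ≤ D) (hb : ∀ u, |b u| ≤ D) :
    |∑ v ∈ R, ∑ u ∈ Us, a v * b u *
      (∑ n ∈ Icc 1 (2 * x), gk x T (v * u * n) - Gam x T / (v * u))|
      ≤ 80 * D ^ 2 * (U * V) ^ 2 * (T / x) / (A + 1) + 8 * D ^ 3 * A * (T / x)
        + (2 * Gam x T + T) * E := by
  have hx' : (0 : ℝ) < x := by exact_mod_cast (by omega : 0 < x)
  have hT1 : 1 ≤ T := by nlinarith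
  have hq : 0 ≤ T / x := by positivity
  have hD1 : 1 + Real.log x ≤ D := by nlinarith
  have hD0 : 0 ≤ D := by linarith
  have hG : 0 ≤ Gam x T := sum_nonneg fun n _ => gk_nonneg x T n
  have hV : 1 ≤ V := by omega
  have hpi := Real.pi_pos
  rcases Us.eq_empty_or_nonempty with rfl | ⟨u0, hu0⟩
  · simp only [sum_empty, sum_const_zero, abs_zero]
    positivity
  have hU1 : 1 ≤ U := le_trans (by exact_mod_cast (hUs u0 hu0).1) (hUs u0 hu0).2
  have hUx : Us ⊆ Icc 1 x := by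
    intro u hu
    refine mem_Icc.2 ⟨(hUs u hu).1, ?_⟩
    have h1 : s ≤ s ^ 4 := le_self_pow₀ hs1 (by norm_num)
    have h2 : U ≤ U ^ 2 := le_self_pow₀ hU1 (by norm_num)
    have h3 : (u : ℝ) ≤ x := by linarith [(hUs u hu).2]
    exact_mod_cast h3
  have hv : ∀ v ∈ R, V < v ∧ v ≤ 2 * V := fun v hv => mem_Ioc.1 (hR hv)
  -- the tail of the Fourier expansion
  have p1 : |∑ v ∈ R, ∑ u ∈ Us, a v * b u *
      (∑ n ∈ Icc 1 (2 * x), gk x T (v * u * n) - Gam x T / (v * u) -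
        2 / (v * u) * ∑ h ∈ Icc 1 A, tiC x T ((h : ℝ) / (v * u)))| ≤
      80 * D ^ 2 * (U * V) ^ 2 * (T / x) / (A + 1) := by
    have h1 : ∀ v ∈ R, |∑ u ∈ Us, a v * b u *
        (∑ n ∈ Icc 1 (2 * x), gk x T (v * u * n) - Gam x T / (v * u) -
          2 / (v * u) * ∑ h ∈ Icc 1 A, tiC x T ((h : ℝ) / (v * u)))| ≤
        U * (D * D * (40 * T / x * (2 * V * U) / (A + 1))) := by
      intro v hvR
      refine (abs_sum_le_sum_abs _ _).trans ?_
      have h2 : ∀ u ∈ Us, |a v * b u *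
          (∑ n ∈ Icc 1 (2 * x), gk x T (v * u * n) - Gam x T / (v * u) -
            2 / (v * u) * ∑ h ∈ Icc 1 A, tiC x T ((h : ℝ) / (v * u)))| ≤
          D * D * (40 * T / x * (2 * V * U) / (A + 1)) := by
        intro u hu
        have h4 : 2 * A < v * u := by
          have := Nat.le_mul_of_pos_right v (hUs u hu).1
          have := (hv v hvR).1
          omega
        have h3 := ti_split x T h4 hF
        rw [Nat.cast_mul] at h3
        have h5 : (v : ℝ) ≤ 2 * V := by exact_mod_cast (hv v hvR).2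
        have h6 := (hUs u hu).2
        have h7 : 40 * T / x * ((v : ℝ) * u) / (A + 1) ≤ 40 * T / x * (2 * V * U) / (A + 1) := by
          gcongr
        rw [abs_mul, abs_mul]
        exact mul_le_mul (mul_le_mul (ha v) (hb u) (abs_nonneg _) hD0) (h3.trans h7)
          (abs_nonneg _) (mul_nonneg hD0 hD0)
      refine (sum_le_card_nsmul _ _ _ h2).trans ?_
      rw [nsmul_eq_mul]
      exact mul_le_mul_of_nonneg_right (ti_card (by linarith) hUs) (by positivity)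
    refine (abs_sum_le_sum_abs _ _).trans ((sum_le_card_nsmul _ _ _ h1).trans ?_)
    rw [nsmul_eq_mul]
    refine (mul_le_mul_of_nonneg_right (yTIb_card hR) (by positivity)).trans (le_of_eq ?_)
    ring
  obtain ⟨Pl, hPl⟩ : ∃ P, P = (Us ×ˢ Icc 1 A).filter
    (fun p : ℕ × ℕ => (p.2 : ℝ) * s ^ 2 ≤ p.1 * V) := ⟨_, rfl⟩
  obtain ⟨Ph, hPh⟩ : ∃ P, P = (Us ×ˢ Icc 1 A).filter
    (fun p : ℕ × ℕ => ¬ (p.2 : ℝ) * s ^ 2 ≤ p.1 * V) := ⟨_, rfl⟩
  have hPs : Ph ⊆ Us ×ˢ Icc 1 A := by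
    rw [hPh]
    exact filter_subset _ _
  -- low frequencies
  have p2 : |∑ v ∈ R, ∑ p ∈ Pl, a v / v * (b p.1 / p.1) * tiC x T ((p.2 : ℝ) / (v * p.1))| ≤
      Gam x T * E := by
    have h1 := yTIb_swap R (Icc 1 (2 * x)) Pl (gk x T) (fun n => (n : ℝ))
      (fun v p => a v / v * (b p.1 / p.1)) (fun v p => (p.2 : ℝ) / (v * p.1)) (E := E)
      (fun n _ hn => by
        obtain ⟨n1, n2⟩ := gk_ne_zero hn
        have n3 : (x : ℝ) < 2 * n := by exact_mod_cast n1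
        have n4 : (n : ℝ) ≤ 2 * x := by exact_mod_cast n2
        have h2 := blk_lo (y := (n : ℝ)) hs hs1 hV hVs hU hA hτ hD (by linarith) (by linarith)
          R Us hR hUs a b ha hb
        rw [← hPl] at h2
        exact (pow_le_pow_iff_left₀ (norm_nonneg _) hE0 two_ne_zero).1 (h2.trans hE))
    have h3 : ∑ n ∈ Icc 1 (2 * x), |gk x T n| = Gam x T :=
      sum_congr rfl fun n _ => abs_of_nonneg (gk_nonneg x T n)
    rw [h3] at h1
    refine le_trans (le_of_eq ?_) h1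
    congr 1
    refine sum_congr rfl fun v _ => sum_congr rfl fun p _ => ?_
    unfold tiC
    congr 1
    refine sum_congr rfl fun n _ => ?_
    congr 2
    ring
  -- high frequencies
  have p3 := yTIb_err (e := 4 * (T / x)) hV (by positivity) hD0 hD1 R Us hR hUx Ph hPs a b ha hb
    (fun v p => tiC x T ((p.2 : ℝ) / (v * p.1)) +
      1 / (4 * Real.pi ^ 2 * ((p.2 : ℝ) / (v * p.1)) ^ 2) * ∑ n ∈ range (2 * x + 1),
        d2 x T n * Real.cos (2 * Real.pi * ((n : ℝ) + 1) * ((p.2 : ℝ) / (v * p.1))))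
    (fun v hvR p hp => by
      obtain ⟨q1, q2⟩ := mem_product.1 (hPs hp)
      obtain ⟨q3, q4⟩ := mem_Icc.1 q2
      have q5 := Nat.le_mul_of_pos_right v (hUs _ q1).1
      have q6 := (hv v hvR).1
      have q7 : (0 : ℝ) < (v : ℝ) * p.1 := by exact_mod_cast (by omega : 0 < v * p.1)
      have q8 : (0 : ℝ) < p.2 := by exact_mod_cast q3
      have q9 : 4 * (p.2 : ℝ) ≤ (v : ℝ) * p.1 := by exact_mod_cast (by omega : 4 * p.2 ≤ v * p.1)
      refine tiC_hi hx hL hT (div_pos q8 q7) ?_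
      rw [div_le_div_iff₀ q7 (by norm_num)]
      linarith)
  have p4 : |∑ v ∈ R, ∑ p ∈ Ph, a v * v * (b p.1 * p.1 / (p.2 : ℝ) ^ 2) *
      ∑ n ∈ range (2 * x + 1),
        d2 x T n * Real.cos (2 * Real.pi * ((n : ℝ) + 1) * ((p.2 : ℝ) / (v * p.1)))| ≤
      14 * (T * E) := by
    have h1 := yTIb_swap R (range (2 * x + 1)) Ph (d2 x T) (fun n => (n : ℝ) + 1)
      (fun v p => a v * v * (b p.1 * p.1 / (p.2 : ℝ) ^ 2)) (fun v p => (p.2 : ℝ) / (v * p.1))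
      (E := x * E) (fun n _ hn => by
        obtain ⟨n1, n2⟩ := yTIb_d2 hx hn
        have h2 := blk_hi (y := (n : ℝ) + 1) hs hs1 hV hVs hU hA hτ hD n1 n2
          R Us hR hUs a b ha hb
        rw [← hPh] at h2
        refine (pow_le_pow_iff_left₀ (norm_nonneg _) (by positivity) two_ne_zero).1
          (h2.trans ?_)
        rw [mul_pow]
        exact mul_le_mul_of_nonneg_left hE (by positivity))
    refine h1.trans ((mul_le_mul_of_nonneg_right (kf_tv hx hL hT) (by positivity)).trans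
      (le_of_eq ?_))
    field_simp
  obtain ⟨S, hS⟩ : ∃ S : ℕ → ℕ × ℕ → ℝ, ∀ v p, S v p = ∑ n ∈ range (2 * x + 1),
      d2 x T n * Real.cos (2 * Real.pi * ((n : ℝ) + 1) * ((p.2 : ℝ) / (v * p.1))) :=
    ⟨_, fun _ _ => rfl⟩
  simp only [← hS] at p3 p4
  have e1 : ∑ v ∈ R, ∑ p ∈ Ph, a v / v * (b p.1 / p.1) * tiC x T ((p.2 : ℝ) / (v * p.1)) =
      ∑ v ∈ R, ∑ p ∈ Ph, a v / v * (b p.1 / p.1) * (tiC x T ((p.2 : ℝ) / (v * p.1)) +
        1 / (4 * Real.pi ^ 2 * ((p.2 : ℝ) / (v * p.1)) ^ 2) * S v p) -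
      1 / (4 * Real.pi ^ 2) *
        ∑ v ∈ R, ∑ p ∈ Ph, a v * v * (b p.1 * p.1 / (p.2 : ℝ) ^ 2) * S v p := by
    rw [mul_sum, ← sum_sub_distrib]
    refine sum_congr rfl fun v hvR => ?_
    rw [mul_sum, ← sum_sub_distrib]
    refine sum_congr rfl fun p hp => ?_
    obtain ⟨q1, q2⟩ := mem_product.1 (hPs hp)
    have q3 : (0 : ℝ) < p.2 := by exact_mod_cast (mem_Icc.1 q2).1
    have q4 : (0 : ℝ) < p.1 := by exact_mod_cast (hUs _ q1).1
    have q5 : (0 : ℝ) < v := by exact_mod_cast (by have := (hv v hvR).1; omega : 0 < v)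
    field_simp
    ring
  have e2 : ∑ v ∈ R, ∑ u ∈ Us, a v * b u *
      (∑ n ∈ Icc 1 (2 * x), gk x T (v * u * n) - Gam x T / (v * u)) =
      ∑ v ∈ R, ∑ u ∈ Us, a v * b u *
        (∑ n ∈ Icc 1 (2 * x), gk x T (v * u * n) - Gam x T / (v * u) -
          2 / (v * u) * ∑ h ∈ Icc 1 A, tiC x T ((h : ℝ) / (v * u))) +
      2 * (∑ v ∈ R, ∑ p ∈ Pl, a v / v * (b p.1 / p.1) * tiC x T ((p.2 : ℝ) / (v * p.1)) +
        ∑ v ∈ R, ∑ p ∈ Ph, a v / v * (b p.1 / p.1) * tiC x T ((p.2 : ℝ) / (v * p.1))) := by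
    rw [← sum_add_distrib, mul_sum, ← sum_add_distrib]
    refine sum_congr rfl fun v _ => ?_
    rw [hPl, hPh, sum_filter_add_sum_filter_not, sum_product, mul_sum, ← sum_add_distrib]
    refine sum_congr rfl fun u _ => ?_
    simp only
    rw [← mul_sum]
    ring
  rw [e2, e1]
  have k1 : 1 / (4 * Real.pi ^ 2) ≤ 1 / 28 :=
    one_div_le_one_div_of_le (by norm_num) (by nlinarith [Real.pi_gt_three])
  have p5 : |1 / (4 * Real.pi ^ 2) *
      ∑ v ∈ R, ∑ p ∈ Ph, a v * v * (b p.1 * p.1 / (p.2 : ℝ) ^ 2) * S v p| ≤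
      1 / 28 * (14 * (T * E)) := by
    rw [abs_mul, abs_of_pos (by positivity)]
    exact mul_le_mul k1 p4 (abs_nonneg _) (by norm_num)
  rw [abs_le] at p1 p2 p3 p5 ⊢
  constructor <;> linarith [p1.1, p1.2, p2.1, p2.2, p3.1, p3.2, p5.1, p5.2]

end Pool.Agent.Work.MP_82fd4a_nt.Y
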