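import Pool.Agent.Work.MP_82fd4a_nt.Y.TIb
import Pool.Agent.Work.MP_82fd4a_nt.Z.Defs

/-! The type I estimate in two variables, with a power saving. -/

set_option autoImplicit false
open Filter Topology Finset

namespace Pool.Agent.Work.MP_82fd4a_nt.Y

lemma yTypeI_num {u w H G T V A : ℝ} (hH : 1 ≤ H) (hw : 1 ≤ w) (hwu : w ≤ u) (hG0 : 0 ≤ G)
    (hT0 : 0 ≤ T) (hT : T ≤ 8 * H ^ 2 * G) (hV0 : 0 ≤ V) (hV : V ≤ u ^ 12 / w ^ 20)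
    (hA0 : 0 ≤ A) (hA : A ≤ u ^ 8) (hA' : u ^ 8 ≤ A + 1) :
    80 * w ^ 2 * (u ^ 3 / w ^ 20 * V) ^ 2 * (T / u ^ 24) / (A + 1) + 8 * w ^ 3 * A * (T / u ^ 24)
      + (2 * G + T) * (90 / w ^ 7) ≤ 1604 * (H ^ 2 * G / w ^ 7) := by
  have hu : 1 ≤ u := hw.trans hwu
  have hw0 : 0 < w := by linarith
  have hu0 : 0 < u := by linarith
  have hH2 : 1 ≤ H ^ 2 := one_le_pow₀ hH
  have hK : 0 ≤ H ^ 2 * G := by positivity
  have t1 : 80 * w ^ 2 * (u ^ 3 / w ^ 20 * V) ^ 2 * (T / u ^ 24) / (A + 1)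
      ≤ 640 * (H ^ 2 * G / w ^ 7) := by
    calc 80 * w ^ 2 * (u ^ 3 / w ^ 20 * V) ^ 2 * (T / u ^ 24) / (A + 1)
        ≤ 80 * w ^ 2 * (u ^ 3 / w ^ 20 * (u ^ 12 / w ^ 20)) ^ 2 * (8 * H ^ 2 * G / u ^ 24)
          / u ^ 8 := by gcongr
      _ = 640 * (H ^ 2 * G / (w ^ 7 * (w ^ 71 * u ^ 2))) := by field_simp; ring
      _ ≤ 640 * (H ^ 2 * G / (w ^ 7 * 1)) := by
          have : 1 ≤ w ^ 71 * u ^ 2 := one_le_mul_of_one_le_of_one_le (one_le_pow₀ hw) (one_le_pow₀ hu)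
          gcongr
      _ = 640 * (H ^ 2 * G / w ^ 7) := by rw [mul_one]
  have t2 : 8 * w ^ 3 * A * (T / u ^ 24) ≤ 64 * (H ^ 2 * G / w ^ 7) := by
    calc 8 * w ^ 3 * A * (T / u ^ 24) ≤ 8 * u ^ 3 * u ^ 8 * (8 * H ^ 2 * G / u ^ 24) := by gcongr
      _ = 64 * (H ^ 2 * G / (u ^ 7 * u ^ 6)) := by field_simp; ring
      _ ≤ 64 * (H ^ 2 * G / (w ^ 7 * 1)) := by
          have : 1 ≤ u ^ 6 := one_le_pow₀ hu
          gcongr
      _ = 64 * (H ^ 2 * G / w ^ 7) := by rw [mul_one]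
  have t3 : (2 * G + T) * (90 / w ^ 7) ≤ 900 * (H ^ 2 * G / w ^ 7) := by
    have : 2 * G + T ≤ 10 * (H ^ 2 * G) := by nlinarith
    calc (2 * G + T) * (90 / w ^ 7) ≤ 10 * (H ^ 2 * G) * (90 / w ^ 7) := by gcongr
      _ = 900 * (H ^ 2 * G / w ^ 7) := by ring
  linarith

lemma yTypeI_E {u w V : ℝ} (hw : 1 ≤ w) (hwu : w ≤ u) (hV : V ≤ u ^ 12 / w ^ 20) :
    4000 * w ^ 6 * (V / (u ^ 6) ^ 2 + (u ^ 3 / w ^ 20) ^ 2 * V / (u ^ 6) ^ 3)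
      ≤ (90 / w ^ 7) ^ 2 := by
  have hu : 1 ≤ u := hw.trans hwu
  have hw0 : 0 < w := by linarith
  have hu0 : 0 < u := by linarith
  calc 4000 * w ^ 6 * (V / (u ^ 6) ^ 2 + (u ^ 3 / w ^ 20) ^ 2 * V / (u ^ 6) ^ 3)
      ≤ 4000 * w ^ 6 * (u ^ 12 / w ^ 20 / (u ^ 6) ^ 2 +
        (u ^ 3 / w ^ 20) ^ 2 * (u ^ 12 / w ^ 20) / (u ^ 6) ^ 3) := by gcongr
    _ = 4000 / w ^ 14 + 4000 / (w ^ 14 * w ^ 40) := by field_simp
    _ ≤ 4000 / w ^ 14 + 4100 / (w ^ 14 * 1) := by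
        have : 1 ≤ w ^ 40 := one_le_pow₀ hw
        gcongr
        norm_num
    _ = (90 / w ^ 7) ^ 2 := by field_simp; norm_num

lemma yTypeI_log {x : ℕ} (hx : 1 ≤ x) :
    ((Nat.log 2 x + 1 : ℕ) : ℝ) ≤ (1 + Real.log x) ^ 2 := by
  have h1 : ((2 : ℝ)) ^ Nat.log 2 x ≤ x := by
    exact_mod_cast Nat.pow_log_le_self 2 (by omega : x ≠ 0)
  have h2 := Real.log_le_log (by positivity) h1
  rw [Real.log_pow] at h2
  have h3 := Real.log_two_gt_d9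
  have h4 : (0 : ℝ) ≤ Nat.log 2 x := Nat.cast_nonneg _
  have h5 : 0 ≤ Real.log x := Real.log_natCast_nonneg x
  push_cast
  nlinarith

lemma yTypeI_core {x : ℕ} {u w H T : ℝ} (hx : 6 ≤ x) (hL : 3 ≤ Real.log x)
    (hT : Real.log x ^ 2 ≤ T) (hxu : (x : ℝ) = u ^ 24) (hH : 1 ≤ H) (hw : 1620 * H ^ 2 ≤ w)
    (hwu : w ≤ u) (hTH : T ≤ H * u ^ 12) (hG : (x : ℝ) / (8 * T) ≤ Gam x T)
    (hτ : ∀ n ≤ x, tau n ≤ w) (hD : (1 + Real.log x) ^ 2 ≤ w)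
    (hF : ∀ α : ℝ, ‖∑ n ∈ Icc 1 (2 * x), (gk x T n : ℂ) *
      Complex.exp (2 * Real.pi * Complex.I * (α * n))‖ * Real.sin (Real.pi * α) ^ 2 ≤ 40 * T / x)
    (Vs Us : Finset ℕ) (a b : ℕ → ℝ) (hVs : ∀ v ∈ Vs, 1 ≤ v ∧ (v : ℝ) ≤ u ^ 12 / w ^ 20)
    (hUs : ∀ m ∈ Us, 1 ≤ m ∧ (m : ℝ) ≤ u ^ 3 / w ^ 20) (ha : ∀ v, |a v| ≤ w)
    (hb : ∀ m, |b m| ≤ w) :
    |∑ v ∈ Vs, ∑ m ∈ Us, a v * b m *
      (∑ n ∈ Icc 1 (2 * x), gk x T (v * m * n) - Gam x T / (v * m))| ≤ Gam x T * w⁻¹ := by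
  have hH2 : 1 ≤ H ^ 2 := one_le_pow₀ hH
  have hw1 : 1 ≤ w := by linarith
  have hu8 : 8 ≤ u := by linarith
  have hu : 1 ≤ u := by linarith
  have hw0 : 0 < w := by linarith
  have hu0 : 0 < u := by linarith
  have hT1 : 1 ≤ T := le_trans (by nlinarith) hT
  have hT0 : 0 < T := by linarith
  have hG1 : u ^ 12 ≤ 8 * H * Gam x T := by
    have h1 : u ^ 24 / (8 * (H * u ^ 12)) ≤ Gam x T := by
      refine le_trans ?_ hG
      rw [hxu]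
      gcongr
    have h2 : u ^ 24 / (8 * (H * u ^ 12)) = u ^ 12 / (8 * H) := by field_simp
    rw [h2, div_le_iff₀ (by positivity)] at h1
    linarith
  have hG0 : 0 ≤ Gam x T := le_trans (by positivity) hG
  have hTG : T ≤ 8 * H ^ 2 * Gam x T := by
    have := mul_le_mul_of_nonneg_left hG1 (by linarith : 0 ≤ H)
    nlinarith
  have hw20 : 1 ≤ w ^ 20 := one_le_pow₀ hw1
  have hA : ((⌊u ^ 8⌋₊ : ℕ) : ℝ) ≤ u ^ 8 := Nat.floor_le (by positivity)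
  have hA' : u ^ 8 ≤ ((⌊u ^ 8⌋₊ : ℕ) : ℝ) + 1 := (Nat.lt_floor_add_one _).le
  have hA3 : ⌊u ^ 8⌋₊ ^ 3 ≤ x := by
    have : ((⌊u ^ 8⌋₊ : ℕ) : ℝ) ^ 3 ≤ x := by
      rw [hxu]
      calc ((⌊u ^ 8⌋₊ : ℕ) : ℝ) ^ 3 ≤ (u ^ 8) ^ 3 := by gcongr
        _ = u ^ 24 := by ring
    exact_mod_cast this
  have hU2 : (u ^ 3 / w ^ 20) ^ 2 ≤ u ^ 6 := by
    calc (u ^ 3 / w ^ 20) ^ 2 ≤ (u ^ 3 / 1) ^ 2 := by gcongr
      _ = u ^ 6 := by ring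
  have hV12 : u ^ 12 / w ^ 20 ≤ u ^ 12 := div_le_self (by positivity) hw20
  set F : ℕ → ℝ := fun v => ∑ m ∈ Us, a v * b m *
    (∑ n ∈ Icc 1 (2 * x), gk x T (v * m * n) - Gam x T / (v * m)) with hFdef
  have hsm : |∑ v ∈ Vs.filter (fun v : ℕ => (v : ℝ) ≤ u ^ 9), F v|
      ≤ u ^ 9 * (u ^ 3 / w ^ 20 * (w * w * 2)) := by
    refine ti_triv _ Us a b (fun v m => ∑ n ∈ Icc 1 (2 * x), gk x T (v * m * n) - Gam x T / (v * m))
      hw0.le (by norm_num) (by positivity) (by positivity) (fun r hr => ?_) hUs ha hb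
      fun r hr m hm => ?_
    · exact ⟨(hVs r (mem_filter.1 hr).1).1, (mem_filter.1 hr).2⟩
    · have := sum_gk_mul x hT0.le (q := r * m)
        (Nat.mul_pos (hVs r (mem_filter.1 hr).1).1 (hUs m hm).1)
      rwa [Nat.cast_mul] at this
  have hbl : ∀ j ∈ range (Nat.log 2 x + 1),
      |∑ v ∈ (Vs.filter (fun v : ℕ => ¬ (v : ℝ) ≤ u ^ 9)).filter
        (fun v => Nat.log 2 (v - 1) = j), F v| ≤ 1604 * (H ^ 2 * Gam x T / w ^ 7) := by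
    intro j _
    rcases ((Vs.filter (fun v : ℕ => ¬ (v : ℝ) ≤ u ^ 9)).filter
        (fun v => Nat.log 2 (v - 1) = j)).eq_empty_or_nonempty with he | ⟨v0, hv0⟩
    · rw [he, sum_empty, abs_zero]
      positivity
    have hmem : ∀ v ∈ (Vs.filter (fun v : ℕ => ¬ (v : ℝ) ≤ u ^ 9)).filter
        (fun v => Nat.log 2 (v - 1) = j), v ∈ Ioc (2 ^ j) (2 * 2 ^ j) := by
      intro v hv
      obtain ⟨h1, h2⟩ := mem_filter.1 hv
      have h3 : u ^ 9 < v := not_le.1 (mem_filter.1 h1).2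
      have h4 : 1 < v := by
        have : (1 : ℝ) < v := lt_of_le_of_lt (one_le_pow₀ hu) h3
        exact_mod_cast this
      have h5 := Nat.pow_log_le_self 2 (by omega : v - 1 ≠ 0)
      have h6 := Nat.lt_pow_succ_log_self (by norm_num : 1 < 2) (v - 1)
      rw [h2] at h5 h6
      rw [Nat.succ_eq_add_one, pow_succ] at h6
      rw [mem_Ioc]
      omega
    obtain ⟨k1, k2⟩ := mem_Ioc.1 (hmem v0 hv0)
    have k3 : u ^ 9 < v0 := not_le.1 (mem_filter.1 (mem_filter.1 hv0).1).2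
    have k4 := (hVs v0 (mem_filter.1 (mem_filter.1 hv0).1).1).2
    have k5 : ((2 ^ j : ℕ) : ℝ) ≤ u ^ 12 / w ^ 20 := le_trans (by exact_mod_cast k1.le) k4
    have k6 : 4 * ⌊u ^ 8⌋₊ < 2 ^ j := by
      have h1 : (v0 : ℝ) ≤ 2 * ((2 ^ j : ℕ) : ℝ) := by exact_mod_cast k2
      have h2 : 8 * u ^ 8 ≤ u ^ 9 := by
        have := mul_le_mul_of_nonneg_right hu8 (by positivity : 0 ≤ u ^ 8)
        calc 8 * u ^ 8 ≤ u * u ^ 8 := this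
          _ = u ^ 9 := by ring
      have h3 : 4 * ((⌊u ^ 8⌋₊ : ℕ) : ℝ) < ((2 ^ j : ℕ) : ℝ) := by linarith
      exact_mod_cast h3
    have hb1 := ti_block (s := u ^ 6) (U := u ^ 3 / w ^ 20) (E := 90 / w ^ 7) hx hL hT
      (by rw [hxu]; ring) (one_le_pow₀ hu) (k5.trans (hV12.trans_eq (by ring))) hU2 hA3 k6 hτ hD hF
      (by positivity) (yTypeI_E hw1 hwu k5) _ Us hmem hUs a b ha hb
    refine hb1.trans ?_
    have := yTypeI_num hH hw1 hwu hG0 hT0.le hTG (Nat.cast_nonneg _) k5 (Nat.cast_nonneg _) hA hA'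
    rw [← hxu] at this
    exact this
  have hlg : |∑ v ∈ Vs.filter (fun v : ℕ => ¬ (v : ℝ) ≤ u ^ 9), F v|
      ≤ w * (1604 * (H ^ 2 * Gam x T / w ^ 7)) := by
    rw [← sum_fiberwise_of_maps_to (t := range (Nat.log 2 x + 1)) (g := fun v => Nat.log 2 (v - 1))]
    · refine (abs_sum_le_sum_abs _ _).trans ((sum_le_card_nsmul _ _ _ hbl).trans ?_)
      rw [nsmul_eq_mul, card_range]
      exact mul_le_mul_of_nonneg_right ((yTypeI_log (by omega)).trans hD) (by positivity)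
    · intro v hv
      have h1 := (hVs v (mem_filter.1 hv).1).2
      have h2 : (v : ℝ) ≤ x := by
        rw [hxu]
        exact h1.trans (hV12.trans (pow_le_pow_right₀ hu (by norm_num)))
      have h3 : v ≤ x := by exact_mod_cast h2
      exact mem_range.2 (Nat.lt_succ_of_le (Nat.log_mono_right (by omega)))
  rw [← sum_filter_add_sum_filter_not Vs (fun v : ℕ => (v : ℝ) ≤ u ^ 9)]
  refine (abs_add_le _ _).trans ((add_le_add hsm hlg).trans ?_)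
  have q1 : u ^ 9 * (u ^ 3 / w ^ 20 * (w * w * 2)) ≤ 16 * (H ^ 2 * Gam x T / w ^ 2) := by
    have h1 : u ^ 12 ≤ 8 * (H ^ 2 * Gam x T) := by
      have : H * Gam x T ≤ H ^ 2 * Gam x T := mul_le_mul_of_nonneg_right (by nlinarith) hG0
      linarith
    calc u ^ 9 * (u ^ 3 / w ^ 20 * (w * w * 2)) = 2 * u ^ 12 / (w ^ 2 * w ^ 16) := by field_simp
      _ ≤ 2 * (8 * (H ^ 2 * Gam x T)) / (w ^ 2 * 1) := by
          have : 1 ≤ w ^ 16 := one_le_pow₀ hw1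
          gcongr
      _ = 16 * (H ^ 2 * Gam x T / w ^ 2) := by ring
  have q2 : w * (1604 * (H ^ 2 * Gam x T / w ^ 7)) ≤ 1604 * (H ^ 2 * Gam x T / w ^ 2) := by
    calc w * (1604 * (H ^ 2 * Gam x T / w ^ 7)) = 1604 * (H ^ 2 * Gam x T / (w ^ 2 * w ^ 4)) := by
          field_simp
      _ ≤ 1604 * (H ^ 2 * Gam x T / (w ^ 2 * 1)) := by
          have : 1 ≤ w ^ 4 := one_le_pow₀ hw1
          gcongr
      _ = 1604 * (H ^ 2 * Gam x T / w ^ 2) := by rw [mul_one]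
  have q3 : 1620 * (H ^ 2 * Gam x T / w ^ 2) ≤ Gam x T * w⁻¹ := by
    calc 1620 * (H ^ 2 * Gam x T / w ^ 2) = 1620 * H ^ 2 * (Gam x T / w ^ 2) := by ring
      _ ≤ w * (Gam x T / w ^ 2) := by gcongr
      _ = Gam x T * w⁻¹ := by field_simp
  linarith

theorem typeI3 {c H : ℝ} (hc : 0 < c) (hc1 : c ≤ 1 / 20000) (hH : 1 ≤ H) :
    ∀ᶠ x : ℕ in atTop, ∀ (Vs Us : Finset ℕ) (a b : ℕ → ℝ),
    (∀ v ∈ Vs, 1 ≤ v ∧ (v : ℝ) ≤ (x : ℝ) ^ (1 / 2 - 20 * c)) →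
    (∀ u ∈ Us, 1 ≤ u ∧ (u : ℝ) ≤ (x : ℝ) ^ (1 / 8 - 20 * c)) →
    (∀ v, |a v| ≤ (x : ℝ) ^ c) → (∀ u, |b u| ≤ (x : ℝ) ^ c) →
    ∀ T : ℝ, Real.log x ^ 2 ≤ T → T ≤ H * √(x : ℝ) →
    |∑ v ∈ Vs, ∑ u ∈ Us, a v * b u *
      (∑ n ∈ Icc 1 (2 * x), gk x T (v * u * n) - Gam x T / (v * u))|
      ≤ Gam x T * (x : ℝ) ^ (-c) := by
  have t2 : Tendsto (fun x : ℕ => Real.log x) atTop atTop :=
    Real.tendsto_log_atTop.comp tendsto_natCast_atTop_atTop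
  have ev : ∀ (C : ℝ) {e : ℝ}, 0 < e → ∀ᶠ x : ℕ in atTop, C ≤ (x : ℝ) ^ e := fun C e he =>
    ((tendsto_rpow_atTop he).comp tendsto_natCast_atTop_atTop).eventually_ge_atTop C
  have hc2 : 0 < c / 2 := by linarith
  have hc4 : 0 < c / 4 := by linarith
  obtain ⟨C, hC1, hC⟩ := Pool.Agent.Lib.ANT.exists_card_divisors_le _ hc2
  filter_upwards [fourier_gk, t2.eventually_ge_atTop 3, eventually_ge_atTop 6, Z.ev_le_self H,
    ev (1620 * H ^ 2) hc, ev C hc2, ev ((1 + 4 / c) ^ 2) hc2]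
    with x hF hL hx hHx hw hCx hlx Vs Us a b hVs hUs ha hb T hT hT'
  have hx1 : (1 : ℝ) ≤ x := by exact_mod_cast (by omega : 1 ≤ x)
  have hx0 : (0 : ℝ) < x := by linarith
  have hp : ∀ (k : ℕ) (d e : ℝ), e = d * k → (x : ℝ) ^ e = ((x : ℝ) ^ d) ^ k := by
    intro k d e h
    rw [h, Real.rpow_mul_natCast hx0.le]
  have e1 := hp 24 (1 / 24) 1 (by norm_num)
  have e2 := hp 12 (1 / 24) (1 / 2) (by norm_num)
  have e3 := hp 3 (1 / 24) (1 / 8) (by norm_num)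
  have e4 := hp 20 c (20 * c) (by push_cast; ring)
  have e5 := hp 2 (c / 2) c (by push_cast; ring)
  have e6 := hp 2 (c / 4) (c / 2) (by push_cast; ring)
  rw [Real.rpow_one] at e1
  rw [Real.rpow_sub hx0, e2, e4] at hVs
  rw [Real.rpow_sub hx0, e3, e4] at hUs
  have hT1 : 1 ≤ T := le_trans (by nlinarith) hT
  have hTx : T ≤ x := hT'.trans hHx
  rw [Real.sqrt_eq_rpow, e2] at hT'
  rw [Real.rpow_neg hx0.le]
  have h2 : 0 ≤ (x : ℝ) ^ (c / 2) := by positivity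
  refine yTypeI_core hx hL hT e1 hH hw
    (Real.rpow_le_rpow_of_exponent_le hx1 (by linarith)) hT' (Gam_ge hT1 hTx) (fun n hn => ?_) ?_
    (hF T hT hTx) Vs Us a b hVs hUs ha hb
  · have h1 : (n : ℝ) ^ (c / 2) ≤ (x : ℝ) ^ (c / 2) :=
      Real.rpow_le_rpow (Nat.cast_nonneg _) (by exact_mod_cast hn) hc2.le
    rw [e5, sq]
    exact (hC n).trans (mul_le_mul hCx h1 (by positivity) h2)
  · have h1 := Real.log_le_rpow_div hx0.le hc4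
    have h3 : 1 ≤ (x : ℝ) ^ (c / 4) := Real.one_le_rpow hx1 hc4.le
    have h4 : 1 + Real.log x ≤ (1 + 4 / c) * (x : ℝ) ^ (c / 4) := by
      have : (x : ℝ) ^ (c / 4) / (c / 4) = 4 / c * (x : ℝ) ^ (c / 4) := by field_simp
      rw [add_mul, ← this]
      linarith
    calc (1 + Real.log x) ^ 2 ≤ ((1 + 4 / c) * (x : ℝ) ^ (c / 4)) ^ 2 := by gcongr
      _ = (1 + 4 / c) ^ 2 * (x : ℝ) ^ (c / 2) := by rw [mul_pow, e6]
      _ ≤ (x : ℝ) ^ (c / 2) * (x : ℝ) ^ (c / 2) := by gcongr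
      _ = (x : ℝ) ^ c := by rw [e5, sq]

end Pool.Agent.Work.MP_82fd4a_nt.Y
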